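import Pool.Agent.Helper9.GTI.St
import Pool.Agent.Helper3.HY.Base

/-!
# GT, part ISOG: base change of the top coordinate (BCT)
-/

set_option autoImplicit false

namespace Pool.Agent.Helper9.GTI

open Polynomial Finset Matrix
open Pool.Agent.Helper3.HY (baseChange co tau)

theorem mk_BCT {k k' : Type} [Field k] [Field k'] (j : k →+* k') (h p : k[X]) :
    baseChange j h (AdjoinRoot.mk h p) = AdjoinRoot.mk (h.map j) (p.map j) := by
  rw [baseChange, AdjoinRoot.map, AdjoinRoot.lift_mk, ← Polynomial.eval₂_map,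
    ← AdjoinRoot.aeval_eq, Polynomial.aeval_def]
  rfl

theorem hBCT : StBCT := by
  intro k k' _ _ j h hh z
  constructor
  · obtain ⟨p, rfl⟩ := AdjoinRoot.mk_surjective z
    unfold tau
    rw [mk_BCT, Pool.Agent.Helper3.HY.co_mk, Pool.Agent.Helper3.HY.co_mk, ← map_modByMonic _ hh,
      coeff_map, natDegree_map]
  · have : AdjoinRoot.root h = AdjoinRoot.mk h X := rfl
    rw [this, mk_BCT, map_X]
    rfl

end Pool.Agent.Helper9.GTI
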