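import Pool.Agent.Helper9.GTI.St
import Pool.Agent.Helper3.HY.M_Cg
import Pool.Agent.Helper3.HY.M_Cd

/-!
# GT, part ISOG, module EVU (helper29): `EvP` gives a unimodular lattice
-/

set_option autoImplicit false

namespace Pool.Agent.Helper9.GTI

open Polynomial Finset Matrix
open Pool.Agent.Helper54.PT (Prm)
open Pool.Agent.Helper3.HY (fK RR LL kp red tau Ix InA Bf th Bf_apply algebraMap_root)
open Pool.Agent.Helper3.GT (UnitAt EvP)
open Pool.Agent.Helper9.HYI (tL)

section

variable {F : Type} [Field F] {f : F[X][X]}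

/-- The determinant of the Gram matrix of the powers of `θ`. -/
theorem det_gram_pow_EVU (hm : f.Monic) {g : ℕ} (hdeg : f.natDegree = 2 * g + 1) (α : LL f) :
    (Matrix.of fun i j : Ix g => tL hm (α * th f ^ (i : ℕ) * th f ^ (j : ℕ))).det =
      (-1) ^ g * Algebra.norm (RatFunc F) α := by
  classical
  have hmK := hm.map (algebraMap F[X] (RatFunc F))
  have hdK : (fK f).natDegree = 2 * g + 1 := by rw [hm.natDegree_map, hdeg]
  obtain ⟨b, hb⟩ : ∃ b : Module.Basis (Ix g) (RatFunc F) (LL f), ∀ i, b i = th f ^ (i : ℕ) := by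
    refine ⟨(AdjoinRoot.powerBasis' hmK).basis.reindex (finCongr hdK), fun i => ?_⟩
    rw [Module.Basis.reindex_apply, PowerBasis.basis_eq_pow]
    rfl
  set H : Matrix (Ix g) (Ix g) (RatFunc F) := Matrix.of fun i j => tau hmK (b i * b j) with hH
  have hG : (Matrix.of fun i j : Ix g => tL hm (α * th f ^ (i : ℕ) * th f ^ (j : ℕ))) =
      (Algebra.leftMulMatrix b α)ᵀ * H := by
    ext i j
    rw [Matrix.of_apply, Matrix.mul_apply]
    simp only [Matrix.transpose_apply, Algebra.leftMulMatrix_eq_repr_mul]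
    rw [← hb, ← hb]
    conv_lhs => rw [← b.sum_repr (α * b i)]
    rw [Finset.sum_mul, map_sum]
    refine Finset.sum_congr rfl fun k _ => ?_
    rw [smul_mul_assoc, map_smul, smul_eq_mul, hH, Matrix.of_apply]
  rw [hG, Matrix.det_mul, Matrix.det_transpose, ← Algebra.norm_eq_matrix_det, mul_comm]
  congr 1
  have h0 : ∀ i j, H.submatrix id (Fin.revPerm : Equiv.Perm (Ix g)) i j =
      tau hmK (th f ^ ((i : ℕ) + (2 * g - (j : ℕ)))) := by
    intro i j
    rw [Matrix.submatrix_apply, hH, Matrix.of_apply, hb, hb, ← pow_add]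
    congr 2
    rw [id, Fin.revPerm_apply, Fin.val_rev]
    omega
  have h1 : (H.submatrix id (Fin.revPerm : Equiv.Perm (Ix g))).det = 1 := by
    rw [Matrix.det_of_isLowerTriangular]
    · refine Finset.prod_eq_one fun i _ => ?_
      have hi := i.2
      rw [h0, Pool.Agent.Helper3.HY.Cg.tau_pow hm hdeg (by omega), if_pos (by omega)]
    · intro i j hij
      have hij' : i < j := hij
      have h2 : (i : ℕ) < j := hij'
      have h3 := j.2
      rw [h0, Pool.Agent.Helper3.HY.Cg.tau_pow hm hdeg (by omega), if_neg (by omega)]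
  rw [Matrix.det_permute', Pool.Agent.Helper3.HY.Cg.sign_rev] at h1
  have h2 : (((-1 : ℤˣ) ^ g : ℤˣ) : ℤ) = (-1) ^ g := by push_cast; rfl
  have h3 : ((-1 : RatFunc F) ^ g) * H.det = 1 := by
    rw [h2, Int.cast_pow, Int.cast_neg, Int.cast_one] at h1
    exact h1
  have h4 : ((-1 : RatFunc F) ^ g) * (-1) ^ g = 1 := by
    rw [← mul_pow, neg_one_mul, neg_neg, one_pow]
  calc H.det = ((-1 : RatFunc F) ^ g * (-1) ^ g) * H.det := by rw [h4, one_mul]
    _ = (-1) ^ g * ((-1 : RatFunc F) ^ g * H.det) := by ring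
    _ = (-1) ^ g := by rw [h3, mul_one]

/-- The norm of an element of `RR f` is a polynomial. -/
theorem norm_algebraMap_EVU [Fact (Irreducible (fK f))] (hm : f.Monic) (r : RR f) :
    ∃ ν : F[X], Algebra.norm (RatFunc F) (algebraMap (RR f) (LL f) r) =
      algebraMap F[X] (RatFunc F) ν := by
  have h1 : IsIntegral F[X] (algebraMap (RR f) (LL f) r) := by
    have h2 : IsIntegral F[X] r := by
      have : Module.Finite F[X] (RR f) := hm.finite_adjoinRoot
      exact Algebra.IsIntegral.isIntegral r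
    exact h2.algebraMap
  have : Module.Finite (RatFunc F) (LL f) :=
    (hm.map (algebraMap F[X] (RatFunc F))).finite_adjoinRoot
  have h2 : IsIntegral F[X] (Algebra.norm (RatFunc F) (algebraMap (RR f) (LL f) r)) :=
    Algebra.isIntegral_norm (RatFunc F) h1
  obtain ⟨ν, hν⟩ := IsIntegrallyClosed.isIntegral_iff.1 h2
  exact ⟨ν, hν.symm⟩

end

theorem hEVU : StEVU := by
  intro F _ g f hm hdeg _ P z hz
  classical
  obtain ⟨β, hβ, a, r, s, ha, har, hrs⟩ := hz
  have : Module.Finite (RatFunc F) (LL f) :=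
    (hm.map (algebraMap F[X] (RatFunc F))).finite_adjoinRoot
  have hn : Module.finrank (RatFunc F) (LL f) = 2 * g + 1 := by
    rw [(AdjoinRoot.powerBasis' (hm.map (algebraMap F[X] (RatFunc F)))).finrank]
    change (fK f).natDegree = _
    rw [hm.natDegree_map, hdeg]
  have hG : ∀ i j : Ix g, Bf hm z (β * th f ^ (i : ℕ)) (β * th f ^ (j : ℕ)) =
      tL hm (z * β ^ 2 * th f ^ (i : ℕ) * th f ^ (j : ℕ)) := by
    intro i j
    rw [Bf_apply]
    congr 1
    ring
  refine ⟨fun i => β * th f ^ (i : ℕ), fun i j => ?_, ?_⟩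
  · rw [hG]
    obtain ⟨c, hc⟩ := Pool.Agent.Helper3.HY.M_Cd.first hm
      (algebraMap (RR f) (LL f) (r * AdjoinRoot.root f ^ (i : ℕ) * AdjoinRoot.root f ^ (j : ℕ)))
      ⟨_, rfl⟩
    refine ⟨c, a, ha, ?_⟩
    rw [← hc, map_mul (algebraMap (RR f) (LL f)), map_mul (algebraMap (RR f) (LL f)),
      map_pow (algebraMap (RR f) (LL f)), map_pow (algebraMap (RR f) (LL f)), algebraMap_root,
      ← har, mul_comm]
    have h1 : algebraMap F[X] (LL f) a * (z * β ^ 2) * th f ^ (i : ℕ) * th f ^ (j : ℕ) =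
        (algebraMap F[X] (RatFunc F) a) • (z * β ^ 2 * th f ^ (i : ℕ) * th f ^ (j : ℕ)) := by
      rw [Algebra.smul_def, ← IsScalarTower.algebraMap_apply F[X] (RatFunc F) (LL f)]
      ring
    rw [h1, map_smul, smul_eq_mul]
  · have hdet : (Matrix.of fun i j : Ix g =>
        Bf hm z (β * th f ^ (i : ℕ)) (β * th f ^ (j : ℕ))).det =
        (-1) ^ g * Algebra.norm (RatFunc F) (z * β ^ 2) := by
      rw [← det_gram_pow_EVU hm hdeg]
      congr 1
      ext i j
      rw [Matrix.of_apply, Matrix.of_apply, hG]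
    obtain ⟨ν, hν⟩ := norm_algebraMap_EVU hm r
    obtain ⟨ν', hν'⟩ := norm_algebraMap_EVU hm s
    have hna : ∀ c : F[X], Algebra.norm (RatFunc F) (algebraMap F[X] (LL f) c) =
        algebraMap F[X] (RatFunc F) (c ^ (2 * g + 1)) := by
      intro c
      rw [IsScalarTower.algebraMap_apply F[X] (RatFunc F) (LL f), Algebra.norm_algebraMap, hn,
        map_pow]
    have h1 : ν * ν' = (a ^ (2 * g + 1)) ^ 2 := by
      apply IsFractionRing.injective F[X] (RatFunc F)
      rw [map_mul, ← hν, ← hν', ← map_mul, ← map_mul, hrs, map_pow,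
        ← IsScalarTower.algebraMap_apply F[X] (RR f) (LL f), map_pow, hna]
      simp only [map_pow]
    have hPr : Prime P.1 := P.2.2.prime
    have hPν : ¬ P.1 ∣ ν := by
      intro h
      have h2 : P.1 ∣ (a ^ (2 * g + 1)) ^ 2 := h1 ▸ Dvd.dvd.mul_right h ν'
      exact ha (hPr.dvd_of_dvd_pow (hPr.dvd_of_dvd_pow h2))
    have hPa : ¬ P.1 ∣ a ^ (2 * g + 1) := fun h => ha (hPr.dvd_of_dvd_pow h)
    have hν0 : red P ν ≠ 0 := by rwa [Ne, AdjoinRoot.mk_eq_zero]
    have ha0 : red P (a ^ (2 * g + 1)) ≠ 0 := by rwa [Ne, AdjoinRoot.mk_eq_zero]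
    have h3 : (Matrix.of fun i j : Ix g =>
        Bf hm z (β * th f ^ (i : ℕ)) (β * th f ^ (j : ℕ))).det *
        algebraMap F[X] (RatFunc F) (a ^ (2 * g + 1)) =
        algebraMap F[X] (RatFunc F) ((-1) ^ g * ν) := by
      rw [hdet, ← hna, mul_assoc, ← map_mul, mul_comm (z * β ^ 2), har, hν, map_mul, map_pow,
        map_neg, map_one]
    refine ⟨red P ((-1) ^ g * ν) / red P (a ^ (2 * g + 1)), ?_, (-1) ^ g * ν, a ^ (2 * g + 1),
      hPa, h3, ?_⟩
    · refine div_ne_zero ?_ ha0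
      rw [map_mul, map_pow, map_neg, map_one]
      exact mul_ne_zero (pow_ne_zero _ (neg_ne_zero.2 one_ne_zero)) hν0
    · rw [div_mul_cancel₀ _ ha0]

end Pool.Agent.Helper9.GTI
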