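import Pool.Agent.Helper9.GTI.St

set_option autoImplicit false

namespace Pool.Agent.Helper9.GTI

open Polynomial Finset
open Pool.Agent.Helper54.PT (Prm)

theorem hFAM (hGA : StGA) : StFAM := by
  intro F _ V _ _ B L hL hfin
  refine ⟨?_, ?_, ?_, hfin⟩
  · intro P x y hx hy
    obtain ⟨ι, _, E, hE⟩ := hL P
    rw [hE] at hx hy ⊢
    intro i
    rw [map_add, LinearMap.add_apply]
    exact (hGA F P).radd _ _ (hx i) (hy i)
  · intro P a x ha hx
    obtain ⟨ι, _, E, hE⟩ := hL P
    rw [hE] at hx ⊢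
    intro i
    rw [map_smul, LinearMap.smul_apply, smul_eq_mul]
    exact (hGA F P).rmul _ _ ha (hx i)
  · intro P x
    obtain ⟨ι, _, E, hE⟩ := hL P
    choose n hn using fun i => (hGA F P).rpow (B x (E i))
    refine ⟨Finset.univ.sup n, ?_⟩
    rw [hE]
    intro i
    rw [map_smul, LinearMap.smul_apply, smul_eq_mul]
    exact hn i _ (Finset.le_sup (Finset.mem_univ i))

end Pool.Agent.Helper9.GTI
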