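import Pool.Agent.Helper9.GTI.St

/-!
# GT, part ISOG: calculus of residues at a prime
-/

set_option autoImplicit false

namespace Pool.Agent.Helper9.GTI

open Polynomial Finset Matrix
open Pool.Agent.Helper54.PT (Prm prm IsAbsP IsAbsInf)
open Pool.Agent.Helper3.HY (fK RR LL kp red TwAt twGroup baseChange co tau Kfil Gm Ix IsFil InA Bf)

section GA

variable {F : Type} [Field F] {P : Prm F}

theorem inj_GA {a b : F[X]} (h : algebraMap F[X] (RatFunc F) a = algebraMap F[X] (RatFunc F) b) :
    a = b := RatFunc.algebraMap_injective F h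

theorem prime_GA (P : Prm F) : Prime P.1 := P.2.2.prime

theorem not_dvd_mul_GA {b b' : F[X]} (h : ¬ P.1 ∣ b) (h' : ¬ P.1 ∣ b') : ¬ P.1 ∣ b * b' :=
  fun hh => ((prime_GA P).dvd_or_dvd hh).elim h h'

theorem red_eq_zero_GA {a : F[X]} : red P a = 0 ↔ P.1 ∣ a := AdjoinRoot.mk_eq_zero

theorem red_ne_zero_GA {a : F[X]} (h : ¬ P.1 ∣ a) : red P a ≠ 0 := fun hh => h (red_eq_zero_GA.1 hh)

theorem dom_GA (P : Prm F) : IsDomain (kp P) := by
  haveI : Fact (Irreducible P.1) := ⟨P.2.2⟩
  infer_instance

theorem ofA_GA (a : F[X]) : ModP P (algebraMap F[X] (RatFunc F) a) (red P a) := by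
  refine ⟨a, 1, fun h => P.2.2.not_isUnit (isUnit_of_dvd_one h), ?_, ?_⟩
  · rw [map_one, mul_one]
  · rw [map_one, mul_one]

theorem add_GA {x y : RatFunc F} {s t : kp P} (hx : ModP P x s) (hy : ModP P y t) :
    ModP P (x + y) (s + t) := by
  obtain ⟨a, b, hb, h1, h2⟩ := hx
  obtain ⟨a', b', hb', h1', h2'⟩ := hy
  refine ⟨a * b' + a' * b, b * b', not_dvd_mul_GA hb hb', ?_, ?_⟩
  · simp only [map_add, map_mul]
    rw [← h1, ← h1']
    ring
  · simp only [map_add, map_mul]
    rw [h2, h2']
    ring

theorem mul_GA {x y : RatFunc F} {s t : kp P} (hx : ModP P x s) (hy : ModP P y t) :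
    ModP P (x * y) (s * t) := by
  obtain ⟨a, b, hb, h1, h2⟩ := hx
  obtain ⟨a', b', hb', h1', h2'⟩ := hy
  refine ⟨a * a', b * b', not_dvd_mul_GA hb hb', ?_, ?_⟩
  · simp only [map_mul]
    rw [← h1, ← h1']
    ring
  · simp only [map_mul]
    rw [h2, h2']
    ring

theorem neg_GA {x : RatFunc F} {s : kp P} (hx : ModP P x s) : ModP P (-x) (-s) := by
  obtain ⟨a, b, hb, h1, h2⟩ := hx
  refine ⟨-a, b, hb, ?_, ?_⟩
  · rw [map_neg, ← h1, neg_mul]
  · rw [map_neg, h2, neg_mul]

theorem zero_GA : ModP P (0 : RatFunc F) (0 : kp P) := by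
  have := ofA_GA (P := P) (0 : F[X])
  rwa [map_zero, map_zero] at this

theorem one_GA : ModP P (1 : RatFunc F) (1 : kp P) := by
  have := ofA_GA (P := P) (1 : F[X])
  rwa [map_one, map_one] at this

theorem sum_GA {ι : Type} (S : Finset ι) (x : ι → RatFunc F) (s : ι → kp P)
    (h : ∀ i ∈ S, ModP P (x i) (s i)) : ModP P (∑ i ∈ S, x i) (∑ i ∈ S, s i) := by
  classical
  induction S using Finset.induction_on with
  | empty =>
    rw [Finset.sum_empty, Finset.sum_empty]
    exact zero_GA
  | insert a S ha ih =>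
    rw [Finset.sum_insert ha, Finset.sum_insert ha]
    exact add_GA (h a (Finset.mem_insert_self _ _)) (ih fun i hi => h i (Finset.mem_insert_of_mem hi))

theorem prod_GA {ι : Type} (S : Finset ι) (x : ι → RatFunc F) (s : ι → kp P)
    (h : ∀ i ∈ S, ModP P (x i) (s i)) : ModP P (∏ i ∈ S, x i) (∏ i ∈ S, s i) := by
  classical
  induction S using Finset.induction_on with
  | empty =>
    rw [Finset.prod_empty, Finset.prod_empty]
    exact one_GA
  | insert a S ha ih =>
    rw [Finset.prod_insert ha, Finset.prod_insert ha]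
    exact mul_GA (h a (Finset.mem_insert_self _ _)) (ih fun i hi => h i (Finset.mem_insert_of_mem hi))

theorem regIff_GA (x : RatFunc F) : RegP P x ↔ ∃ s : kp P, ModP P x s := by
  haveI : Fact (Irreducible P.1) := ⟨P.2.2⟩
  constructor
  · rintro ⟨a, b, hb, h⟩
    refine ⟨red P a / red P b, a, b, hb, h, ?_⟩
    rw [div_mul_cancel₀ _ (red_ne_zero_GA hb)]
  · rintro ⟨s, a, b, hb, h, -⟩
    exact ⟨a, b, hb, h⟩

theorem rpow_GA (x : RatFunc F) : ∃ n : ℕ, ∀ m : ℕ, n ≤ m → RegP P (pK P ^ m * x) := by
  have hd : x.denom ≠ 0 := x.denom_ne_zero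
  have hf : FiniteMultiplicity P.1 x.denom :=
    finiteMultiplicity_of_degree_pos_of_monic (P.2.1.degree_pos_of_not_isUnit P.2.2.not_isUnit) P.2.1 hd
  obtain ⟨b, hb, hbn⟩ := hf.exists_eq_pow_mul_and_not_dvd
  refine ⟨multiplicity P.1 x.denom, fun m hm => ?_⟩
  obtain ⟨k, rfl⟩ := Nat.exists_eq_add_of_le hm
  refine ⟨P.1 ^ k * x.num, b, hbn, ?_⟩
  have h1 : x * algebraMap F[X] (RatFunc F) x.denom = algebraMap F[X] (RatFunc F) x.num := by
    have h2 : algebraMap F[X] (RatFunc F) x.denom ≠ 0 := by
      rw [Ne, map_eq_zero_iff _ (RatFunc.algebraMap_injective F)]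
      exact hd
    have h3 := RatFunc.num_div_denom x
    rw [div_eq_iff h2] at h3
    exact h3.symm
  rw [map_mul, map_pow, ← h1]
  conv_rhs => rw [hb, map_mul, map_pow]
  rw [pow_add]
  ring

/-- calculus of residues -/
theorem hGA : StGA := by
  intro F _ P
  haveI : Fact (Irreducible P.1) := ⟨P.2.2⟩
  have hP0 : pK P ≠ 0 := by
    rw [Ne, map_eq_zero_iff _ (RatFunc.algebraMap_injective F)]
    exact P.2.2.ne_zero
  exact
    { ofA := ofA_GA
      reg_iff := regIff_GA
      uniq := by
        rintro x s s' ⟨a, b, hb, h1, h2⟩ ⟨a', b', hb', h1', h2'⟩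
        have h3 : a * b' = a' * b := by
          apply inj_GA
          rw [map_mul, map_mul, ← h1, ← h1']
          ring
        have h4 : red P a * red P b' = red P a' * red P b := by
          rw [← map_mul, ← map_mul, h3]
        rw [h2, h2'] at h4
        have h5 : s * (red P b * red P b') = s' * (red P b * red P b') := by
          calc s * (red P b * red P b') = s * red P b * red P b' := by ring
            _ = s' * red P b' * red P b := h4
            _ = s' * (red P b * red P b') := by ring
        exact mul_right_cancel₀ (mul_ne_zero (red_ne_zero_GA hb) (red_ne_zero_GA hb')) h5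
      add := fun x y s t => add_GA
      neg := fun x s => neg_GA
      mul := fun x y s t => mul_GA
      inv := by
        rintro x s ⟨a, b, hb, h1, h2⟩ hs
        have ha : ¬ P.1 ∣ a := by
          intro h
          rw [← red_eq_zero_GA, h2] at h
          exact mul_ne_zero hs (red_ne_zero_GA hb) h
        have hx : x ≠ 0 := by
          rintro rfl
          rw [zero_mul] at h1
          apply ha
          have : a = 0 := inj_GA (by rw [← h1, map_zero])
          rw [this]
          exact dvd_zero _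
        refine ⟨hx, b, a, ha, ?_, ?_⟩
        · rw [← h1, ← mul_assoc, inv_mul_cancel₀ hx, one_mul]
        · rw [h2, ← mul_assoc, inv_mul_cancel₀ hs, one_mul]
      sum := fun ι S x s => sum_GA S x s
      det := by
        intro ι _ _ M m h
        rw [Matrix.det_apply, Matrix.det_apply]
        refine sum_GA _ _ _ fun σ _ => ?_
        have h1 : ModP P (∏ i, M (σ i) i) (∏ i, m (σ i) i) := prod_GA _ _ _ fun i _ => h _ _
        rcases Int.units_eq_one_or (Equiv.Perm.sign σ) with h2 | h2
        · rw [h2, one_smul, one_smul]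
          exact h1
        · rw [h2, Units.neg_smul, one_smul, Units.neg_smul, one_smul]
          exact neg_GA h1
      zero_iff := by
        intro x
        constructor
        · rintro ⟨a, b, hb, h1, h2⟩
          rw [zero_mul, red_eq_zero_GA] at h2
          obtain ⟨c, rfl⟩ := h2
          refine ⟨c, b, hb, ?_⟩
          rw [mul_assoc, h1, map_mul, ← mul_assoc, inv_mul_cancel₀ hP0, one_mul]
        · rintro ⟨a, b, hb, h⟩
          refine ⟨P.1 * a, b, hb, ?_, ?_⟩
          · rw [map_mul, ← h, ← mul_assoc, ← mul_assoc, mul_inv_cancel₀ hP0, one_mul]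
          · rw [zero_mul, red_eq_zero_GA]
            exact dvd_mul_right _ _
      radd := by
        intro x y hx hy
        rw [regIff_GA] at *
        obtain ⟨s, hs⟩ := hx
        obtain ⟨t, ht⟩ := hy
        exact ⟨_, add_GA hs ht⟩
      rneg := by
        intro x hx
        rw [regIff_GA] at *
        obtain ⟨s, hs⟩ := hx
        exact ⟨_, neg_GA hs⟩
      rmul := by
        intro x y hx hy
        rw [regIff_GA] at *
        obtain ⟨s, hs⟩ := hx
        obtain ⟨t, ht⟩ := hy
        exact ⟨_, mul_GA hs ht⟩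
      rsum := by
        intro ι S x h
        rw [regIff_GA]
        have h' : ∀ i, ∃ s : kp P, i ∈ S → ModP P (x i) s := by
          intro i
          by_cases hi : i ∈ S
          · obtain ⟨s, hs⟩ := (regIff_GA _).1 (h i hi)
            exact ⟨s, fun _ => hs⟩
          · exact ⟨0, fun h => absurd h hi⟩
        choose s hs using h'
        exact ⟨_, sum_GA S x s hs⟩
      rpow := rpow_GA }

end GA

end Pool.Agent.Helper9.GTI
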