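import Pool.Agent.Helper9.GTI.St
import Pool.Agent.Helper9.HYI.Orth
import Pool.Agent.Helper9.HYI.Res
import Pool.Agent.Helper3.HY.M_S1

/-!
# GT, part ISOG, module GB: approximation and duality
-/

set_option autoImplicit false

namespace Pool.Agent.Helper9.GTI

open Polynomial Finset Matrix
open Pool.Agent.Helper54.PT (Prm prm IsAbsP IsAbsInf)
open Pool.Agent.Helper3.HY (fK RR LL kp red TwAt twGroup baseChange co tau Kfil Gm Ix IsFil InA Bf)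
open Pool.Agent.Helper3.GT (Gd Bd UnitAt EvP facs RepG om ep SelS)
open Pool.Agent.Helper9.HYI (IsRes tL)

section GB

variable {F : Type} [Field F]

theorem regA_GB (Q : Prm F) (a : F[X]) : RegP Q (algebraMap F[X] (RatFunc F) a) :=
  ⟨a, 1, fun h => Q.2.2.not_isUnit (isUnit_of_dvd_one h), by rw [map_one, mul_one]⟩

theorem not_dvd_GB {P Q : Prm F} (h : Q ≠ P) : ¬ P.1 ∣ Q.1 := by
  intro hd
  have h1 : Associated P.1 Q.1 := P.2.2.associated_of_dvd Q.2.2 hd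
  exact h (Subtype.ext (eq_of_monic_of_associated P.2.1 Q.2.1 h1).symm)

variable {V : Type} [AddCommGroup V] [Module (RatFunc F) V]

/-- Clearing the denominators of `x` at a finite set of primes. -/
theorem clear_GB {L : Prm F → Set V} (hL : Fam L) (x : V) :
    ∃ a : F[X], a ≠ 0 ∧ (∀ P, x ∈ L P → ¬ P.1 ∣ a) ∧
      ∀ (b : F[X]) (Q : Prm F), algebraMap F[X] (RatFunc F) (b * a) • x ∈ L Q := by
  classical
  obtain ⟨n, hn⟩ : ∃ n : Prm F → ℕ, ∀ Q, pK Q ^ n Q • x ∈ L Q :=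
    ⟨fun Q => (hL.abs Q x).choose, fun Q => (hL.abs Q x).choose_spec⟩
  obtain ⟨T, hT⟩ : ∃ T : Finset (Prm F), ∀ Q, Q ∈ T ↔ x ∉ L Q :=
    ⟨(hL.fin x).toFinset, fun Q => by simp⟩
  refine ⟨∏ Q ∈ T, Q.1 ^ n Q, ?_, ?_, ?_⟩
  · exact Finset.prod_ne_zero_iff.2 fun Q _ => pow_ne_zero _ Q.2.2.ne_zero
  · intro P hP hd
    obtain ⟨Q, hQ, hQd⟩ := (P.2.2.prime.dvd_finsetProd_iff _).1 hd
    refine not_dvd_GB (P := P) (Q := Q) (fun h => ?_) (P.2.2.prime.dvd_of_dvd_pow hQd)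
    rw [hT, h] at hQ
    exact hQ hP
  · intro b Q
    by_cases hQ : Q ∈ T
    · rw [← Finset.prod_erase_mul T _ hQ, ← mul_assoc, map_mul, map_pow, mul_smul]
      exact hL.smul Q _ _ (regA_GB Q _) (hn Q)
    · rw [hT, not_not] at hQ
      exact hL.smul Q _ _ (regA_GB Q _) hQ

theorem approx_GB {L : Prm F → Set V} (hL : Fam L) (P : Prm F) (x : V) (hx : x ∈ L P) :
    ∃ a : F[X], red P a = 1 ∧ ∀ Q, algebraMap F[X] (RatFunc F) a • x ∈ L Q := by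
  obtain ⟨a, -, ha2, ha3⟩ := clear_GB hL x
  have h0 : red P a ≠ 0 := fun h => ha2 P hx (AdjoinRoot.mk_eq_zero.1 h)
  obtain ⟨b, hb⟩ := AdjoinRoot.mk_surjective (red P a)⁻¹
  refine ⟨b * a, ?_, ha3 b⟩
  rw [map_mul]
  have hb' : red P b = (red P a)⁻¹ := hb
  rw [hb', inv_mul_cancel₀ h0]

end GB

theorem hGB : StGB := by
  intro F _ V _ _ _ _ _ _ _ L hL
  refine ⟨fun P x hx => approx_GB hL P x hx, ?_⟩
  intro res hres Fil B hFil y₀ hy₀
  obtain ⟨M, hM⟩ : ∃ M : Submodule F[X] V, ∀ x, x ∈ M ↔ ∀ Q, x ∈ L Q :=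
    ⟨{ carrier := {x | ∀ Q, x ∈ L Q}
       add_mem' := fun {x y} hx hy Q => hL.add Q x y (hx Q) (hy Q)
       zero_mem' := fun Q => by
        obtain ⟨n, hn⟩ := hL.abs Q 0
        rwa [smul_zero] at hn
       smul_mem' := fun a x hx Q => by
        have h := hL.smul Q _ x (regA_GB Q a) (hx Q)
        rwa [algebraMap_smul] at h }, fun x => Iff.rfl⟩
  have hspan : ∀ x : V, ∃ a : F[X], a ≠ 0 ∧ a • x ∈ M := by
    intro x
    obtain ⟨a, ha1, -, ha3⟩ := clear_GB hL x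
    refine ⟨a, ha1, (hM _).2 fun Q => ?_⟩
    have h := ha3 1 Q
    rwa [one_mul, algebraMap_smul] at h
  obtain ⟨m, hm1, hm2⟩ := Pool.Agent.Helper9.HYI.core_Orth Pool.Agent.Helper9.HYI.hRes
    Pool.Agent.Helper3.HY.hS1 res hres M Fil B hFil hspan y₀
    (fun x hx hx' => hy₀ x ((hM x).1 hx) hx')
  refine ⟨m, fun Q x hx => ?_, hm2⟩
  obtain ⟨a, ha1, ha2⟩ := approx_GB hL Q x hx
  have hax : algebraMap F[X] (RatFunc F) a • x ∈ M := (hM _).2 ha2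
  obtain ⟨p, hp⟩ := hm1 _ hax
  rw [LinearMap.map_smul₂, smul_eq_mul] at hp
  refine ⟨p, a, fun h => ?_, by rw [mul_comm, hp]⟩
  rw [AdjoinRoot.mk_eq_zero.2 h] at ha1
  exact zero_ne_one ha1

end Pool.Agent.Helper9.GTI
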