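import Pool.Agent.Helper9.GTI.M_GU

/-!
# GT, part ISOG, module GC: the lattice at the bad place `P`
-/

set_option autoImplicit false

namespace Pool.Agent.Helper9.GTI

open Polynomial Finset Matrix
open Pool.Agent.Helper54.PT (Prm prm IsAbsP IsAbsInf)
open Pool.Agent.Helper3.HY (fK RR LL kp red TwAt twGroup baseChange co tau Kfil Gm Ix IsFil InA Bf)

theorem pK_ne_GC {F : Type} [Field F] (P : Prm F) : pK P ≠ 0 := by
  intro h
  have h1 : P.1 = 0 := (map_eq_zero_iff _ (RatFunc.algebraMap_injective F)).1 h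
  exact P.2.2.ne_zero h1

theorem red_surj_GC {F : Type} [Field F] (P : Prm F) (s : kp P) : ∃ a : F[X], red P a = s := by
  obtain ⟨a, ha⟩ := AdjoinRoot.mk_surjective (g := P.1) s
  exact ⟨a, ha⟩

theorem hGC (hGA : StGA) : StGC := by
  intro F _ V _ _ _ P B ι₀ ι₁ _ _ _ _ E u hsymm hcard hB
  have hA : ArP P := hGA F P
  set p : RatFunc F := pK P with hp
  have hp0 : p ≠ 0 := pK_ne_GC P
  have hpr : RegP P p := by rw [hp]; exact regP_alg_GU hA _
  obtain ⟨s, hs, hdet0⟩ := hB.det0
  -- the scaled Gram matrix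
  let D : ι₀ ⊕ ι₁ → RatFunc F := Sum.elim (fun _ => 1) (fun _ => p⁻¹)
  let φ : ι₀ ⊕ ι₁ → V →ₗ[RatFunc F] RatFunc F := fun j => D j • B.flip (E j)
  have hφ : ∀ (j : ι₀ ⊕ ι₁) (x : V), φ j x = D j * B x (E j) := fun j x => rfl
  let H : Matrix (ι₀ ⊕ ι₁) (ι₀ ⊕ ι₁) (RatFunc F) := Matrix.of fun i j => φ j (E i)
  have hH0 : ∀ (i : ι₀ ⊕ ι₁) (j : ι₀), H i (Sum.inl j) = B (E i) (E (Sum.inl j)) := by
    intro i j
    change (1 : RatFunc F) * _ = _
    rw [one_mul]
    rfl
  have hH1 : ∀ (i : ι₀ ⊕ ι₁) (j : ι₁), H i (Sum.inr j) = p⁻¹ * B (E i) (E (Sum.inr j)) := by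
    intro i j
    rfl
  have hreg : ∀ i j, RegP P (H i j) := by
    intro i j
    rcases j with j | j
    · rw [hH0]; exact hB.reg i _
    · rw [hH1, hsymm]; exact hB.reg1 j i
  have hres : ∀ i j, ∃ t : kp P, ModP P (H i j) t := fun i j => (hA.reg_iff _).1 (hreg i j)
  choose h hh using hres
  have hz : ∀ (i : ι₁) (j : ι₀), h (Sum.inr i) (Sum.inl j) = 0 := by
    intro i j
    refine hA.uniq _ _ _ (hh _ _) ?_
    rw [hA.zero_iff, hH0]
    exact hB.reg1 i _
  have hu : ∀ i j : ι₁, h (Sum.inr i) (Sum.inr j) = u i j := by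
    intro i j
    refine hA.uniq _ _ _ (hh _ _) ?_
    rw [hH1]
    exact hB.res1 i j
  have hs0 : (Matrix.of fun i j : ι₀ => h (Sum.inl i) (Sum.inl j)).det = s := by
    refine hA.uniq _ _ _ (hA.det ι₀ (Matrix.of fun i j : ι₀ => B (E (Sum.inl i)) (E (Sum.inl j))) _
      fun i j => ?_) hdet0
    have h1 := hh (Sum.inl i) (Sum.inl j)
    rw [hH0] at h1
    exact h1
  have hdh : (Matrix.of h).det = s * u.det := by
    have h1 : Matrix.of h = Matrix.fromBlocks
        (Matrix.of fun i j : ι₀ => h (Sum.inl i) (Sum.inl j))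
        (Matrix.of fun (i : ι₀) (j : ι₁) => h (Sum.inl i) (Sum.inr j)) 0 u := by
      ext i j
      rcases i with i | i <;> rcases j with j | j
      · rfl
      · rfl
      · exact hz i j
      · exact hu i j
    rw [h1, Matrix.det_fromBlocks_zero₂₁, hs0]
  have hdH : ModP P H.det (s * u.det) := by
    rw [← hdh]
    exact hA.det _ H (Matrix.of h) hh
  have hne : s * u.det ≠ 0 := mul_ne_zero hs hB.det1
  have hdet : H.det ≠ 0 := (hA.inv _ _ hdH hne).1
  refine ⟨?_, ?_⟩
  · intro i j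
    rw [map_smul, LinearMap.smul_apply, smul_eq_mul]
    exact hB.reg1 i j
  · intro x hx
    have hr : ∀ j : ι₁, ∃ t : kp P, ModP P (B x (E (Sum.inr j))) t := fun j =>
      (hA.reg_iff _).1 (hx (Sum.inr j))
    choose r hr using hr
    have hc : ∀ i : ι₁, ∃ a : F[X], red P a = (r ᵥ* u⁻¹) i := fun i => red_surj_GC P _
    choose c hc using hc
    refine ⟨c, ?_⟩
    set x' := x - ∑ i, algebraMap F[X] (RatFunc F) (c i) • p⁻¹ • E (Sum.inr i) with hx'
    have hB' : ∀ y, B x' y = B x y - ∑ i, algebraMap F[X] (RatFunc F) (c i) *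
        (p⁻¹ * B (E (Sum.inr i)) y) := by
      intro y
      rw [hx']
      simp only [map_sub, map_sum, map_smul, LinearMap.sub_apply, LinearMap.sum_apply,
        LinearMap.smul_apply, smul_eq_mul]
    have h0 : ∀ j, RegP P (φ j x') := by
      intro j
      rw [hφ, hB']
      rcases j with j | j
      · change RegP P (1 * _)
        rw [one_mul, sub_eq_add_neg]
        refine hA.radd _ _ (hx _) (hA.rneg _ (hA.rsum _ _ _ fun i _ => ?_))
        exact hA.rmul _ _ (regP_alg_GU hA _) (hB.reg1 i _)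
      · change RegP P (p⁻¹ * _)
        rw [← hA.zero_iff]
        have h1 : (r j + -(∑ i, red P (c i) * u i j)) = 0 := by
          have h2 : (r ᵥ* u⁻¹) ᵥ* u = r := by
            rw [Matrix.vecMul_vecMul, Matrix.nonsing_inv_mul _ (isUnit_iff_ne_zero.2 hB.det1),
              Matrix.vecMul_one]
          have h3 : ∑ i, red P (c i) * u i j = r j := by
            have h4 := congrFun h2 j
            rw [← h4]
            simp only [hc]
            rfl
          rw [h3, add_neg_cancel]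
        rw [← h1, sub_eq_add_neg]
        refine hA.add _ _ _ _ (hr j) (hA.neg _ _ (hA.sum _ _ _ _ fun i _ => ?_))
        exact hA.mul _ _ _ _ (hA.ofA _) (hB.res1 i j)
    obtain ⟨a, ha⟩ := span_GU E φ hcard hdet x'
    have h2 : ∀ j, RegP P (∑ i, a i * H i j) := by
      intro j
      have h3 := h0 j
      rw [ha, map_sum] at h3
      simp only [map_smul, smul_eq_mul] at h3
      exact h3
    have h4 := regP_sol_GU hA H hreg hne hdH a h2
    intro y hy
    have h5 : B x' y = ∑ i, a i * B y (E i) := by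
      conv_lhs => rw [ha]
      simp only [map_sum, map_smul, LinearMap.sum_apply, LinearMap.smul_apply, smul_eq_mul]
      exact Finset.sum_congr rfl fun i _ => by rw [hsymm y (E i)]
    rw [h5]
    exact hA.rsum _ _ _ fun i _ => hA.rmul _ _ (h4 i) (hy i)

end Pool.Agent.Helper9.GTI
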