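import Pool.Agent.Helper9.GTI.St

/-!
# GT, part ISOG: module GD1 (global representatives)
-/

set_option autoImplicit false

namespace Pool.Agent.Helper9.GTI

open Polynomial Finset Matrix
open Pool.Agent.Helper54.PT (Prm prm IsAbsP IsAbsInf)
open Pool.Agent.Helper3.HY (fK RR LL kp red TwAt twGroup baseChange co tau Kfil Gm Ix IsFil InA Bf)

private theorem regA_GD1 {F : Type} [Field F] {P : Prm F} (hA : ArP P) (a : F[X]) :
    RegP P (algebraMap F[X] (RatFunc F) a) :=
  (hA.reg_iff _).2 ⟨_, hA.ofA a⟩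

private theorem pK_ne_GD1 {F : Type} [Field F] (P : Prm F) : pK P ≠ 0 := by
  intro h
  have h1 : P.1 = 0 := by
    have := (RatFunc.algebraMap_injective F)
    apply this
    rw [map_zero]
    exact h
  exact P.2.1.ne_zero h1

theorem hGD1 (hGA : StGA) (hGG : StGG) (hGC : StGC) (hGB : StGB) : StGD1 := by
  intro F _ V _ _ _ _ _ _ _ P B ι₀ ι₁ _ _ _ _ E u hsym hcard hblk L hfam hLP hdual
  obtain ⟨hx, -⟩ := hGC F V P B ι₀ ι₁ E u hsym hcard hblk
  have hA : ArP P := hGA F P
  have hg : ∀ i : ι₁, ∃ b : F[X], red P b = 1 ∧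
      ∀ Q, algebraMap F[X] (RatFunc F) b • (pK P)⁻¹ • E (Sum.inr i) ∈ L Q := fun i =>
    (hGB F V L hfam).1 P _ (by rw [hLP]; exact hx i)
  choose b hb1 hb2 using hg
  set Y : ι₁ → V := fun i => algebraMap F[X] (RatFunc F) (b i) • (pK P)⁻¹ • E (Sum.inr i) with hY
  have hp := pK_ne_GD1 P
  -- the product
  have hprod : ∀ i j, pK P * B (Y i) (Y j) =
      algebraMap F[X] (RatFunc F) (b i) * algebraMap F[X] (RatFunc F) (b j) *
        ((pK P)⁻¹ * B (E (Sum.inr i)) (E (Sum.inr j))) := by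
    intro i j
    simp only [hY, map_smul, LinearMap.smul_apply, smul_eq_mul]
    field_simp
  have hmod : ∀ i j, ModP P (pK P * B (Y i) (Y j)) (u i j) := by
    intro i j
    rw [hprod]
    have h1 := hA.mul _ _ _ _ (hA.mul _ _ _ _ (hA.ofA (b i)) (hA.ofA (b j))) (hblk.res1 i j)
    rw [hb1, hb1, one_mul, one_mul] at h1
    exact h1
  have hInA : ∀ i j, InA (pK P * B (Y i) (Y j)) := by
    intro i j
    apply (hGG F).1
    intro Q
    by_cases hQ : Q = P
    · subst hQ
      exact (hA.reg_iff _).2 ⟨_, hmod i j⟩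
    · have h1 : RegP Q (B (Y i) (Y j)) := (hdual Q hQ (Y j)).1 (hb2 j Q) (Y i) (hb2 i Q)
      exact (hGA F Q).rmul _ _ (regA_GD1 (hGA F Q) P.1) h1
  choose c hc using hInA
  refine ⟨Y, c, hb2, ?_, hc, ?_⟩
  · intro i y hy
    have h1 : P.1 ∣ b i - 1 := by
      rw [← AdjoinRoot.mk_eq_zero, map_sub, map_one, sub_eq_zero]
      exact hb1 i
    obtain ⟨q, hq⟩ := h1
    have h2 : Y i - (pK P)⁻¹ • E (Sum.inr i) = algebraMap F[X] (RatFunc F) q • E (Sum.inr i) := by
      have h3 : algebraMap F[X] (RatFunc F) (b i) = pK P * algebraMap F[X] (RatFunc F) q + 1 := by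
        have : b i = P.1 * q + 1 := by rw [← hq]; ring
        rw [this, map_add, map_mul, map_one]
      simp only [hY]
      rw [h3, add_smul, one_smul, add_sub_cancel_right, smul_smul]
      congr 1
      field_simp
    rw [h2, map_smul, LinearMap.smul_apply, smul_eq_mul]
    refine hA.rmul _ _ (regA_GD1 hA q) ?_
    rw [hsym]
    rw [hLP] at hy
    exact hy (Sum.inr i)
  · intro i j
    apply hA.uniq _ _ _ (hA.ofA (c i j))
    rw [← hc]
    exact hmod i j

end Pool.Agent.Helper9.GTI
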