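import Pool.Agent.Helper9.GTI.St

set_option autoImplicit false

namespace Pool.Agent.Helper9.GTI

open Polynomial Finset Matrix
open Pool.Agent.Helper54.PT (Prm prm IsAbsP IsAbsInf)
open Pool.Agent.Helper3.HY (fK RR LL kp red TwAt twGroup baseChange co tau Kfil Gm Ix IsFil InA Bf)
open Pool.Agent.Helper3.GT (Gd Bd UnitAt EvP facs RepG om ep SelS)
open Pool.Agent.Helper9.HYI (IsRes tL)

section aux

variable {F : Type} [Field F] {V : Type} [AddCommGroup V] [Module (RatFunc F) V]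

private theorem regA_GD2 (hGA : StGA) (P : Prm F) (a : F[X]) :
    RegP P (algebraMap F[X] (RatFunc F) a) :=
  ((hGA F P).reg_iff _).2 ⟨_, (hGA F P).ofA a⟩

private theorem L_zero_GD2 {L : Prm F → Set V} (hL : Fam L) (Q : Prm F) :
    (0 : V) ∈ L Q := by
  obtain ⟨n, hn⟩ := hL.abs Q 0
  rwa [smul_zero] at hn

private theorem L_A_GD2 (hGA : StGA) {L : Prm F → Set V} (hL : Fam L) {x : V}
    (hx : ∀ Q, x ∈ L Q) (a : F[X]) : ∀ Q, algebraMap F[X] (RatFunc F) a • x ∈ L Q := fun Q =>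
  hL.smul Q _ x (regA_GD2 hGA Q a) (hx Q)

private theorem L_neg_GD2 (hGA : StGA) {L : Prm F → Set V} (hL : Fam L) {Q : Prm F} {x : V}
    (hx : x ∈ L Q) : -x ∈ L Q := by
  have h := hL.smul Q _ x (regA_GD2 hGA Q (-1)) hx
  rwa [map_neg, map_one, neg_smul, one_smul] at h

private theorem L_sum_GD2 {L : Prm F → Set V} (hL : Fam L) {ι : Type}
    (S : Finset ι) (x : ι → V) (Q : Prm F) (hx : ∀ i ∈ S, x i ∈ L Q) : ∑ i ∈ S, x i ∈ L Q := by
  classical
  induction S using Finset.induction with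
  | empty => rw [Finset.sum_empty]; exact L_zero_GD2 hL Q
  | insert i S hi ih =>
    rw [Finset.sum_insert hi]
    exact hL.add Q _ _ (hx i (Finset.mem_insert_self i S))
      (ih fun j hj => hx j (Finset.mem_insert_of_mem hj))

/-- The dual of the family. -/
private def Nn_GD2 (B : LinearMap.BilinForm (RatFunc F) V) (L : Prm F → Set V) : Set V :=
  {y | ∀ Q, ∀ x ∈ L Q, RegP Q (B x y)}

private theorem N_add_GD2 (hGA : StGA) {B : LinearMap.BilinForm (RatFunc F) V}
    {L : Prm F → Set V} {y z : V} (hy : y ∈ Nn_GD2 B L) (hz : z ∈ Nn_GD2 B L) :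
    y + z ∈ Nn_GD2 B L := by
  intro Q x hx
  rw [map_add]
  exact (hGA F Q).radd _ _ (hy Q x hx) (hz Q x hx)

private theorem N_A_GD2 (hGA : StGA) {B : LinearMap.BilinForm (RatFunc F) V}
    {L : Prm F → Set V} {y : V} (hy : y ∈ Nn_GD2 B L) (a : F[X]) :
    algebraMap F[X] (RatFunc F) a • y ∈ Nn_GD2 B L := by
  intro Q x hx
  rw [map_smul, smul_eq_mul]
  exact (hGA F Q).rmul _ _ (regA_GD2 hGA Q a) (hy Q x hx)

private theorem N_neg_GD2 (hGA : StGA) {B : LinearMap.BilinForm (RatFunc F) V}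
    {L : Prm F → Set V} {y : V} (hy : y ∈ Nn_GD2 B L) : -y ∈ Nn_GD2 B L := by
  have h := N_A_GD2 hGA hy (-1)
  rwa [map_neg, map_one, neg_smul, one_smul] at h

private theorem N_zero_GD2 (hGA : StGA) {B : LinearMap.BilinForm (RatFunc F) V}
    {L : Prm F → Set V} : (0 : V) ∈ Nn_GD2 B L := by
  intro Q x _
  rw [map_zero]
  have := regA_GD2 hGA Q (0 : F[X])
  rwa [map_zero] at this

end aux

theorem hGD2 (hGA : StGA) (hGG : StGG) (hGC : StGC) (hGB : StGB) : StGD2 := by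
  intro F _ V _ _ _ _ _ _ _ P B ι₀ ι₁ _ _ _ _ E u hcard hBlk L hL hLP hself Y hYL hYE res hres
    Fil hFil
  have hsymm := hFil.symm
  -- scalars
  have hFs : ∀ (c : F) (v : V), c • v = algebraMap F[X] (RatFunc F) (C c) • v := by
    intro c v
    have h1 : algebraMap F[X] (RatFunc F) (C c) = algebraMap F (RatFunc F) c := by
      rw [RatFunc.algebraMap_C]
      rfl
    rw [h1, algebraMap_smul]
  have hBs : ∀ (c : F) (v w : V), B (c • v) w = c • B v w := by
    intro c v w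
    have h1 : c • v = algebraMap F (RatFunc F) c • v := (algebraMap_smul (RatFunc F) c v).symm
    rw [h1, map_smul, LinearMap.smul_apply, algebraMap_smul]
  have hBs' : ∀ (c : F) (v w : V), B v (c • w) = c • B v w := by
    intro c v w
    rw [hsymm, hBs, hsymm]
  -- the map `Z`
  obtain ⟨Z, hZ⟩ : ∃ Z : (Fin P.1.natDegree × ι₁ → F) →ₗ[F] V, ∀ y, Z y =
      ∑ a : Fin P.1.natDegree × ι₁, y a • ((RatFunc.X : RatFunc F) ^ (a.1 : ℕ) • Y a.2) :=
    ⟨Fintype.linearCombination F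
      (fun a : Fin P.1.natDegree × ι₁ => (RatFunc.X : RatFunc F) ^ (a.1 : ℕ) • Y a.2),
      fun y => Fintype.linearCombination_apply F _ _⟩
  have hXp : ∀ k : ℕ, (RatFunc.X : RatFunc F) ^ k = algebraMap F[X] (RatFunc F) (X ^ k) := by
    intro k
    rw [map_pow, RatFunc.algebraMap_X]
  have hZD : ∀ y Q, Z y ∈ L Q := by
    intro y Q
    rw [hZ]
    refine L_sum_GD2 hL _ _ Q fun a _ => ?_
    rw [hFs, hXp]
    exact L_A_GD2 hGA hL (L_A_GD2 hGA hL (hYL a.2) _) _ Q
  have hpair : ∀ x y : Fin P.1.natDegree × ι₁ → F,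
      x ⬝ᵥ ((Matrix.of fun a b : Fin P.1.natDegree × ι₁ =>
        res (RatFunc.X ^ ((a.1 : ℕ) + (b.1 : ℕ)) * B (Y a.2) (Y b.2))) *ᵥ y) =
      res (B (Z x) (Z y)) := by
    intro x y
    have e0 : B (Z x) (Z y) = ∑ a : Fin P.1.natDegree × ι₁, ∑ b : Fin P.1.natDegree × ι₁,
        x a • y b • ((RatFunc.X : RatFunc F) ^ ((a.1 : ℕ) + (b.1 : ℕ)) * B (Y a.2) (Y b.2)) := by
      rw [hZ x, map_sum, LinearMap.sum_apply]
      refine Finset.sum_congr rfl fun a _ => ?_
      rw [hZ y, map_sum]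
      refine Finset.sum_congr rfl fun b _ => ?_
      rw [hBs, hBs', map_smul B, LinearMap.smul_apply, map_smul, smul_eq_mul, smul_eq_mul,
        pow_add, mul_assoc]
    rw [e0, map_sum]
    simp only [dotProduct, mulVec, Finset.mul_sum, Matrix.of_apply]
    refine Finset.sum_congr rfl fun a _ => ?_
    rw [map_sum]
    refine Finset.sum_congr rfl fun b _ => ?_
    rw [res.map_smul, res.map_smul, smul_eq_mul, smul_eq_mul, mul_comm (res _) (y b)]
  -- `N ⊆ D`
  have hND : ∀ y ∈ Nn_GD2 B L, ∀ Q, y ∈ L Q := by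
    intro y hy Q
    by_cases hQ : Q = P
    · subst hQ
      rw [hLP]
      intro i
      rw [hsymm]
      refine hy Q _ ?_
      rw [hLP]
      intro j
      exact hBlk.reg i j
    · exact (hself Q hQ y).2 (hy Q)
  have hDN : ∀ x y : V, (∀ Q, x ∈ L Q) → y ∈ Nn_GD2 B L → res (B x y) = 0 := by
    intro x y hx hy
    obtain ⟨p, hp⟩ := (hGG F).1 (B x y) fun Q => hy Q x (hx Q)
    rw [hp, hres.poly]
  obtain ⟨Λ, hΛ⟩ : ∃ Λ : Submodule F (Fin P.1.natDegree × ι₁ → F), ∀ y, y ∈ Λ ↔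
      ∃ n ∈ Nn_GD2 B L, Z y - n ∈ Fil (-1) := by
    refine ⟨⟨⟨⟨{y | ∃ n ∈ Nn_GD2 B L, Z y - n ∈ Fil (-1)}, ?_⟩, ?_⟩, ?_⟩, fun y => Iff.rfl⟩
    · rintro a b ⟨n, hn, h⟩ ⟨n', hn', h'⟩
      refine ⟨n + n', N_add_GD2 hGA hn hn', ?_⟩
      rw [map_add, add_sub_add_comm]
      exact (Fil (-1)).add_mem h h'
    · refine ⟨0, N_zero_GD2 hGA, ?_⟩
      rw [map_zero, sub_zero]
      exact (Fil (-1)).zero_mem
    · rintro c a ⟨n, hn, h⟩
      refine ⟨c • n, ?_, ?_⟩
      · rw [hFs]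
        exact N_A_GD2 hGA hn _
      · rw [map_smul, ← smul_sub]
        exact (Fil (-1)).smul_mem c h
  refine ⟨Λ, fun y => ?_⟩
  simp only [hpair]
  constructor
  · -- isotropic
    intro hy x hx
    obtain ⟨n, hn, hφ⟩ := (hΛ x).1 hx
    obtain ⟨n', hn', hφ'⟩ := (hΛ y).1 hy
    have e1 : B (Z x) (Z y) = B (Z x) n' + B (Z y) n - B n n' + B (Z x - n) (Z y - n') := by
      simp only [map_sub, LinearMap.sub_apply]
      rw [hsymm (Z y) n]
      ring
    have e2 : res (B (Z x - n) (Z y - n')) = 0 := by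
      refine hres.fil _ ?_
      exact hFil.bound (-1) (-1) _ _ hφ hφ'
    rw [e1, map_add, map_sub, map_add, hDN _ _ (hZD x) hn', hDN _ _ (hZD y) hn,
      hDN _ _ (hND n hn) hn', e2]
    simp
  · -- maximal
    intro hmax
    rw [hΛ]
    refine (hGB F V L hL).2 res hres Fil B hFil (Z y) fun x' hx'D hx'F => ?_
    have hx'P : x' ∈ Dl P B E := hLP ▸ hx'D P
    obtain ⟨c, hc⟩ := (hGC F V P B ι₀ ι₁ E u hsymm hcard hBlk).2 x' hx'P
    -- the remainders
    obtain ⟨x, hx⟩ : ∃ x : Fin P.1.natDegree × ι₁ → F, ∀ a, x a =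
        (c a.2 %ₘ P.1).coeff (a.1 : ℕ) := ⟨fun a => (c a.2 %ₘ P.1).coeff (a.1 : ℕ), fun _ => rfl⟩
    have hPd : 0 < P.1.natDegree := P.2.2.natDegree_pos
    have hZx : Z x = ∑ i, algebraMap F[X] (RatFunc F) (c i %ₘ P.1) • Y i := by
      rw [hZ, Fintype.sum_prod_type, Finset.sum_comm]
      refine Finset.sum_congr rfl fun i _ => ?_
      have hdeg : (c i %ₘ P.1).natDegree < P.1.natDegree :=
        natDegree_modByMonic_lt _ P.2.1 (fun h => by rw [h] at hPd; simp at hPd)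
      conv_rhs => rw [(c i %ₘ P.1).as_sum_range' _ hdeg, map_sum, Finset.sum_smul]
      rw [Finset.sum_range]
      refine Finset.sum_congr rfl fun k _ => ?_
      rw [hx, hFs, smul_smul, hXp, ← map_mul, C_mul_X_pow_eq_monomial]
    -- `x' - Z x` pairs regularly with `L P`
    have hP : ∀ z ∈ L P, RegP P (B (x' - Z x) z) := by
      intro z hz
      have e1 : x' - Z x = (x' - ∑ i, algebraMap F[X] (RatFunc F) (c i) •
          (pK P)⁻¹ • E (Sum.inr i)) + ∑ i, (algebraMap F[X] (RatFunc F) (c i /ₘ P.1) •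
            E (Sum.inr i) + algebraMap F[X] (RatFunc F) (-(c i %ₘ P.1)) •
              (Y i - (pK P)⁻¹ • E (Sum.inr i))) := by
        rw [hZx]
        have hp0 : pK P ≠ 0 := by
          intro h
          exact P.2.2.ne_zero ((map_eq_zero_iff _ (RatFunc.algebraMap_injective F)).1 h)
        have e2 : ∀ i, algebraMap F[X] (RatFunc F) (c i) • (pK P)⁻¹ • E (Sum.inr i) =
            algebraMap F[X] (RatFunc F) (c i /ₘ P.1) • E (Sum.inr i) +
            algebraMap F[X] (RatFunc F) (c i %ₘ P.1) • (pK P)⁻¹ • E (Sum.inr i) := by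
          intro i
          conv_lhs => rw [← modByMonic_add_div (c i) P.1]
          rw [map_add, map_mul, add_smul, add_comm, smul_smul, mul_right_comm,
            mul_inv_cancel₀ hp0, one_mul]
        have e3 : ∀ i, algebraMap F[X] (RatFunc F) (c i /ₘ P.1) • E (Sum.inr i) +
            algebraMap F[X] (RatFunc F) (-(c i %ₘ P.1)) • (Y i - (pK P)⁻¹ • E (Sum.inr i)) =
            algebraMap F[X] (RatFunc F) (c i) • (pK P)⁻¹ • E (Sum.inr i) -
              algebraMap F[X] (RatFunc F) (c i %ₘ P.1) • Y i := by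
          intro i
          rw [e2, map_neg, neg_smul, smul_sub]
          abel
        rw [Finset.sum_congr rfl fun i _ => e3 i, Finset.sum_sub_distrib]
        abel
      rw [e1, map_add, LinearMap.add_apply, map_sum, LinearMap.sum_apply]
      refine (hGA F P).radd _ _ (hc z (hLP ▸ hz)) ((hGA F P).rsum _ _ _ fun i _ => ?_)
      rw [map_add, LinearMap.add_apply, map_smul, map_smul, LinearMap.smul_apply,
        LinearMap.smul_apply, smul_eq_mul, smul_eq_mul]
      refine (hGA F P).radd _ _ ((hGA F P).rmul _ _ (regA_GD2 hGA P _) ?_)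
        ((hGA F P).rmul _ _ (regA_GD2 hGA P _) (hYE i z hz))
      rw [hsymm]
      have hz' : z ∈ Dl P B E := hLP ▸ hz
      exact hz' (Sum.inr i)
    have hn : x' - Z x ∈ Nn_GD2 B L := by
      intro Q z hz
      by_cases hQ : Q = P
      · subst hQ
        rw [hsymm]
        exact hP z hz
      · refine (hself Q hQ _).1 ?_ z hz
        rw [sub_eq_add_neg]
        exact hL.add Q _ _ (hx'D Q) (L_neg_GD2 hGA hL (hZD x Q))
    have hxΛ : x ∈ Λ := by
      rw [hΛ]
      refine ⟨-(x' - Z x), N_neg_GD2 hGA hn, ?_⟩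
      rw [sub_neg_eq_add, add_sub_cancel]
      exact hx'F
    have e4 : B x' (Z y) = B (Z x) (Z y) + B (Z y) (x' - Z x) := by
      rw [hsymm (Z y), ← LinearMap.add_apply, ← map_add, add_sub_cancel]
    rw [e4, map_add, hmax x hxΛ, hDN _ _ (hZD y) hn, add_zero]

end Pool.Agent.Helper9.GTI

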