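import Pool.Agent.Helper9.GTI.St

/-!
# GT, part ISOG, module GG: regular elements
-/

set_option autoImplicit false

namespace Pool.Agent.Helper9.GTI

open Polynomial Finset Matrix
open Pool.Agent.Helper54.PT (Prm prm IsAbsP IsAbsInf)
open Pool.Agent.Helper3.HY (fK RR LL kp red TwAt twGroup baseChange co tau Kfil Gm Ix IsFil InA Bf)

section GG

variable {F : Type} [Field F]

/-- Finitely many primes divide a nonzero polynomial. -/
theorem fin_GG {d : F[X]} (hd : d ≠ 0) : {P : Prm F | P.1 ∣ d}.Finite := by
  classical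
  have h1 : ({p : F[X] | p ∈ UniqueFactorizationMonoid.normalizedFactors d}).Finite :=
    (UniqueFactorizationMonoid.normalizedFactors d).toFinset.finite_toSet.subset
      (fun p hp => Finset.mem_coe.2 (Multiset.mem_toFinset.2 hp))
  have h2 : Set.InjOn (fun P : Prm F => P.1) ((fun P : Prm F => P.1) ⁻¹'
      {p : F[X] | p ∈ UniqueFactorizationMonoid.normalizedFactors d}) := by
    intro P _ Q _ h
    exact Subtype.ext h
  refine (h1.preimage h2).subset ?_
  intro P hP
  show P.1 ∈ UniqueFactorizationMonoid.normalizedFactors d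
  rw [UniqueFactorizationMonoid.mem_normalizedFactors_iff' hd]
  exact ⟨P.2.2, P.2.1.normalize_eq_self, hP⟩

theorem num_GG (x : RatFunc F) :
    x * algebraMap F[X] (RatFunc F) x.denom = algebraMap F[X] (RatFunc F) x.num := by
  have h := RatFunc.num_div_denom x
  have h2 : algebraMap F[X] (RatFunc F) x.denom ≠ 0 := by
    rw [Ne, FaithfulSMul.algebraMap_eq_zero_iff]
    exact x.denom_ne_zero
  calc x * algebraMap F[X] (RatFunc F) x.denom
      = algebraMap F[X] (RatFunc F) x.num / algebraMap F[X] (RatFunc F) x.denom *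
        algebraMap F[X] (RatFunc F) x.denom := by rw [h]
    _ = _ := div_mul_cancel₀ _ h2

end GG

theorem hGG : StGG := by
  intro F _
  refine ⟨?_, ?_, ?_⟩
  · intro x hx
    have hden : x.denom = 1 := by
      by_contra hne
      have hu : ¬ IsUnit x.denom := fun h => hne (x.monic_denom.eq_one_of_isUnit h)
      obtain ⟨p, hp1, hp2, hp3⟩ := Polynomial.exists_monic_irreducible_factor x.denom hu
      obtain ⟨a, b, hb, hab⟩ := hx ⟨p, hp1, hp2⟩
      have hb' : ¬ p ∣ b := hb
      have h1 := num_GG x
      have h2 : algebraMap F[X] (RatFunc F) (x.num * b) =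
          algebraMap F[X] (RatFunc F) (a * x.denom) := by
        rw [map_mul, map_mul, ← h1, ← hab]
        ring
      have h3 : x.num * b = a * x.denom := IsFractionRing.injective F[X] (RatFunc F) h2
      have h4 : p ∣ x.num * b := by
        rw [h3]
        exact Dvd.dvd.mul_left hp3 a
      rcases hp2.prime.dvd_or_dvd h4 with h5 | h5
      · exact hp2.not_isUnit ((RatFunc.isCoprime_num_denom x).isUnit_of_dvd' h5 hp3)
      · exact hb' h5
    refine ⟨x.num, ?_⟩
    have h1 := num_GG x
    rw [hden, map_one, mul_one] at h1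
    exact h1
  · intro x
    refine (fin_GG x.denom_ne_zero).subset ?_
    intro P hP
    by_contra h
    exact hP ⟨x.num, x.denom, h, num_GG x⟩
  · intro x hx
    have hnum : x.num ≠ 0 := by
      rw [Ne, RatFunc.num_eq_zero_iff]
      exact hx
    refine ((fin_GG hnum).union (fin_GG x.denom_ne_zero)).subset ?_
    intro P hP
    by_contra h
    rw [Set.mem_union, not_or] at h
    obtain ⟨h1, h2⟩ := h
    have hr : ∀ a : F[X], ¬ P.1 ∣ a → red P a ≠ 0 := by
      intro a ha h3
      exact ha (AdjoinRoot.mk_eq_zero.1 h3)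
    have h1' := hr _ h1
    have h2' := hr _ h2
    exact hP ⟨red P x.num / red P x.denom, div_ne_zero h1' h2', x.num, x.denom, h2, num_GG x,
      (div_mul_cancel₀ _ h2').symm⟩

end Pool.Agent.Helper9.GTI
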