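import Pool.Agent.Helper9.GTI.St
import Pool.Agent.Helper9.HYI.Res
import Pool.Agent.Helper9.HYI.Metab
import Pool.Agent.Helper9.HYI.SqN

/-!
# GT, part ISOG: the global relation
-/

set_option autoImplicit false

namespace Pool.Agent.Helper9.GTI

open Polynomial Finset Matrix
open Pool.Agent.Helper54.PT (Prm prm IsAbsP IsAbsInf)
open Pool.Agent.Helper3.HY (fK RR LL kp red TwAt twGroup baseChange co tau Kfil Gm Ix IsFil InA Bf)
open Pool.Agent.Helper3.GT (Gd Bd UnitAt EvP facs RepG om ep SelS)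
open Pool.Agent.Helper9.HYI (IsRes tL)

/-- The Gram matrix of a basis is invertible. -/
private lemma gram_GLOB {K V : Type} [Field K] [AddCommGroup V] [Module K V] {n : ℕ}
    (b : Module.Basis (Fin n) K V) (B : LinearMap.BilinForm K V)
    (hnd : ∀ y, (∀ x, B x y = 0) → y = 0) :
    (Matrix.of fun i j => B (b i) (b j)).det ≠ 0 := by
  intro h
  obtain ⟨v, hv, hv0⟩ := Matrix.exists_mulVec_eq_zero_iff.2 h
  apply hv
  have hy : ∑ j, v j • b j = 0 := by
    apply hnd
    intro x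
    have hb : ∀ i, B (b i) (∑ j, v j • b j) = 0 := by
      intro i
      have := congrFun hv0 i
      simp only [Matrix.mulVec, dotProduct, Matrix.of_apply, Pi.zero_apply] at this
      rw [map_sum]
      simp only [map_smul, smul_eq_mul]
      rw [← this]
      exact Finset.sum_congr rfl fun j _ => mul_comm _ _
    have hx : x = ∑ i, b.repr x i • b i := (b.sum_repr x).symm
    rw [hx, map_sum B, LinearMap.sum_apply]
    refine Finset.sum_eq_zero fun i _ => ?_
    rw [map_smul, LinearMap.smul_apply, hb, smul_zero]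
  have := Fintype.linearIndependent_iff.1 b.linearIndependent v hy
  funext i
  exact this i

/-- The power basis of the residue field. -/
private lemma pb_GLOB {F : Type} [Field F] (P : Prm F) :
    ∃ b : Module.Basis (Fin P.1.natDegree) F (kp P), ∀ k, b k = red P (X : F[X]) ^ (k : ℕ) := by
  refine ⟨(AdjoinRoot.powerBasis' P.2.1).basis.reindex
    (finCongr (AdjoinRoot.powerBasis'_dim P.2.1)), fun k => ?_⟩
  rw [Module.Basis.reindex_apply, PowerBasis.basis_eq_pow]
  rfl


theorem hGLOB (hGG : StGG) (hSTD : StSTD) (hFAM : StFAM) (hGU : StGU)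
    (hGA : StGA) (hGD1 : StGD1) (hGD2 : StGD2) (hTRA : StTRA) (hTRB : StTRB) : StGLOB := by
  classical
  intro F _ _ hF2 V _ _ _ _ _ _ _ n hn Fil B hFil P ι₀ ι₁ _ _ _ _ E u hcard hBlk hQ hev
  obtain ⟨⟨res, hres⟩, -⟩ := Pool.Agent.Helper9.HYI.hRes F
  -- nondegeneracy
  have hnd : ∀ y, (∀ x, B x y = 0) → y = 0 := by
    intro y hy
    refine hFil.sep y fun m => hFil.dual m y fun k x _ => ?_
    rw [hy]
    exact Submodule.zero_mem _
  let b : Module.Basis (Fin n) (RatFunc F) V := Module.finBasisOfFinrankEq _ _ hn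
  have hdet := gram_GLOB b B hnd
  have hfin := hSTD F V B (Fin n) b hdet
  have hEQ : ∀ Q : Prm F, ∃ EQ : Fin n → V, (Q ≠ P → UniB Q B EQ) ∧ (UniB Q B b → EQ = b) := by
    intro Q
    by_cases h : UniB Q B b
    · exact ⟨b, fun _ => h, fun _ => rfl⟩
    · by_cases hQP : Q = P
      · exact ⟨b, fun h' => absurd hQP h', fun h' => absurd h' h⟩
      · obtain ⟨E', hE'⟩ := hQ Q hQP
        exact ⟨E', fun _ => hE', fun h' => absurd h' h⟩
  choose EQ hEQ1 hEQ2 using hEQ
  let L : Prm F → Set V := fun Q => if Q = P then Dl P B E else Dl Q B (EQ Q)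
  have hLP : L P = Dl P B E := if_pos rfl
  have hLQ : ∀ Q, Q ≠ P → L Q = Dl Q B (EQ Q) := fun Q h => if_neg h
  have hFam : Fam L := by
    refine hFAM F V B L (fun Q => ?_) (fun x => ?_)
    · by_cases h : Q = P
      · subst h
        exact ⟨_, inferInstance, E, hLP⟩
      · exact ⟨_, inferInstance, EQ Q, hLQ Q h⟩
    · have hsub : {Q : Prm F | x ∉ L Q} ⊆ {P} ∪ {Q : Prm F | ¬ UniB Q B b} ∪
          ⋃ i : Fin n, {Q : Prm F | ¬ RegP Q (B x (b i))} := by
        intro Q hQx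
        by_contra hcon
        simp only [Set.mem_union, Set.mem_singleton_iff, Set.mem_ofPred_eq, Set.mem_iUnion,
          not_or, not_exists, not_not] at hcon
        obtain ⟨⟨h1, h2⟩, h3⟩ := hcon
        apply hQx
        rw [hLQ Q h1, hEQ2 Q h2]
        exact h3
      refine Set.Finite.subset ?_ hsub
      refine ((Set.finite_singleton P).union hfin).union (Set.finite_iUnion fun i => ?_)
      exact (hGG F).2.1 _
  have hself : ∀ Q, Q ≠ P → ∀ y, y ∈ L Q ↔ ∀ x ∈ L Q, RegP Q (B x y) := by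
    intro Q h y
    rw [hLQ Q h]
    exact hGU F V Q B (Fin n) (EQ Q) hFil.symm (by rw [hn, Fintype.card_fin]) (hEQ1 Q h) y
  have hcard' : Fintype.card (ι₀ ⊕ ι₁) = Module.finrank (RatFunc F) V := by rw [hcard, hn]
  obtain ⟨Y, c, hY1, hY2, hY3, hY4⟩ := hGD1 F V P B ι₀ ι₁ E u hFil.symm hcard' hBlk L hFam hLP hself
  obtain ⟨Λ, hΛ⟩ := hGD2 F V P B ι₀ ι₁ E u hcard' hBlk L hFam hLP hself Y hY1 hY2 res hres Fil hFil
  obtain ⟨s, hs0, hs⟩ := hTRA F res hres P
  set M : Matrix (Fin P.1.natDegree × ι₁) (Fin P.1.natDegree × ι₁) F := Matrix.of fun a b : Fin P.1.natDegree × ι₁ =>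
        res (RatFunc.X ^ ((a.1 : ℕ) + (b.1 : ℕ)) * B (Y a.2) (Y b.2)) with hM
  obtain ⟨bk, hbk⟩ := pb_GLOB P
  have hP0 : pK P ≠ 0 := by
    intro h
    exact P.2.1.ne_zero ((map_eq_zero_iff _ (RatFunc.algebraMap_injective F)).1 h)
  have hMe : M = Matrix.of fun x y : Fin P.1.natDegree × ι₁ => s (bk x.1 * bk y.1 * u x.2 y.2) := by
    ext x y
    rw [hM, Matrix.of_apply, Matrix.of_apply]
    have e1 : B (Y x.2) (Y y.2) = algebraMap F[X] (RatFunc F) (c x.2 y.2) / pK P := by
      rw [← hY3]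
      field_simp
    have e2 : (RatFunc.X : RatFunc F) ^ ((x.1 : ℕ) + (y.1 : ℕ)) * B (Y x.2) (Y y.2) =
        algebraMap F[X] (RatFunc F) (X ^ ((x.1 : ℕ) + (y.1 : ℕ)) * c x.2 y.2) / pK P := by
      rw [e1, map_mul, map_pow, RatFunc.algebraMap_X, mul_div_assoc]
    rw [e2, hs, map_mul, map_pow, hY4, hbk, hbk, pow_add]
  have hu : ∀ i j, u i j = u j i := by
    intro i j
    have h1 := hBlk.res1 i j
    have h2 := hBlk.res1 j i
    rw [hFil.symm] at h2
    exact (hGA F P).uniq _ _ _ h1 h2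
  have hsymm : M.IsSymm := by
    ext x y
    rw [Matrix.transpose_apply, hMe, Matrix.of_apply, Matrix.of_apply, hu x.2 y.2]
    congr 1
    ring
  have : FiniteDimensional F (kp P) := bk.finiteDimensional_of_finite
  obtain ⟨S, hS0, hSd⟩ := hTRB F (kp P) P.1.natDegree bk s hs0 ι₁ u
  have hMd : M.det = Algebra.norm F u.det * S ^ Fintype.card ι₁ := by rw [hMe, hSd]
  have hN0 : Algebra.norm F u.det ≠ 0 := by
    rw [Ne, Algebra.norm_eq_zero_iff]
    exact hBlk.det1
  have hMd0 : M.det ≠ 0 := by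
    rw [hMd]
    exact mul_ne_zero hN0 (pow_ne_zero _ hS0)
  obtain ⟨-, hsq⟩ := Pool.Agent.Helper9.HYI.hMetab F (Fin P.1.natDegree × ι₁) M hsymm hMd0 Λ hΛ
  obtain ⟨m, hm⟩ := hev
  have hc : Fintype.card (Fin P.1.natDegree × ι₁) / 2 = P.1.natDegree * m := by
    rw [Fintype.card_prod, Fintype.card_fin, hm, ← two_mul, mul_left_comm,
      Nat.mul_div_cancel_left _ (by norm_num)]
  have hm2 : Fintype.card ι₁ / 2 = m := by omega
  rw [hc, hMd, hm, pow_add] at hsq
  rw [hm2]
  have hfr : Module.finrank F (kp P) = P.1.natDegree := by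
    rw [Module.finrank_eq_card_basis bk, Fintype.card_fin]
  have hnorm : Algebra.norm F ((-1) ^ m * u.det) = (-1) ^ (P.1.natDegree * m) * Algebra.norm F u.det := by
    rw [map_mul]
    congr 1
    have : ((-1 : kp P) ^ m) = algebraMap F (kp P) ((-1) ^ m) := by simp
    rw [this, Algebra.norm_algebraMap, hfr, ← pow_mul, mul_comm]
  refine ((Pool.Agent.Helper9.HYI.hSqN F (kp P) hF2).1 _).1 ?_
  rw [hnorm]
  obtain ⟨w, hw⟩ := hsq
  refine ⟨w / S ^ m, ?_⟩
  field_simp
  linear_combination hw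

end Pool.Agent.Helper9.GTI
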