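import Pool.Agent.Helper9.GTI.St

/-!
# GT, part ISOG, module GU: unimodular lattices are selfdual
-/

set_option autoImplicit false

namespace Pool.Agent.Helper9.GTI

open Polynomial Finset Matrix
open Pool.Agent.Helper54.PT (Prm prm IsAbsP IsAbsInf)
open Pool.Agent.Helper3.HY (fK RR LL kp red TwAt twGroup baseChange co tau Kfil Gm Ix IsFil InA Bf)

section

variable {F : Type} [Field F] {P : Prm F}

/-- Elements of `K` with a residue are regular. -/
theorem ModP.reg_GU {x : RatFunc F} {s : kp P} (h : ModP P x s) : RegP P x := by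
  obtain ⟨a, b, hb, hx, -⟩ := h
  exact ⟨a, b, hb, hx⟩

theorem regP_alg_GU (hA : ArP P) (a : F[X]) : RegP P (algebraMap F[X] (RatFunc F) a) :=
  (hA.ofA a).reg_GU

theorem regP_zero_GU (hA : ArP P) : RegP P (0 : RatFunc F) := by
  simpa using regP_alg_GU hA 0

theorem regP_one_GU (hA : ArP P) : RegP P (1 : RatFunc F) := by
  simpa using regP_alg_GU hA 1

/-- The determinant of a regular matrix is regular. -/
theorem regP_det_GU (hA : ArP P) {ι : Type} [Fintype ι] [DecidableEq ι]
    (M : Matrix ι ι (RatFunc F)) (hM : ∀ i j, RegP P (M i j)) : RegP P M.det := by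
  have h1 : ∀ i j, ∃ s : kp P, ModP P (M i j) s := fun i j => (hA.reg_iff _).1 (hM i j)
  choose m hm using h1
  exact (hA.det ι M (Matrix.of m) hm).reg_GU

/-- The adjugate of a regular matrix is regular. -/
theorem regP_adj_GU (hA : ArP P) {ι : Type} [Fintype ι] [DecidableEq ι]
    (M : Matrix ι ι (RatFunc F)) (hM : ∀ i j, RegP P (M i j)) (i j : ι) :
    RegP P (M.adjugate i j) := by
  rw [Matrix.adjugate_apply]
  refine regP_det_GU hA _ fun a b => ?_
  rw [Matrix.updateRow_apply]
  split_ifs with h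
  · rw [Pi.single_apply]
    split_ifs
    · exact regP_one_GU hA
    · exact regP_zero_GU hA
  · exact hM a b

/-- Regular solutions of unimodular systems. -/
theorem regP_sol_GU (hA : ArP P) {ι : Type} [Fintype ι] [DecidableEq ι]
    (H : Matrix ι ι (RatFunc F)) (hH : ∀ i j, RegP P (H i j)) {s : kp P} (hs : s ≠ 0)
    (hd : ModP P H.det s) (a : ι → RatFunc F) (ha : ∀ j, RegP P (∑ i, a i * H i j)) (i : ι) :
    RegP P (a i) := by
  obtain ⟨h0, hi⟩ := hA.inv _ _ hd hs
  have h1 : (a ᵥ* H) ᵥ* H.adjugate = H.det • a := by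
    rw [Matrix.vecMul_vecMul, Matrix.mul_adjugate, Matrix.vecMul_smul, Matrix.vecMul_one]
  have h2 : a i = H.det⁻¹ * ∑ j, (∑ k, a k * H k j) * H.adjugate j i := by
    have h3 := congrFun h1 i
    have h4 : ((a ᵥ* H) ᵥ* H.adjugate) i = ∑ j, (∑ k, a k * H k j) * H.adjugate j i := rfl
    rw [← h4, h3]
    simp only [Pi.smul_apply, smul_eq_mul]
    rw [← mul_assoc, inv_mul_cancel₀ h0, one_mul]
  rw [h2]
  exact hA.rmul _ _ hi.reg_GU (hA.rsum _ _ _ fun j _ =>
    hA.rmul _ _ (ha j) (regP_adj_GU hA H hH j i))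

end

/-- A family with a regular system of functionals spans. -/
theorem span_GU {K V : Type} [Field K] [AddCommGroup V] [Module K V] [FiniteDimensional K V]
    {ι : Type} [Fintype ι] [DecidableEq ι] (E : ι → V) (φ : ι → V →ₗ[K] K)
    (hcard : Fintype.card ι = Module.finrank K V)
    (hdet : (Matrix.of fun i j => φ j (E i)).det ≠ 0) (x : V) :
    ∃ a : ι → K, x = ∑ i, a i • E i := by
  have hli : LinearIndependent K E := by
    rw [Fintype.linearIndependent_iff]
    intro a ha
    have h1 : a ᵥ* (Matrix.of fun i j => φ j (E i)) = 0 := by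
      funext j
      have h2 := congrArg (φ j) ha
      rw [map_sum, map_zero] at h2
      simp only [map_smul, smul_eq_mul] at h2
      exact h2
    have h3 := Matrix.eq_zero_of_vecMul_eq_zero hdet h1
    exact fun i => congrFun h3 i
  have hsp := hli.span_eq_top_of_card_eq_finrank' hcard
  have hx : x ∈ Submodule.span K (Set.range E) := by rw [hsp]; exact Submodule.mem_top
  obtain ⟨a, ha⟩ := (Submodule.mem_span_range_iff_exists_fun K).1 hx
  exact ⟨a, ha.symm⟩

theorem hGU (hGA : StGA) : StGU := by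
  intro F _ V _ _ _ P B ι _ _ E hsymm hcard hU y
  have hA : ArP P := hGA F P
  obtain ⟨hreg, s, hs, hdet⟩ := hU
  constructor
  · intro hy x hx
    have h0 : (Matrix.of fun i j => B (E i) (E j)).det ≠ 0 := (hA.inv _ _ hdet hs).1
    have h1 : (Matrix.of fun i j => (B.flip (E j)) (E i)).det ≠ 0 := h0
    obtain ⟨a, ha⟩ := span_GU E (fun j => B.flip (E j)) hcard h1 x
    have h2 : ∀ j, RegP P (∑ i, a i * (Matrix.of fun i j => B (E i) (E j)) i j) := by
      intro j
      have h3 := hx j
      rw [ha] at h3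
      simpa [map_sum, LinearMap.sum_apply] using h3
    have h4 := regP_sol_GU hA _ (fun i j => hreg i j) hs hdet a h2
    have h5 : B x y = ∑ i, a i * B y (E i) := by
      conv_lhs => rw [ha]
      simp only [map_sum, map_smul, LinearMap.sum_apply, LinearMap.smul_apply, smul_eq_mul]
      exact Finset.sum_congr rfl fun i _ => by rw [hsymm y (E i)]
    rw [h5]
    exact hA.rsum _ _ _ fun i _ => hA.rmul _ _ (h4 i) (hy i)
  · intro hy i
    have h1 := hy (E i) (fun j => hreg i j)
    rwa [hsymm] at h1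

end Pool.Agent.Helper9.GTI
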