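import Pool.Agent.Helper9.GTI.St

set_option autoImplicit false

namespace Pool.Agent.Helper9.GTI

open Polynomial Finset Matrix
open Pool.Agent.Helper54.PT (Prm prm IsAbsP IsAbsInf)
open Pool.Agent.Helper3.HY (fK RR LL kp red TwAt twGroup baseChange co tau Kfil Gm Ix IsFil InA Bf)
open Pool.Agent.Helper3.GT (Gd Bd UnitAt EvP facs RepG om ep SelS)

/-- a polynomial whose reduction is zero is divisible by `P` -/
lemma dvd_of_map_IDU {F : Type} [Field F] (P : Prm F) (c : F[X][X]) (h : c.map (red P) = 0) :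
    C P.1 ∣ c := by
  rw [C_dvd_iff_dvd_coeff]
  intro i
  have h1 : (c.map (red P)).coeff i = 0 := by rw [h, coeff_zero]
  rw [coeff_map] at h1
  exact AdjoinRoot.mk_eq_zero.1 h1

theorem hIDU : StIDU := by
  intro F _ f hf P hFac N e he ψ hψ a ha
  rcases Nat.eq_zero_or_pos N with rfl | hN
  · refine ⟨0, AdjoinRoot.mk f (-(e ψ)), fun h => absurd h (by norm_num), ?_⟩
    simp
  have hψ' := (hFac.mem ψ).1 hψ
  have : Fact (Irreducible ψ) := ⟨hψ'.2.1⟩
  -- inverse of the residue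
  obtain ⟨b₁, hb₁⟩ : ∃ b₁ : F[X][X], AdjoinRoot.mk ψ ((a * b₁).map (red P)) = 1 := by
    obtain ⟨y, hy⟩ := AdjoinRoot.mk_surjective ((AdjoinRoot.mk ψ (a.map (red P)))⁻¹)
    obtain ⟨b₁, hb₁⟩ := Polynomial.map_surjective (red P) AdjoinRoot.mk_surjective y
    refine ⟨b₁, ?_⟩
    rw [Polynomial.map_mul, map_mul, hb₁, hy, mul_inv_cancel₀ ha]
  set x : F[X][X] := a * b₁ with hx
  -- (x - 1) e is divisible by P
  obtain ⟨ρ₁, hρ₁⟩ : ∃ ρ₁ : RR f, AdjoinRoot.mk f ((x - 1) * e ψ)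
      = algebraMap F[X] (RR f) P.1 * ρ₁ := by
    set c : F[X][X] := (x - 1) * e ψ with hc
    have h1 : ∀ φ ∈ facs f P, φ ∣ c.map (red P) := by
      intro φ hφ
      rw [← AdjoinRoot.mk_eq_zero, hc, Polynomial.map_mul, map_mul]
      by_cases h : φ = ψ
      · subst h
        rw [Polynomial.map_sub, Polynomial.map_one, map_sub, hb₁, map_one, sub_self, zero_mul]
      · rw [he.zero ψ hψ φ hφ h, mul_zero]
    have h2 : f.map (red P) ∣ c.map (red P) := by
      rw [← hFac.prod]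
      refine Finset.prod_dvd_of_coprime ?_ h1
      intro φ hφ χ hχ hne
      have hφ' := (hFac.mem φ).1 hφ
      have hχ' := (hFac.mem χ).1 hχ
      refine (hφ'.2.1.coprime_iff_not_dvd).2 fun hd => hne ?_
      exact eq_of_monic_of_associated hφ'.1 hχ'.1 (hφ'.2.1.associated_of_dvd hχ'.2.1 hd)
    obtain ⟨k, hk⟩ := h2
    obtain ⟨k', hk'⟩ := Polynomial.map_surjective (red P) AdjoinRoot.mk_surjective k
    have h0 : (c - f * k').map (red P) = 0 := by
      have e1 : (c - f * k').map (red P) = c.map (red P) - (f * k').map (red P) :=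
        Polynomial.map_sub _
      have e2 : (f * k').map (red P) = f.map (red P) * k'.map (red P) := Polynomial.map_mul _
      rw [e1, e2, hk', hk, sub_self]
    obtain ⟨r, hr⟩ := dvd_of_map_IDU P (c - f * k') h0
    refine ⟨AdjoinRoot.mk f r, ?_⟩
    have h3 : c = f * k' + C P.1 * r := by rw [← hr]; ring
    rw [h3, map_add, map_mul, map_mul, AdjoinRoot.mk_self, zero_mul, zero_add]
    rfl
  set pp : RR f := algebraMap F[X] (RR f) P.1 with hpp
  -- powers of the idempotent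
  obtain ⟨r, hr⟩ := he.idem ψ hψ
  rw [map_pow] at hr
  have hpow : ∀ m : ℕ, 1 ≤ m → ∃ s : RR f, (AdjoinRoot.mk f (e ψ)) ^ m
      = AdjoinRoot.mk f (e ψ) + pp ^ N * s := by
    intro m hm
    induction m, hm using Nat.le_induction with
    | base => exact ⟨0, by rw [pow_one, mul_zero, add_zero]⟩
    | succ m hm ih =>
      obtain ⟨s, hs⟩ := ih
      refine ⟨r + s * AdjoinRoot.mk f (e ψ), ?_⟩
      rw [map_mul] at hr
      rw [pow_succ, hs, add_mul, hr]
      ring
  obtain ⟨s, hs⟩ := hpow N hN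
  -- the polynomial q
  obtain ⟨q, hq⟩ : x ∣ 1 - (1 - x) ^ N := by
    have := sub_dvd_pow_sub_pow (1 : F[X][X]) (1 - x) N
    rwa [one_pow, sub_sub_cancel] at this
  refine ⟨b₁ * q, -((-1) ^ N * ρ₁ ^ N - (AdjoinRoot.mk f (1 - x)) ^ N * s), fun _ => ?_, ?_⟩
  · rw [← mul_assoc, ← hx, ← hq, Polynomial.map_sub, Polynomial.map_one, Polynomial.map_pow,
      Polynomial.map_sub, Polynomial.map_one, map_sub, map_one, map_pow, map_sub, map_one, hb₁,
      sub_self, zero_pow (by omega), sub_zero]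
  · have h4 : (a * (b₁ * q) - 1) * e ψ = -((1 - x) ^ N * e ψ) := by
      rw [← mul_assoc, ← hx, ← hq]; ring
    rw [h4, map_neg, map_mul, map_pow, map_pow, ← hpp]
    have h5 : AdjoinRoot.mk f (e ψ) = (AdjoinRoot.mk f (e ψ)) ^ N - pp ^ N * s := by
      rw [hs]; ring
    have h6 : (AdjoinRoot.mk f (1 - x)) ^ N * (AdjoinRoot.mk f (e ψ)) ^ N
        = pp ^ N * ((-1) ^ N * ρ₁ ^ N) := by
      rw [← mul_pow, ← map_mul]
      have h7 : (1 - x) * e ψ = -((x - 1) * e ψ) := by ring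
      rw [h7, map_neg, hρ₁, neg_eq_neg_one_mul, mul_pow, mul_pow]
      ring
    calc -((AdjoinRoot.mk f (1 - x)) ^ N * AdjoinRoot.mk f (e ψ))
        = -((AdjoinRoot.mk f (1 - x)) ^ N * ((AdjoinRoot.mk f (e ψ)) ^ N - pp ^ N * s)) := by
          rw [← h5]
      _ = -((AdjoinRoot.mk f (1 - x)) ^ N * (AdjoinRoot.mk f (e ψ)) ^ N
            - pp ^ N * ((AdjoinRoot.mk f (1 - x)) ^ N * s)) := by ring
      _ = _ := by rw [h6]; ring

end Pool.Agent.Helper9.GTI
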