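import Pool.Agent.Helper9.GTI.St

/-!
# GT, part ISOG: global isotropy from the quadratic relation
-/

set_option autoImplicit false

namespace Pool.Agent.Helper9.GTI

open Polynomial Finset Matrix
open Pool.Agent.Helper54.PT (Prm prm IsAbsP IsAbsInf)
open Pool.Agent.Helper3.HY (fK RR LL kp red TwAt twGroup baseChange co tau Kfil Gm Ix IsFil InA Bf)
open Pool.Agent.Helper3.GT (Gd Bd UnitAt EvP facs RepG om ep SelS StFAC StOE StISOG)

theorem unitAt_mul_ISOG {F : Type} [Field F] {f : F[X][X]} (P : Prm F) {x y : LL f}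
    (hx : UnitAt P x) (hy : UnitAt P y) : UnitAt P (x * y) := by
  obtain ⟨a, r, s, ha, h1, h2⟩ := hx
  obtain ⟨a', r', s', ha', h1', h2'⟩ := hy
  refine ⟨a * a', r * r', s * s', ?_, ?_, ?_⟩
  · intro h
    rcases (P.2.2.prime.dvd_mul).1 h with h | h
    · exact ha h
    · exact ha' h
  · rw [map_mul, map_mul, ← h1, ← h1']
    ring
  · rw [map_mul]
    calc r * r' * (s * s') = (r * s) * (r' * s') := by ring
      _ = _ := by rw [h2, h2']; ring

theorem evP_mul_ISOG {F : Type} [Field F] {f : F[X][X]} [Fact (Irreducible (fK f))] (P : Prm F)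
    {x y : LL f} (hx : EvP P x) (hy : EvP P y) : EvP P (x * y) := by
  obtain ⟨β, hβ, h1⟩ := hx
  obtain ⟨γ, hγ, h2⟩ := hy
  refine ⟨β * γ, mul_ne_zero hβ hγ, ?_⟩
  have h3 := unitAt_mul_ISOG P h1 h2
  have h4 : x * y * (β * γ) ^ 2 = x * β ^ 2 * (y * γ ^ 2) := by ring
  rw [h4]
  exact h3

theorem twAt_mul_ISOG {F : Type} [Field F] {f : F[X][X]} (D : F[X])
    (v : AbsoluteValue (RatFunc F) ℝ) {x y : (LL f)ˣ} (hx : TwAt f D v x) (hy : TwAt f D v y) :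
    TwAt f D v (x * y) := by
  unfold TwAt at hx hy ⊢
  rw [map_mul]
  exact mul_mem hx hy

theorem hISOG (hOE : StOE) (hQD : StQD) : StISOG := by
  intro F _ _ h2 g hg f hm hdeg hsep _ P hP S hPS D hD z w hz hw
  classical
  obtain ⟨hO1, hO2, hO3, _⟩ := hOE F h2 g hg f hm hdeg hsep P hP
  obtain ⟨T, hT⟩ : ∃ T : Finset (kp P)[X], T = (facs f P).filter fun ψ => om P ψ (z : LL f) = 1 :=
    ⟨_, rfl⟩
  have hTs : T ⊆ facs f P := by rw [hT]; exact filter_subset _ _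
  obtain ⟨c, hc⟩ := hQD F h2 g hg f hm hdeg hsep P hP S D hD T hTs
  have hBd : ¬ Bd f P := fun h => hP ((dvd_pow_self _ two_ne_zero).trans h)
  have hwP : EvP P (w : LL f) := hw.2.1 P hPS hBd
  have hw0 : ∀ ψ ∈ facs f P, om P ψ (w : LL f) = 0 := (hO2 w w.ne_zero).1 hwP
  have hmemT : ∀ ψ ∈ facs f P, (om P ψ (z : LL f) = 1 ↔ ψ ∈ T) := by
    intro ψ hψ
    rw [hT, mem_filter]
    exact ⟨fun h => ⟨hψ, h⟩, fun h => h.2⟩
  have e1 : ∑ ψ ∈ T, ep P ψ (z : LL f) = c := by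
    refine hc z hz.1 (fun Q hQ hQS hQB => hz.2.1 Q ?_ hQB) (fun Q hQ hQS v hv hvQ =>
      hz.2.2.1 Q ?_ v hv hvQ) hz.2.2.2 hmemT
    · rw [mem_insert, not_or]
      exact ⟨hQ, hQS⟩
    · rw [mem_insert]
      rcases hQS with h | h
      · exact Or.inl (Or.inr h)
      · exact Or.inr h
  have e2 : ∑ ψ ∈ T, ep P ψ ((z * w : (LL f)ˣ) : LL f) = c := by
    refine hc (z * w) ?_ (fun Q hQ hQS hQB => ?_) (fun Q hQ hQS v hv hvQ => ?_)
      (fun v hv hvI => ?_) (fun ψ hψ => ?_)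
    · rw [Units.val_mul, map_mul]
      exact hz.1.mul hw.1
    · rw [Units.val_mul]
      refine evP_mul_ISOG Q (hz.2.1 Q ?_ hQB) (hw.2.1 Q hQS hQB)
      rw [mem_insert, not_or]
      exact ⟨hQ, hQS⟩
    · refine twAt_mul_ISOG D v (hz.2.2.1 Q ?_ v hv hvQ) (hw.2.2.1 Q hQS v hv hvQ)
      rw [mem_insert]
      rcases hQS with h | h
      · exact Or.inl (Or.inr h)
      · exact Or.inr h
    · exact twAt_mul_ISOG D v (hz.2.2.2 v hv hvI) (hw.2.2.2 v hv hvI)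
    · rw [Units.val_mul, (hO1 ψ hψ z w z.ne_zero w.ne_zero).1, hw0 ψ hψ, add_zero]
      exact hmemT ψ hψ
  have e3 : ∑ ψ ∈ T, ep P ψ (w : LL f) = 0 := by
    have h3 : ∑ ψ ∈ T, ep P ψ ((z * w : (LL f)ˣ) : LL f) =
        ∑ ψ ∈ T, ep P ψ (z : LL f) + ∑ ψ ∈ T, ep P ψ (w : LL f) := by
      rw [← sum_add_distrib]
      refine sum_congr rfl fun ψ hψ => ?_
      rw [Units.val_mul, (hO1 ψ (hTs hψ) z w z.ne_zero w.ne_zero).2]
    rw [e2, e1] at h3
    exact left_eq_add.1 h3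
  rw [← e3, ← sum_subset hTs]
  · refine sum_congr rfl fun ψ hψ => ?_
    rw [(hmemT ψ (hTs hψ)).2 hψ, one_mul]
  · intro ψ hψ hψT
    have h6 : om P ψ (z : LL f) ≠ 1 := fun h => hψT ((hmemT ψ hψ).1 h)
    have h7 : om P ψ (z : LL f) = 0 := by
      unfold om at h6 ⊢
      split_ifs at h6 ⊢ with h8
      · rfl
      · exact absurd rfl h6
    rw [h7, zero_mul]

end Pool.Agent.Helper9.GTI
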