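import Pool.Agent.Helper9.GTI.St
import Mathlib.LinearAlgebra.BilinearForm.Orthogonal

/-!
# GT, part ISOG: isotropic subspaces of an orthogonal sum (ISOL)
-/

set_option autoImplicit false

namespace Pool.Agent.Helper9.GTI

private theorem rk_ISOL {k V V' : Type} [Field k] [AddCommGroup V] [Module k V]
    [FiniteDimensional k V] [AddCommGroup V'] [Module k V'] (f : V →ₗ[k] V')
    (S : Submodule k V) :
    Module.finrank k (S.map f) + Module.finrank k (S ⊓ LinearMap.ker f : Submodule k V) =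
      Module.finrank k S := by
  have h := LinearMap.finrank_range_add_finrank_ker (f.domRestrict S)
  have h1 : LinearMap.range (f.domRestrict S) = S.map f := LinearMap.range_domRestrict S f
  have h2 : (LinearMap.ker (f.domRestrict S)).map S.subtype = S ⊓ LinearMap.ker f := by
    ext x
    simp only [Submodule.mem_map, LinearMap.mem_ker, Submodule.mem_inf, Submodule.subtype_apply,
      LinearMap.domRestrict_apply]
    constructor
    · rintro ⟨y, hy, rfl⟩
      exact ⟨y.2, hy⟩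
    · rintro ⟨hx, hx'⟩
      exact ⟨⟨x, hx⟩, hx', rfl⟩
  have h3 : Module.finrank k ((LinearMap.ker (f.domRestrict S)).map S.subtype) =
      Module.finrank k (LinearMap.ker (f.domRestrict S)) := Submodule.finrank_map_subtype_eq _ _
  rw [← h1, ← h2, h3]
  exact h

theorem hISOL : StISOL := by
  intro k _ E₁ E₂ _ _ _ _ _ _ B₁ B₂ hsym hnd X Y hX hY
  classical
  have hBk : B₂.ker = ⊥ := by
    rw [eq_bot_iff]
    intro y hy
    have hy' : B₂ y = 0 := hy
    exact (Submodule.mem_bot k).2 (hnd y fun x => by rw [hsym x y, hy']; rfl)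
  obtain ⟨s, hs⟩ : ∃ s : (E₁ × E₂) →ₗ[k] E₂, ∀ x, s x = x.2 := ⟨LinearMap.snd k E₁ E₂, fun _ => rfl⟩
  obtain ⟨f, hf⟩ : ∃ f : (E₁ × E₂) →ₗ[k] E₁, ∀ x, f x = x.1 := ⟨LinearMap.fst k E₁ E₂, fun _ => rfl⟩
  obtain ⟨X', hX'⟩ : ∃ X' : Submodule k (E₁ × E₂), ∀ x, x ∈ X' ↔ x ∈ X ∧ x.2 ∈ Y :=
    ⟨X ⊓ Y.comap (LinearMap.snd k E₁ E₂), fun x => Iff.rfl⟩
  obtain ⟨Z, hZm⟩ : ∃ Z : Submodule k E₂, ∀ b, b ∈ Z ↔ b ∈ Y ∧ ((0 : E₁), b) ∈ X :=
    ⟨Y ⊓ X.comap (LinearMap.inr k E₁ E₂), fun x => Iff.rfl⟩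
  refine ⟨X'.map f, ?_, ?_⟩
  · have hZ : Module.finrank k Z + Module.finrank k (B₂.orthogonal Z) = Module.finrank k E₂ := by
      have := LinearMap.BilinForm.finrank_add_finrank_orthogonal' (B := B₂) Z
      rwa [hBk, inf_bot_eq, finrank_bot, add_zero] at this
    -- `A = s X` and `Y` are contained in the orthogonal space of `Z`
    have hle : X.map s ⊔ Y ≤ B₂.orthogonal Z := by
      refine sup_le ?_ ?_
      · rintro _ ⟨x, hx, rfl⟩
        rw [LinearMap.BilinForm.mem_orthogonal_iff]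
        intro b hb
        have := hX _ ((hZm b).1 hb).2 x hx
        change B₂ b (s x) = 0
        rw [hs]
        simpa using this
      · intro y hy
        rw [LinearMap.BilinForm.mem_orthogonal_iff]
        intro b hb
        exact hY b ((hZm b).1 hb).1 y hy
    have h1 := Submodule.finrank_mono hle
    have h2 := Submodule.finrank_sup_add_finrank_inf_eq (X.map s) Y
    have h3 := rk_ISOL s X
    have h4 := rk_ISOL s X'
    have h5 := rk_ISOL f X'
    have e1 : X'.map s = X.map s ⊓ Y := by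
      ext y
      constructor
      · rintro ⟨x, hx, rfl⟩
        refine ⟨⟨x, ((hX' x).1 hx).1, rfl⟩, ?_⟩
        rw [hs]
        exact ((hX' x).1 hx).2
      · rintro ⟨⟨x, hx, rfl⟩, hy⟩
        refine ⟨x, (hX' x).2 ⟨hx, ?_⟩, rfl⟩
        rw [← hs]
        exact hy
    have e2 : X' ⊓ LinearMap.ker s = X ⊓ LinearMap.ker s := by
      ext x
      constructor
      · rintro ⟨hx, hx'⟩
        exact ⟨((hX' x).1 hx).1, hx'⟩
      · rintro ⟨hx, hx'⟩
        refine ⟨(hX' x).2 ⟨hx, ?_⟩, hx'⟩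
        have : x.2 = 0 := by rw [← hs]; exact hx'
        rw [this]
        exact Y.zero_mem
    have e3 : Module.finrank k (X' ⊓ LinearMap.ker f : Submodule k (E₁ × E₂)) ≤
        Module.finrank k Z := by
      have e4 : (X' ⊓ LinearMap.ker f).map s ≤ Z := by
        rintro _ ⟨x, ⟨hx, hx'⟩, rfl⟩
        have h0 : x.1 = 0 := by rw [← hf]; exact hx'
        rw [hs, hZm]
        refine ⟨((hX' x).1 hx).2, ?_⟩
        have : ((0 : E₁), x.2) = x := by rw [← h0]
        rw [this]
        exact ((hX' x).1 hx).1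
      have e5 := rk_ISOL s (X' ⊓ LinearMap.ker f)
      have e6 : X' ⊓ LinearMap.ker f ⊓ LinearMap.ker s = ⊥ := by
        rw [eq_bot_iff]
        rintro x ⟨⟨-, h1⟩, h2⟩
        have h1' : x.1 = 0 := by rw [← hf]; exact h1
        have h2' : x.2 = 0 := by rw [← hs]; exact h2
        exact (Submodule.mem_bot k).2 (Prod.ext h1' h2')
      rw [e6, finrank_bot, add_zero] at e5
      rw [← e5]
      exact Submodule.finrank_mono e4
    rw [e1, e2] at h4
    omega
  · rintro _ ⟨x, hx, rfl⟩ _ ⟨y, hy, rfl⟩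
    have := hX x ((hX' x).1 hx).1 y ((hX' y).1 hy).1
    rw [hY x.2 ((hX' x).1 hx).2 y.2 ((hX' y).1 hy).2, add_zero] at this
    rw [hf, hf]
    exact this

end Pool.Agent.Helper9.GTI
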