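import Pool.Agent.Helper9.GTI.St
import Pool.Agent.Helper3.HY.M_Cg
import Pool.Agent.Helper3.HY.M_S

set_option autoImplicit false

namespace Pool.Agent.Helper9.GTI

open Polynomial Finset
open Pool.Agent.Helper54.PT (Prm IsAbsP IsAbsInf)
open Pool.Agent.Helper3.HY (fK RR LL kp red TwAt twGroup baseChange co tau Kfil Gm Ix IsFil InA Bf)
open Pool.Agent.Helper9.HYI (IsRes tL)

/-- The determinant of the Gram matrix of the powers of the root, up to `(-1)^g`, is a square. -/
private theorem isSquare_det_LOC {F : Type} [Field F] {g : ℕ} {f : F[X][X]} (hm : f.Monic)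
    (hdeg : f.natDegree = 2 * g + 1) (z : LL f)
    (hz : IsSquare (Algebra.norm (RatFunc F) z)) :
    IsSquare ((-1) ^ g * (Matrix.of fun i j : Ix g =>
      Bf hm z (AdjoinRoot.root (fK f) ^ (i : ℕ)) (AdjoinRoot.root (fK f) ^ (j : ℕ))).det) := by
  obtain ⟨b, hb⟩ := Pool.Agent.Helper3.HY.hCg F g f hm hdeg z
  rw [Pool.Agent.Helper3.HY.MS.det_gram (Bf hm z) b, hb]
  obtain ⟨r, hr⟩ := hz
  have h1 : ((-1 : RatFunc F) ^ g) * (-1) ^ g = 1 := by
    rw [← mul_pow]; simp
  refine ⟨(b.toMatrix fun i : Ix g => AdjoinRoot.root (fK f) ^ (i : ℕ)).det * r, ?_⟩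
  rw [hr]
  linear_combination ((b.toMatrix fun i : Ix g => AdjoinRoot.root (fK f) ^ (i : ℕ)).det ^ 2
    * (r * r)) * h1

/-- Approximation of a standard basis. -/
private theorem exists_E_LOC (hNFZ : StNFZ) (hBCT : StBCT) (hAPX : StAPX) {F : Type} [Field F]
    (h2 : (2 : F) ≠ 0) {g : ℕ} {f : F[X][X]} (hm : f.Monic) (hdeg : f.natDegree = 2 * g + 1)
    {D : F[X]} (hD : D ≠ 0) (z : (LL f)ˣ)
    (hz : IsSquare (Algebra.norm (RatFunc F) (z : LL f))) (v : AbsoluteValue (RatFunc F) ℝ)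
    (hv : TwAt f D v z) :
    ∃ E : Ix g → LL f, ∀ i j, v (Bf hm (z : LL f) (E i) (E j) - Gm (RatFunc F) g i j) < 1 := by
  have hmK := hm.map (algebraMap F[X] (RatFunc F))
  have hmv := hmK.map (algebraMap (RatFunc F) v.Completion)
  have h2v : (2 : v.Completion) ≠ 0 := by
    have h3 : (algebraMap F (RatFunc F) 2 : RatFunc F) ≠ 0 := by rwa [Ne, map_eq_zero]
    have h4 : algebraMap (RatFunc F) v.Completion (algebraMap F (RatFunc F) 2) ≠ 0 := by
      rwa [Ne, map_eq_zero]
    rwa [map_ofNat, map_ofNat] at h4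
  have hDv : algebraMap (RatFunc F) v.Completion (algebraMap F[X] (RatFunc F) D) ≠ 0 := by
    rw [Ne, map_eq_zero, map_eq_zero_iff _ (RatFunc.algebraMap_injective F)]
    exact hD
  have hdv : ((fK f).map (algebraMap (RatFunc F) v.Completion)).natDegree = 2 * g + 1 := by
    rw [hmK.natDegree_map, hm.natDegree_map, hdeg]
  have hsq : IsSquare ((-1) ^ g * (Matrix.of fun i j : Ix g =>
      tau hmv (((Units.map (baseChange (algebraMap (RatFunc F) v.Completion) (fK f) : LL f →* _) z :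
        (AdjoinRoot ((fK f).map (algebraMap (RatFunc F) v.Completion)))ˣ) :
          AdjoinRoot ((fK f).map (algebraMap (RatFunc F) v.Completion))) *
        AdjoinRoot.root ((fK f).map (algebraMap (RatFunc F) v.Completion)) ^ (i : ℕ) *
        AdjoinRoot.root ((fK f).map (algebraMap (RatFunc F) v.Completion)) ^ (j : ℕ))).det) := by
    have h5 := (isSquare_det_LOC hm hdeg (z : LL f) hz).map (algebraMap (RatFunc F) v.Completion)
    rw [map_mul, map_pow, map_neg, map_one, RingHom.map_det] at h5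
    refine (congrArg IsSquare (congrArg (fun M => (-1) ^ g * Matrix.det M) ?_)).mpr h5
    ext i j
    rw [RingHom.mapMatrix_apply, Matrix.map_apply, Matrix.of_apply, Matrix.of_apply]
    have h6 := (hBCT (RatFunc F) v.Completion (algebraMap (RatFunc F) v.Completion) (fK f) hmK
      ((z : LL f) * AdjoinRoot.root (fK f) ^ (i : ℕ) * AdjoinRoot.root (fK f) ^ (j : ℕ))).1
    have h7 := (hBCT (RatFunc F) v.Completion (algebraMap (RatFunc F) v.Completion) (fK f) hmK
      (z : LL f)).2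
    have h8 : baseChange (algebraMap (RatFunc F) v.Completion) (fK f)
        ((z : LL f) * AdjoinRoot.root (fK f) ^ (i : ℕ) * AdjoinRoot.root (fK f) ^ (j : ℕ)) =
        baseChange (algebraMap (RatFunc F) v.Completion) (fK f) (z : LL f) *
        AdjoinRoot.root ((fK f).map (algebraMap (RatFunc F) v.Completion)) ^ (i : ℕ) *
        AdjoinRoot.root ((fK f).map (algebraMap (RatFunc F) v.Completion)) ^ (j : ℕ) := by
      rw [RingHom.map_mul, RingHom.map_mul, RingHom.map_pow, RingHom.map_pow, h7]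
    rw [h8] at h6
    exact h6
  obtain ⟨e, he⟩ := hNFZ v.Completion h2v g _ hmv hdv _ hDv _ hv hsq
  obtain ⟨E, hE⟩ := hAPX F g f hm hdeg v (z : LL f) e he
  exact ⟨E, hE⟩

theorem hLOC (hNFZ : StNFZ) (hBCT : StBCT) (hAPX : StAPX) (hUP : StUP) (hUI : StUI) : StLOC := by
  intro F _ h2 g f hm hdeg _ D hD z hz
  have hmK := hm.map (algebraMap F[X] (RatFunc F))
  refine ⟨?_, ?_⟩
  · intro P v hv htw
    obtain ⟨E, hE⟩ := exists_E_LOC hNFZ hBCT hAPX h2 hm hdeg hD z hz v htw
    exact ⟨E, hUP F P v hv (LL f) _ g E hE⟩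
  · intro v hv htw
    obtain ⟨E, hE⟩ := exists_E_LOC hNFZ hBCT hAPX h2 hm hdeg hD z hz v htw
    have hfd : FiniteDimensional (RatFunc F) (LL f) := (AdjoinRoot.powerBasis' hmK).finite
    have hfr : Module.finrank (RatFunc F) (LL f) = 2 * g + 1 := by
      rw [(AdjoinRoot.powerBasis' hmK).finrank, AdjoinRoot.powerBasis'_dim, hm.natDegree_map, hdeg]
    refine hUI F v hv (LL f) _ g hfr ?_ E hE
    intro x y
    rw [Pool.Agent.Helper3.HY.Bf_apply, Pool.Agent.Helper3.HY.Bf_apply, mul_right_comm]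

end Pool.Agent.Helper9.GTI
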