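import Pool.Agent.Helper9.GTI.St
import Pool.Agent.Helper9.HYI.SqN

/-!
# GT, part ISOG, module LP: the discriminant at `P` in terms of `ep`
-/

set_option autoImplicit false

namespace Pool.Agent.Helper9.GTI

open Polynomial Finset Matrix
open Pool.Agent.Helper54.PT (Prm prm IsAbsP IsAbsInf)
open Pool.Agent.Helper3.HY (fK RR LL kp red TwAt twGroup baseChange co tau Kfil Gm Ix IsFil InA Bf)
open Pool.Agent.Helper3.GT (Gd Bd UnitAt EvP facs RepG om ep SelS)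
open Pool.Agent.Helper9.HYI (IsRes tL StSqN hSqN)

open Classical in
/-- The quadratic character with values in `ZMod 2`. -/
noncomputable def chi_LP {k : Type} [Field k] (a : k) : ZMod 2 := if IsSquare a then 0 else 1

theorem chi_eq_LP {k : Type} [Field k] (a : k) : chi_LP a = 0 ↔ IsSquare a := by
  unfold chi_LP
  split_ifs with h
  · exact ⟨fun _ => h, fun _ => rfl⟩
  · exact ⟨fun h1 => absurd h1 (by decide), fun h1 => absurd h1 h⟩

theorem chi_one_LP {k : Type} [Field k] : chi_LP (1 : k) = 0 := (chi_eq_LP 1).2 IsSquare.one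

theorem chi_mul_LP {k : Type} [Field k] [Finite k] (h2 : (2 : k) ≠ 0) (a b : k) (ha : a ≠ 0)
    (hb : b ≠ 0) : chi_LP (a * b) = chi_LP a + chi_LP b := by
  have := Fintype.ofFinite k
  have h := (hSqN k k h2).2.2.2 a b ha hb
  unfold chi_LP
  by_cases h1 : IsSquare a <;> by_cases h3 : IsSquare b
  · rw [if_pos (h.2 ⟨fun _ => h3, fun _ => h1⟩), if_pos h1, if_pos h3]; rfl
  · rw [if_neg (fun h4 => h3 ((h.1 h4).1 h1)), if_pos h1, if_neg h3]; rfl
  · rw [if_neg (fun h4 => h1 ((h.1 h4).2 h3)), if_neg h1, if_pos h3]; rfl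
  · rw [if_pos (h.2 ⟨fun h4 => absurd h4 h1, fun h4 => absurd h4 h3⟩), if_neg h1, if_neg h3]; rfl

theorem chi_prod_LP {k : Type} [Field k] [Finite k] (h2 : (2 : k) ≠ 0) {ι : Type} (T : Finset ι)
    (x : ι → k) (hx : ∀ i ∈ T, x i ≠ 0) : chi_LP (∏ i ∈ T, x i) = ∑ i ∈ T, chi_LP (x i) := by
  classical
  induction T using Finset.induction_on with
  | empty => simpa using chi_one_LP
  | insert a s has ih =>
    rw [prod_insert has, sum_insert has,
      chi_mul_LP h2 _ _ (hx a (mem_insert_self _ _))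
        (Finset.prod_ne_zero_iff.2 fun i hi => hx i (mem_insert_of_mem hi)),
      ih fun i hi => hx i (mem_insert_of_mem hi)]

theorem z2_LP : ∀ x : ZMod 2, x + x = 0 := by decide

theorem hLP (hREP : StREP) (hLPB : StLPB) : StLP := by
  classical
  intro F _ _ h20 f hm hdeg _ P hfac T hT
  obtain ⟨d, hd, hB⟩ := hLPB F h20 f hm hdeg P hfac
  have hfinK : Finite (kp P) := by
    have : Module.Finite F (kp P) := P.2.1.finite_adjoinRoot
    exact Module.finite_of_finite F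
  have h2k : (2 : kp P) ≠ 0 := by
    intro h
    apply h20
    apply (algebraMap F (kp P)).injective
    rw [map_ofNat, map_zero, h]
  refine ⟨chi_LP ((-1 : kp P) ^ ((∑ ψ ∈ T, ψ.natDegree) / 2) * ∏ ψ ∈ T, d ψ), ?_⟩
  intro z hz hom
  have hex : ∀ ψ : (kp P)[X], ψ ∈ facs f P → ∃ (k : ℤ) (s : AdjoinRoot ψ), RepG P ψ z k s :=
    fun ψ hψ => (hREP F f hm P hfac ψ hψ).1 z hz
  choose! k s hks using hex
  have huq : ∀ ψ ∈ facs f P, ∀ (k' : ℤ) (s' : AdjoinRoot ψ), RepG P ψ z k' s' →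
      k' = k ψ ∧ s' = s ψ :=
    fun ψ hψ k' s' h => (hREP F f hm P hfac ψ hψ).2 z k' (k ψ) s' (s ψ) h (hks ψ hψ)
  obtain ⟨ι₀, ι₁, i1, i2, i3, i4, E, u, hE1, hE2, hE3, hE4⟩ := hB T hT z k s (by
    intro ψ hψ
    refine ⟨hks ψ hψ, ?_⟩
    rw [← hom ψ hψ]
    unfold om
    split_ifs with h
    · obtain ⟨e, s', he, hr⟩ := h
      rw [(huq ψ hψ e s' hr).1] at he
      constructor
      · intro h1
        exact absurd he (Int.not_even_iff_odd.2 h1)
      · intro h1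
        exact absurd h1 (by decide)
    · refine ⟨fun _ => rfl, fun _ => ?_⟩
      rw [← Int.not_even_iff_odd]
      exact fun h1 => h ⟨k ψ, s ψ, h1, hks ψ hψ⟩)
  refine ⟨ι₀, ι₁, i1, i2, i3, i4, E, u, hE1, hE2, hE3, ?_⟩
  -- the norms
  have hnorm : ∀ ψ ∈ T, Algebra.norm (kp P) (s ψ) ≠ 0 ∧
      chi_LP (Algebra.norm (kp P) (s ψ)) = ep P ψ z := by
    intro ψ hψ
    have hψf := hT hψ
    obtain ⟨hψm, hψi, -⟩ := (hfac.mem ψ).1 hψf
    have : Fact (Irreducible ψ) := ⟨hψi⟩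
    have hfd : Module.Finite (kp P) (AdjoinRoot ψ) := hψm.finite_adjoinRoot
    have := Fintype.ofFinite (kp P)
    refine ⟨?_, ?_⟩
    · rw [Ne, Algebra.norm_eq_zero_iff]
      exact (hks ψ hψf).1
    · have h1 := (hSqN (kp P) (AdjoinRoot ψ) h2k).1 (s ψ)
      unfold chi_LP ep
      by_cases h2 : IsSquare (s ψ)
      · rw [if_pos (h1.2 h2), if_pos ⟨k ψ, s ψ, h2, hks ψ hψf⟩]
      · rw [if_neg (fun h => h2 (h1.1 h)), if_neg]
        rintro ⟨e, s', hs', hr⟩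
        rw [(huq ψ hψf e s' hr).2] at hs'
        exact h2 hs'
  have h1 : chi_LP ((-1 : kp P) ^ (Fintype.card ι₁ / 2) * u.det) =
      chi_LP ((-1 : kp P) ^ ((∑ ψ ∈ T, ψ.natDegree) / 2) * ∏ ψ ∈ T, d ψ) +
        ∑ ψ ∈ T, ep P ψ z := by
    have e1 : (-1 : kp P) ^ (Fintype.card ι₁ / 2) * u.det =
        ((-1 : kp P) ^ ((∑ ψ ∈ T, ψ.natDegree) / 2) * ∏ ψ ∈ T, d ψ) *
          ∏ ψ ∈ T, Algebra.norm (kp P) (s ψ) := by
      rw [hE3, hE4, Finset.prod_mul_distrib]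
      ring
    rw [e1, chi_mul_LP h2k, chi_prod_LP h2k T _ (fun ψ hψ => (hnorm ψ hψ).1),
      Finset.sum_congr rfl (fun ψ hψ => (hnorm ψ hψ).2)]
    · refine mul_ne_zero (pow_ne_zero _ (neg_ne_zero.2 one_ne_zero))
        (Finset.prod_ne_zero_iff.2 fun ψ hψ => hd ψ (hT hψ))
    · exact Finset.prod_ne_zero_iff.2 fun ψ hψ => (hnorm ψ hψ).1
  rw [← chi_eq_LP, h1]
  constructor
  · intro h
    calc ∑ ψ ∈ T, ep P ψ z = (chi_LP ((-1 : kp P) ^ ((∑ ψ ∈ T, ψ.natDegree) / 2) *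
          ∏ ψ ∈ T, d ψ) + ∑ ψ ∈ T, ep P ψ z) + chi_LP ((-1 : kp P) ^
            ((∑ ψ ∈ T, ψ.natDegree) / 2) * ∏ ψ ∈ T, d ψ) := by
          rw [add_comm (chi_LP _) _, add_assoc, z2_LP, add_zero]
      _ = _ := by rw [h, zero_add]
  · intro h
    rw [h, z2_LP]

end Pool.Agent.Helper9.GTI
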