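import Pool.Agent.Helper9.GTI.St
import Pool.Agent.Helper3.HY.M_Cd

/-!
# GT, module LPA: the diagonal blocks of the form at a good place
-/

set_option autoImplicit false

namespace Pool.Agent.Helper9.GTI

open Polynomial Finset Matrix
open Pool.Agent.Helper54.PT (Prm prm IsAbsP IsAbsInf)
open Pool.Agent.Helper3.HY (fK RR LL kp red TwAt twGroup baseChange co tau Kfil Gm Ix IsFil InA Bf)
open Pool.Agent.Helper3.GT (Gd Bd UnitAt EvP facs RepG om ep SelS)
open Pool.Agent.Helper9.HYI (IsRes tL)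

variable {F : Type} [Field F]

theorem clear_LPA {f : F[X][X]} (z : LL f) : ∃ (d : F[X]) (r : RR f), d ≠ 0 ∧
    algebraMap (RatFunc F) (LL f) (algebraMap F[X] (RatFunc F) d) * z =
      algebraMap (RR f) (LL f) r := by
  obtain ⟨p, rfl⟩ := AdjoinRoot.mk_surjective z
  obtain ⟨b, hb⟩ := IsLocalization.integerNormalization_map_to_map (nonZeroDivisors F[X]) p
  refine ⟨b.1, AdjoinRoot.mk f (IsLocalization.integerNormalization (nonZeroDivisors F[X]) p),
    nonZeroDivisors.ne_zero b.2, ?_⟩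
  rw [Pool.Agent.Helper3.HY.algebraMap_mk, hb, ← Algebra.smul_def, AdjoinRoot.smul_mk]
  congr 1
  exact algebraMap_smul (RatFunc F) b.1 p

theorem tau_int_LPA {f : F[X][X]} (hm : f.Monic) (r : RR f) :
    ∃ c : F[X], tL hm (algebraMap (RR f) (LL f) r) = algebraMap F[X] (RatFunc F) c :=
  ⟨_, Pool.Agent.Helper3.HY.co_algebraMap hm _ r⟩

theorem tau_smul_LPA {f : F[X][X]} (hm : f.Monic) (x : RatFunc F) (y : LL f) :
    tL hm (algebraMap (RatFunc F) (LL f) x * y) = x * tL hm y := by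
  rw [← Algebra.smul_def, map_smul, smul_eq_mul]

theorem small_LPA {f : F[X][X]} (hm : f.Monic) (P : Prm F) (z : LL f) :
    ∃ M : ℕ, ∀ (N : ℕ) (k : ℤ), (1 : ℤ) ≤ N - k - M → ∀ r : RR f,
      ModP P (pK P ^ (-k) * tL hm (z * algebraMap (RR f) (LL f)
        (algebraMap F[X] (RR f) (P.1 ^ N) * r))) 0 := by
  obtain ⟨d, r₀, hd, h₀⟩ := clear_LPA z
  have hP : Prime P.1 := P.2.2.prime
  obtain ⟨M, d₀, hdd, hd₀⟩ : ∃ (M : ℕ) (d₀ : F[X]), ¬ P.1 ∣ d₀ ∧ d = P.1 ^ M * d₀ := by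
    obtain ⟨c, hc, hc'⟩ := (FiniteMultiplicity.of_prime_left hP hd).exists_eq_pow_mul_and_not_dvd
    exact ⟨_, c, hc', hc⟩
  refine ⟨M, fun N k hk r => ?_⟩
  obtain ⟨c, hc⟩ := tau_int_LPA hm (r₀ * r)
  obtain ⟨m, hm'⟩ : ∃ m : ℕ, (N : ℤ) - k - M = m + 1 := ⟨(N - k - M - 1).toNat, by omega⟩
  refine ⟨P.1 ^ (m + 1) * c, d₀, hdd, ?_, ?_⟩
  · have hpK : pK P ≠ 0 := by
      rw [Ne, map_eq_zero_iff _ (RatFunc.algebraMap_injective F)]
      exact hP.ne_zero
    have h1 : algebraMap F[X] (RatFunc F) d *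
        tL hm (z * algebraMap (RR f) (LL f) r) = algebraMap F[X] (RatFunc F) c := by
      rw [← hc, ← tau_smul_LPA, ← mul_assoc, h₀, RingHom.map_mul]
    have h2 : tL hm (z * algebraMap (RR f) (LL f) (algebraMap F[X] (RR f) (P.1 ^ N) * r)) =
        pK P ^ (N : ℤ) * tL hm (z * algebraMap (RR f) (LL f) r) := by
      rw [← tau_smul_LPA]
      congr 1
      rw [map_mul, ← IsScalarTower.algebraMap_apply F[X] (RR f) (LL f),
        IsScalarTower.algebraMap_apply F[X] (RatFunc F) (LL f), map_pow, zpow_natCast]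
      ring
    have h3 : pK P ^ (-k) * pK P ^ (N : ℤ) = pK P ^ ((m : ℤ) + 1) * pK P ^ (M : ℤ) := by
      rw [← zpow_add₀ hpK, ← zpow_add₀ hpK]
      congr 1
      omega
    have h4 : pK P ^ ((m : ℤ) + 1) = pK P ^ (m + 1) := by
      rw [← zpow_natCast]; push_cast; rfl
    have h5 : algebraMap F[X] (RatFunc F) (P.1 ^ (m + 1) * c) = pK P ^ (m + 1) *
        (pK P ^ M * algebraMap F[X] (RatFunc F) d₀ *
          tL hm (z * algebraMap (RR f) (LL f) r)) := by
      rw [RingHom.map_mul, RingHom.map_pow, ← h1, hd₀, RingHom.map_mul, RingHom.map_pow]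
    rw [h2, ← mul_assoc, h3, h5, h4, zpow_natCast]
    ring
  · rw [map_mul, map_pow]
    have : red P P.1 = 0 := AdjoinRoot.mk_self
    rw [this, pow_succ, mul_zero, zero_mul, zero_mul]

theorem hLPA (hGA : StGA) (hIDU : StIDU) : StLPA := by
  intro F _ f hm hn _ P hfac μ hμ z K
  obtain ⟨M, hM⟩ := small_LPA hm P z
  have A := hGA F P
  refine ⟨M + K + 1, fun N hN e he => ⟨?_, ?_⟩⟩
  · intro ψ hψ k s hk hR a
    have hNk : (1 : ℤ) ≤ N - k - M := by
      have := (abs_le.1 hk).2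
      omega
    obtain ⟨hs, p, a₀, ha₀, hp, hz⟩ := hR
    obtain ⟨b, ρ, hb, hρ⟩ := hIDU F f hm P hfac N e he ψ hψ a₀ ha₀
    have hb1 := hb (by omega)
    have hpK : pK P ≠ 0 := by
      rw [Ne, map_eq_zero_iff _ (RatFunc.algebraMap_injective F)]
      exact P.2.2.ne_zero
    have h1 : z * algebraMap (RR f) (LL f) (AdjoinRoot.mk f (e ψ * e ψ * a)) =
        algebraMap (RatFunc F) (LL f) (pK P ^ k) *
          algebraMap (RR f) (LL f) (AdjoinRoot.mk f (p * b * (e ψ * e ψ * a))) -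
        z * algebraMap (RR f) (LL f) (algebraMap F[X] (RR f) (P.1 ^ N) *
          (ρ * AdjoinRoot.mk f (e ψ * a))) := by
      rw [← mul_assoc (algebraMap F[X] (RR f) (P.1 ^ N)), ← hρ]
      have e1 : AdjoinRoot.mk f ((a₀ * b - 1) * e ψ) * AdjoinRoot.mk f (e ψ * a) =
          AdjoinRoot.mk f a₀ * AdjoinRoot.mk f (b * (e ψ * e ψ * a)) -
            AdjoinRoot.mk f (e ψ * e ψ * a) := by
        rw [← map_mul, ← map_mul, ← map_sub]
        congr 1
        ring
      have e2 : AdjoinRoot.mk f (p * b * (e ψ * e ψ * a)) =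
          AdjoinRoot.mk f p * AdjoinRoot.mk f (b * (e ψ * e ψ * a)) := by
        rw [← map_mul, mul_assoc]
      rw [e1, e2, map_sub (algebraMap (RR f) (LL f)),
        map_mul (algebraMap (RR f) (LL f)) (AdjoinRoot.mk f p),
        map_mul (algebraMap (RR f) (LL f)) (AdjoinRoot.mk f a₀)]
      linear_combination algebraMap (RR f) (LL f) (AdjoinRoot.mk f (b * (e ψ * e ψ * a))) * hz
    have h2 : pK P ^ (-k) * tL hm (z * algebraMap (RR f) (LL f)
        (AdjoinRoot.mk f (e ψ * e ψ * a))) =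
        tL hm (algebraMap (RR f) (LL f) (AdjoinRoot.mk f (p * b * (e ψ * e ψ * a)))) +
        -(pK P ^ (-k) * tL hm (z * algebraMap (RR f) (LL f) (algebraMap F[X] (RR f) (P.1 ^ N) *
          (ρ * AdjoinRoot.mk f (e ψ * a))))) := by
      rw [h1, map_sub, tau_smul_LPA, mul_sub, ← mul_assoc, ← zpow_add₀ hpK, neg_add_cancel,
        zpow_zero, one_mul, sub_eq_add_neg]
    have h3 := hμ.comp ψ hψ (p * b * (e ψ * e ψ * a)) (by
      intro φ hφ hne
      rw [Polynomial.map_mul, Polynomial.map_mul, Polynomial.map_mul, Polynomial.map_mul, map_mul,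
        map_mul, map_mul, map_mul, he.zero ψ hψ φ hφ hne]
      ring)
    have h4 : AdjoinRoot.mk ψ ((p * b * (e ψ * e ψ * a)).map (red P)) =
        s * AdjoinRoot.mk ψ (a.map (red P)) := by
      rw [Polynomial.map_mul, map_mul] at hb1
      rw [Polynomial.map_mul, Polynomial.map_mul, Polynomial.map_mul, Polynomial.map_mul, map_mul,
        map_mul, map_mul, map_mul, he.one ψ hψ, hp, mul_assoc s, hb1]
      ring
    rw [h4] at h3
    have h5 := A.add _ _ _ _ h3 (A.neg _ _ (hM N k hNk (ρ * AdjoinRoot.mk f (e ψ * a))))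
    rw [neg_zero, add_zero] at h5
    rw [h2]
    exact h5
  · intro ψ hψ φ hφ hne k hk a
    have hNk : (1 : ℤ) ≤ N - k - M := by
      have := (abs_le.1 hk).2
      omega
    obtain ⟨r, hr⟩ := he.orth ψ hψ φ hφ hne
    have h1 := hM N k hNk (r * AdjoinRoot.mk f a)
    rw [← mul_assoc, ← hr, ← map_mul] at h1
    exact h1

end Pool.Agent.Helper9.GTI
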