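import Pool.Agent.Helper9.GTI.St
import Pool.Agent.Helper9.HYI.SqN

/-!
# GT, part ISOG: (LPB) the adapted basis at `P`
-/

set_option autoImplicit false

namespace Pool.Agent.Helper9.GTI

open Polynomial Finset Matrix
open Pool.Agent.Helper54.PT (Prm)
open Pool.Agent.Helper3.HY (fK RR LL kp red tau Bf)
open Pool.Agent.Helper3.GT (facs RepG)
open Pool.Agent.Helper9.HYI (tL)

theorem det_bd_LPB {o : Type} [Fintype o] [DecidableEq o] {m' : o → Type} [∀ i, Fintype (m' i)]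
    [∀ i, DecidableEq (m' i)] {R : Type} [CommRing R] (M : ∀ i, Matrix (m' i) (m' i) R) :
    (blockDiagonal' M).det = ∏ i, (M i).det := by
  classical
  let _ : LinearOrder o := LinearOrder.lift' (Fintype.equivFin o) (Fintype.equivFin o).injective
  have h := (blockTriangular_blockDiagonal' M).det_fintype
  rw [h]
  refine Finset.prod_congr rfl fun k _ => ?_
  rw [← Matrix.det_reindex_self (Equiv.sigmaSubtype k)]
  congr 1
  ext i j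
  simp only [reindex_apply, submatrix_apply, toSquareBlock, toSquareBlockProp]
  exact blockDiagonal'_apply_eq M k i j

/-- The matrix of the form `μ_ψ(s x y)`. -/
noncomputable def mm_LPB {F : Type} [Field F] (P : Prm F)
    (μ : ∀ ψ : (kp P)[X], AdjoinRoot ψ →ₗ[kp P] kp P) (ψ : (kp P)[X]) (s : AdjoinRoot ψ) :
    Matrix (Fin ψ.natDegree) (Fin ψ.natDegree) (kp P) :=
  Matrix.of fun i j => μ ψ (s * (AdjoinRoot.root ψ ^ (i : ℕ) * AdjoinRoot.root ψ ^ (j : ℕ)))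

/-- The discriminant. -/
noncomputable def dd_LPB {F : Type} [Field F] (P : Prm F)
    (μ : ∀ ψ : (kp P)[X], AdjoinRoot ψ →ₗ[kp P] kp P) (ψ : (kp P)[X]) : kp P :=
  (Matrix.of fun i j : Fin ψ.natDegree =>
    μ ψ (AdjoinRoot.root ψ ^ (i : ℕ) * AdjoinRoot.root ψ ^ (j : ℕ))).det

theorem det_LPB {F : Type} [Field F] (P : Prm F)
    (μ : ∀ ψ : (kp P)[X], AdjoinRoot ψ →ₗ[kp P] kp P) (ψ : (kp P)[X]) (hψ : ψ.Monic)
    (hirr : Irreducible ψ) (s : AdjoinRoot ψ) :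
    (mm_LPB P μ ψ s).det = Algebra.norm (kp P) s * dd_LPB P μ ψ := by
  haveI := Fact.mk hirr
  have hb : ∀ i, AdjoinRoot.powerBasisAux' hψ i = AdjoinRoot.root ψ ^ (i : ℕ) :=
    fun i => (AdjoinRoot.powerBasis' hψ).basis_eq_pow i
  have := HYI.det_SqN ψ.natDegree (AdjoinRoot.powerBasisAux' hψ) (μ ψ) s
  simp only [hb] at this
  exact this

theorem dd_ne_LPB {F : Type} [Field F] (P : Prm F)
    (μ : ∀ ψ : (kp P)[X], AdjoinRoot ψ →ₗ[kp P] kp P) (ψ : (kp P)[X]) (hψ : ψ.Monic)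
    (hirr : Irreducible ψ) (hμ : μ ψ ≠ 0) : dd_LPB P μ ψ ≠ 0 := by
  haveI := Fact.mk hirr
  have hb : ∀ i, AdjoinRoot.powerBasisAux' hψ i = AdjoinRoot.root ψ ^ (i : ℕ) :=
    fun i => (AdjoinRoot.powerBasis' hψ).basis_eq_pow i
  have := HYI.det_ne_SqN ψ.natDegree (AdjoinRoot.powerBasisAux' hψ) (μ ψ) hμ
  simp only [hb] at this
  exact this

theorem norm_ne_LPB {F : Type} [Field F] (P : Prm F) (ψ : (kp P)[X]) (hψ : ψ.Monic)
    (hirr : Irreducible ψ) (s : AdjoinRoot ψ) (hs : s ≠ 0) : Algebra.norm (kp P) s ≠ 0 := by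
  haveI := Fact.mk hirr
  haveI : Module.Finite (kp P) (AdjoinRoot ψ) := hψ.finite_adjoinRoot
  exact Algebra.norm_ne_zero_iff.2 hs

theorem alg_LPB {K L R : Type} [Field K] [CommRing L] [Algebra K L] [CommRing R] (φ : R →+* L)
    (z : L) (a b : K) (x y : R) :
    z * (algebraMap K L a * φ x) * (algebraMap K L b * φ y) = (a * b) • (z * φ (x * y)) := by
  rw [Algebra.smul_def, map_mul, map_mul]
  ring

theorem mk_LPB {R : Type} [CommRing R] (f a b : R[X]) (n m : ℕ) :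
    AdjoinRoot.mk f (a * X ^ n) * AdjoinRoot.mk f (b * X ^ m) =
      AdjoinRoot.mk f (a * b * X ^ (n + m)) := by
  rw [← map_mul]
  congr 1
  ring

theorem hB_LPB {F : Type} [Field F] {f : F[X][X]} (hm : f.Monic) {P : Prm F} (z : LL f)
    (hpK : pK P ≠ 0) (e : (kp P)[X] → F[X][X]) (k : (kp P)[X] → ℤ) (ψ φ : (kp P)[X]) (n m : ℕ) :
    Bf hm z (algebraMap (RatFunc F) (LL f) (pK P ^ (-(k ψ / 2))) *
      algebraMap (RR f) (LL f) (AdjoinRoot.mk f (e ψ * X ^ n)))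
      (algebraMap (RatFunc F) (LL f) (pK P ^ (-(k φ / 2))) *
      algebraMap (RR f) (LL f) (AdjoinRoot.mk f (e φ * X ^ m))) =
      pK P ^ (-(k ψ / 2 + k φ / 2)) *
      tL hm (z * algebraMap (RR f) (LL f) (AdjoinRoot.mk f (e ψ * e φ * X ^ (n + m)))) := by
  have h1 : Bf hm z (algebraMap (RatFunc F) (LL f) (pK P ^ (-(k ψ / 2))) *
      algebraMap (RR f) (LL f) (AdjoinRoot.mk f (e ψ * X ^ n)))
      (algebraMap (RatFunc F) (LL f) (pK P ^ (-(k φ / 2))) *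
      algebraMap (RR f) (LL f) (AdjoinRoot.mk f (e φ * X ^ m))) =
      tL hm (z * (algebraMap (RatFunc F) (LL f) (pK P ^ (-(k ψ / 2))) *
      algebraMap (RR f) (LL f) (AdjoinRoot.mk f (e ψ * X ^ n))) *
      (algebraMap (RatFunc F) (LL f) (pK P ^ (-(k φ / 2))) *
      algebraMap (RR f) (LL f) (AdjoinRoot.mk f (e φ * X ^ m)))) := rfl
  rw [h1, alg_LPB (algebraMap (RR f) (LL f)) z, mk_LPB, map_smul, smul_eq_mul, ← zpow_add₀ hpK,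
    neg_add]

theorem hLPB (hGA : StGA) (hMU : StMU) (hIDEM : StIDEM) (hLPA : StLPA) : StLPB := by
  intro F _ _ h2 f hm h1 _ P hfac
  classical
  obtain ⟨μ, hμ⟩ := hMU F f hm h1 P hfac
  have ar := hGA F P
  have hmem : ∀ ψ ∈ facs f P, ψ.Monic ∧ Irreducible ψ := fun ψ h =>
    ⟨((hfac.mem ψ).1 h).1, ((hfac.mem ψ).1 h).2.1⟩
  refine ⟨dd_LPB P μ, fun ψ hψ => dd_ne_LPB P μ ψ (hmem ψ hψ).1 (hmem ψ hψ).2 (hμ.ne ψ hψ), ?_⟩
  intro T hT z k s hks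
  -- the constants
  set S : ℕ := ∑ ψ ∈ facs f P, (k ψ).natAbs with hS
  set K : ℕ := 2 * S + 3 with hK
  obtain ⟨N₀, hN⟩ := hLPA F f hm h1 P hfac μ hμ z K
  obtain ⟨e, he⟩ := hIDEM F f hm P hfac N₀
  obtain ⟨hA, hAo⟩ := hN N₀ le_rfl e he
  have hkS : ∀ ψ ∈ facs f P, -(S : ℤ) ≤ k ψ ∧ k ψ ≤ S := by
    intro ψ hψ
    have h3 : (k ψ).natAbs ≤ S := single_le_sum (f := fun ψ => (k ψ).natAbs)
      (fun _ _ => Nat.zero_le _) hψ
    omega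
  have hpK : pK P ≠ 0 := by
    rw [Ne, FaithfulSMul.algebraMap_eq_zero_iff]
    exact P.2.1.ne_zero
  have hpK0 : ModP P (pK P) 0 := by
    have := ar.ofA P.1
    have h0 : red P P.1 = 0 := AdjoinRoot.mk_self
    rwa [h0] at this
  let vec : (kp P)[X] → ℕ → LL f := fun ψ n =>
    algebraMap (RatFunc F) (LL f) (pK P ^ (-(k ψ / 2))) *
      algebraMap (RR f) (LL f) (AdjoinRoot.mk f (e ψ * X ^ n))
  have hB : ∀ ψ φ n m, Bf hm z (vec ψ n) (vec φ m) = pK P ^ (-(k ψ / 2 + k φ / 2)) *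
      tL hm (z * algebraMap (RR f) (LL f) (AdjoinRoot.mk f (e ψ * e φ * X ^ (n + m)))) := by
    intro ψ φ n m
    exact hB_LPB hm z hpK e k ψ φ n m
  have hX : ∀ (ψ : (kp P)[X]) (n m : ℕ), AdjoinRoot.mk ψ ((X ^ (n + m) : F[X][X]).map (red P)) =
      AdjoinRoot.root ψ ^ n * AdjoinRoot.root ψ ^ m := by
    intro ψ n m
    rw [Polynomial.map_pow, map_X, map_pow, AdjoinRoot.mk_X, pow_add]
  have hp1 : ∀ (a : ℤ) (x : RatFunc F), (pK P)⁻¹ * (pK P ^ (-a) * x) = pK P ^ (-(a + 1)) * x := by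
    intro a x
    rw [← mul_assoc]
    congr 1
    rw [← _root_.zpow_neg_one, ← zpow_add₀ hpK]
    congr 1
    ring
  have hne : ∀ ψ ∈ facs f P, ∀ φ ∈ facs f P, φ ≠ ψ → ∀ n m,
      ModP P (Bf hm z (vec ψ n) (vec φ m)) 0 ∧
        ModP P ((pK P)⁻¹ * Bf hm z (vec ψ n) (vec φ m)) 0 := by
    intro ψ hψ φ hφ hn n m
    have h3 := hkS ψ hψ
    have h4 := hkS φ hφ
    rw [hB, hp1]
    refine ⟨hAo ψ hψ φ hφ hn _ ?_ _, hAo ψ hψ φ hφ hn _ ?_ _⟩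
    · rw [abs_le]; constructor <;> (rw [hK]; push_cast; omega)
    · rw [abs_le]; constructor <;> (rw [hK]; push_cast; omega)
  have hev : ∀ ψ ∈ facs f P, ψ ∉ T → ∀ n m,
      ModP P (Bf hm z (vec ψ n) (vec ψ m))
        (μ ψ (s ψ * (AdjoinRoot.root ψ ^ n * AdjoinRoot.root ψ ^ m))) := by
    intro ψ hψ hψT n m
    have h3 := hkS ψ hψ
    have h5 : ¬ Odd (k ψ) := fun h => hψT ((hks ψ hψ).2.1 h)
    rw [Int.not_odd_iff_even] at h5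
    obtain ⟨c, hc⟩ := h5
    have h6 : k ψ / 2 + k ψ / 2 = k ψ := by omega
    rw [hB, h6, ← hX]
    exact hA ψ hψ _ _ (by rw [abs_le]; constructor <;> (rw [hK]; push_cast; omega))
      (hks ψ hψ).1 _
  have hod : ∀ ψ ∈ T, ∀ n m,
      ModP P ((pK P)⁻¹ * Bf hm z (vec ψ n) (vec ψ m))
        (μ ψ (s ψ * (AdjoinRoot.root ψ ^ n * AdjoinRoot.root ψ ^ m))) ∧
      ModP P (Bf hm z (vec ψ n) (vec ψ m)) 0 := by
    intro ψ hψT n m
    have hψ := hT hψT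
    have h3 := hkS ψ hψ
    have h5 : Odd (k ψ) := (hks ψ hψ).2.2 hψT
    obtain ⟨c, hc⟩ := h5
    have h6 : k ψ / 2 + k ψ / 2 + 1 = k ψ := by omega
    have h7 : ModP P ((pK P)⁻¹ * Bf hm z (vec ψ n) (vec ψ m))
        (μ ψ (s ψ * (AdjoinRoot.root ψ ^ n * AdjoinRoot.root ψ ^ m))) := by
      rw [hB, hp1, h6, ← hX]
      exact hA ψ hψ _ _ (by rw [abs_le]; constructor <;> (rw [hK]; push_cast; omega))
        (hks ψ hψ).1 _
    refine ⟨h7, ?_⟩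
    have h8 := ar.mul _ _ _ _ hpK0 h7
    rwa [zero_mul, ← mul_assoc, mul_inv_cancel₀ hpK, one_mul] at h8
  -- the types
  let ι₀ : Type := Σ ψ : {ψ // ψ ∈ facs f P \ T}, Fin ψ.1.natDegree
  let ι₁ : Type := Σ ψ : {ψ // ψ ∈ T}, Fin ψ.1.natDegree
  let E : ι₀ ⊕ ι₁ → LL f := Sum.elim (fun a => vec a.1.1 a.2) (fun a => vec a.1.1 a.2)
  let M₀ : ∀ ψ : {ψ // ψ ∈ facs f P \ T}, Matrix (Fin ψ.1.natDegree) (Fin ψ.1.natDegree) (kp P) :=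
    fun ψ => mm_LPB P μ ψ.1 (s ψ.1)
  let M₁ : ∀ ψ : {ψ // ψ ∈ T}, Matrix (Fin ψ.1.natDegree) (Fin ψ.1.natDegree) (kp P) :=
    fun ψ => mm_LPB P μ ψ.1 (s ψ.1)
  let u₀ : Matrix ι₀ ι₀ (kp P) := blockDiagonal' M₀
  let u : Matrix ι₁ ι₁ (kp P) := blockDiagonal' M₁
  have hu₀ : ∀ a b : ι₀, ModP P (Bf hm z (E (Sum.inl a)) (E (Sum.inl b))) (u₀ a b) := by
    rintro ⟨ψ, i⟩ ⟨φ, j⟩
    change ModP P (Bf hm z (vec ψ.1 i) (vec φ.1 j)) _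
    have hψ := mem_sdiff.1 ψ.2
    have hφ := mem_sdiff.1 φ.2
    by_cases h : ψ = φ
    · subst h
      have : u₀ ⟨ψ, i⟩ ⟨ψ, j⟩ = M₀ ψ i j := blockDiagonal'_apply_eq M₀ ψ i j
      rw [this]
      exact hev ψ.1 hψ.1 hψ.2 i j
    · have : u₀ ⟨ψ, i⟩ ⟨φ, j⟩ = 0 := blockDiagonal'_apply_ne M₀ i j h
      rw [this]
      exact (hne ψ.1 hψ.1 φ.1 hφ.1 (fun h' => h (Subtype.ext h'.symm)) i j).1
  have hu₁ : ∀ a b : ι₁, ModP P ((pK P)⁻¹ * Bf hm z (E (Sum.inr a)) (E (Sum.inr b))) (u a b) ∧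
      ModP P (Bf hm z (E (Sum.inr a)) (E (Sum.inr b))) 0 := by
    rintro ⟨ψ, i⟩ ⟨φ, j⟩
    change ModP P ((pK P)⁻¹ * Bf hm z (vec ψ.1 i) (vec φ.1 j)) _ ∧
      ModP P (Bf hm z (vec ψ.1 i) (vec φ.1 j)) 0
    by_cases h : ψ = φ
    · subst h
      have : u ⟨ψ, i⟩ ⟨ψ, j⟩ = M₁ ψ i j := blockDiagonal'_apply_eq M₁ ψ i j
      rw [this]
      exact hod ψ.1 ψ.2 i j
    · have : u ⟨ψ, i⟩ ⟨φ, j⟩ = 0 := blockDiagonal'_apply_ne M₁ i j h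
      rw [this]
      have := hne ψ.1 (hT ψ.2) φ.1 (hT φ.2) (fun h' => h (Subtype.ext h'.symm)) i j
      exact ⟨this.2, this.1⟩
  have hmix : ∀ (a : ι₀) (b : ι₁), (ModP P (Bf hm z (E (Sum.inl a)) (E (Sum.inr b))) 0 ∧
      ModP P (Bf hm z (E (Sum.inr b)) (E (Sum.inl a))) 0) ∧
      ModP P ((pK P)⁻¹ * Bf hm z (E (Sum.inr b)) (E (Sum.inl a))) 0 := by
    rintro ⟨ψ, i⟩ ⟨φ, j⟩
    change (ModP P (Bf hm z (vec ψ.1 i) (vec φ.1 j)) 0 ∧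
      ModP P (Bf hm z (vec φ.1 j) (vec ψ.1 i)) 0) ∧
      ModP P ((pK P)⁻¹ * Bf hm z (vec φ.1 j) (vec ψ.1 i)) 0
    have hψ := mem_sdiff.1 ψ.2
    have hn : φ.1 ≠ ψ.1 := fun h => hψ.2 (h ▸ φ.2)
    have h3 := hne ψ.1 hψ.1 φ.1 (hT φ.2) hn i j
    have h4 := hne φ.1 (hT φ.2) ψ.1 hψ.1 hn.symm j i
    exact ⟨⟨h3.1, h4.1⟩, h4.2⟩
  have hdu₀ : u₀.det = ∏ ψ ∈ facs f P \ T, (Algebra.norm (kp P) (s ψ) * dd_LPB P μ ψ) := by
    rw [← prod_coe_sort]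
    change (blockDiagonal' M₀).det = _
    rw [det_bd_LPB]
    refine prod_congr rfl fun ψ _ => ?_
    have hψ := (mem_sdiff.1 ψ.2).1
    exact det_LPB P μ ψ.1 (hmem _ hψ).1 (hmem _ hψ).2 (s ψ.1)
  have hdu : u.det = ∏ ψ ∈ T, (Algebra.norm (kp P) (s ψ) * dd_LPB P μ ψ) := by
    rw [← prod_coe_sort]
    change (blockDiagonal' M₁).det = _
    rw [det_bd_LPB]
    refine prod_congr rfl fun ψ _ => ?_
    have hψ := hT ψ.2
    exact det_LPB P μ ψ.1 (hmem _ hψ).1 (hmem _ hψ).2 (s ψ.1)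
  have hnn : ∀ ψ ∈ facs f P, Algebra.norm (kp P) (s ψ) * dd_LPB P μ ψ ≠ 0 := by
    intro ψ hψ
    exact mul_ne_zero (norm_ne_LPB P ψ (hmem ψ hψ).1 (hmem ψ hψ).2 _ (hks ψ hψ).1.1)
      (dd_ne_LPB P μ ψ (hmem ψ hψ).1 (hmem ψ hψ).2 (hμ.ne ψ hψ))
  have hcard1 : Fintype.card ι₁ = ∑ ψ ∈ T, ψ.natDegree := by
    rw [← sum_coe_sort, Fintype.card_sigma]
    exact sum_congr rfl fun ψ _ => Fintype.card_fin _
  have hcard0 : Fintype.card ι₀ = ∑ ψ ∈ facs f P \ T, ψ.natDegree := by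
    rw [← sum_coe_sort, Fintype.card_sigma]
    exact sum_congr rfl fun ψ _ => Fintype.card_fin _
  refine ⟨ι₀, ι₁, inferInstance, inferInstance, inferInstance, inferInstance, E, u,
    ⟨?_, ?_, ?_, ?_, ?_⟩, ?_, hcard1, hdu⟩
  · rintro (a | a) (b | b)
    · exact (ar.reg_iff _).2 ⟨_, hu₀ a b⟩
    · exact (ar.reg_iff _).2 ⟨_, (hmix a b).1.1⟩
    · exact (ar.reg_iff _).2 ⟨_, (hmix b a).1.2⟩
    · exact (ar.reg_iff _).2 ⟨_, (hu₁ a b).2⟩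
  · refine ⟨u₀.det, ?_, ar.det ι₀ _ u₀ fun a b => hu₀ a b⟩
    rw [hdu₀]
    exact prod_ne_zero_iff.2 fun ψ hψ => hnn ψ (mem_sdiff.1 hψ).1
  · rintro a (b | b)
    · exact (ar.reg_iff _).2 ⟨_, (hmix b a).2⟩
    · exact (ar.reg_iff _).2 ⟨_, (hu₁ a b).1⟩
  · exact fun a b => (hu₁ a b).1
  · rw [hdu]
    exact prod_ne_zero_iff.2 fun ψ hψ => hnn ψ (hT hψ)
  · rw [Fintype.card_sum, hcard0, hcard1, sum_sdiff hT,
      ← natDegree_prod_of_monic _ _ fun ψ hψ => (hmem ψ hψ).1, hfac.prod, hm.natDegree_map]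

end Pool.Agent.Helper9.GTI
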