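import Pool.Agent.Helper9.GTI.St
import Pool.Agent.Helper3.HY.Base

/-!
# GT, part ISOG, module MU: the components of the functional `τ` modulo `P`
-/

set_option autoImplicit false

namespace Pool.Agent.Helper9.GTI

open Polynomial Finset Matrix
open Pool.Agent.Helper54.PT (Prm prm IsAbsP IsAbsInf)
open Pool.Agent.Helper3.HY (fK RR LL kp red TwAt twGroup baseChange co tau Kfil Gm Ix IsFil InA Bf)
open Pool.Agent.Helper3.GT (Gd Bd UnitAt EvP facs RepG om ep SelS)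
open Pool.Agent.Helper9.HYI (IsRes tL)

/-- Distinct monic irreducible polynomials are coprime. -/
private lemma coprime_MU {k : Type} [Field k] {a b : k[X]} (ha : a.Monic) (ha' : Irreducible a)
    (hb : b.Monic) (hb' : Irreducible b) (hab : a ≠ b) : IsCoprime a b := by
  rw [ha'.coprime_iff_not_dvd]
  intro hd
  have h1 : Associated a b := (hb'.dvd_iff.1 hd).resolve_left ha'.not_isUnit |>.symm
  exact hab (eq_of_monic_of_associated ha hb h1)

/-- Reduction of `τ`. -/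
private lemma tau_MU {F : Type} [Field F] {f : F[X][X]} (hm : f.Monic) (P : Prm F) (a : F[X][X]) :
    ModP P (tL hm (algebraMap (RR f) (LL f) (AdjoinRoot.mk f a)))
      (tau (hm.map (red P)) (AdjoinRoot.mk (f.map (red P)) (a.map (red P)))) := by
  have h1 : tL hm (algebraMap (RR f) (LL f) (AdjoinRoot.mk f a)) =
      algebraMap F[X] (RatFunc F) ((a %ₘ f).coeff (f.natDegree - 1)) := by
    rw [tL, tau, Pool.Agent.Helper3.HY.co_algebraMap hm, Pool.Agent.Helper3.HY.co_mk,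
      hm.natDegree_map]
  have h2 : tau (hm.map (red P)) (AdjoinRoot.mk (f.map (red P)) (a.map (red P))) =
      red P ((a %ₘ f).coeff (f.natDegree - 1)) := by
    rw [tau, Pool.Agent.Helper3.HY.co_mk, ← map_modByMonic _ hm, coeff_map, hm.natDegree_map]
  refine ⟨(a %ₘ f).coeff (f.natDegree - 1), 1, fun h => P.2.2.not_isUnit (isUnit_of_dvd_one h),
    ?_, ?_⟩
  · rw [h1, map_one, mul_one]
  · rw [h2, map_one, mul_one]

/-- The elements of the Chinese remainder theorem. -/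
private lemma crt_MU {F : Type} [Field F] {f : F[X][X]} {P : Prm F} (hF : FacOK f P)
    (ψ : (kp P)[X]) (hψ : ψ ∈ facs f P) : ∃ c : (kp P)[X], ψ ∣ c - 1 ∧
      ∀ φ ∈ facs f P, φ ≠ ψ → φ ∣ c := by
  classical
  have hψ' := (hF.mem ψ).1 hψ
  have h1 : IsCoprime ψ (∏ φ ∈ (facs f P).erase ψ, φ) := by
    refine IsCoprime.prod_right fun φ hφ => ?_
    have hφ' := (hF.mem φ).1 (Finset.mem_of_mem_erase hφ)
    exact coprime_MU hψ'.1 hψ'.2.1 hφ'.1 hφ'.2.1 (Finset.ne_of_mem_erase hφ).symm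
  obtain ⟨a, b, hab⟩ := h1
  refine ⟨b * ∏ φ ∈ (facs f P).erase ψ, φ, ⟨-a, ?_⟩, fun φ hφ hne => ?_⟩
  · linear_combination hab
  · exact (Finset.dvd_prod_of_mem _ (Finset.mem_erase.2 ⟨hne, hφ⟩)).mul_left b

/-- Divisibility by the product of the factors. -/
private lemma dvd_MU {F : Type} [Field F] {f : F[X][X]} {P : Prm F} (hF : FacOK f P)
    (x : (kp P)[X]) (h : ∀ φ ∈ facs f P, φ ∣ x) : f.map (red P) ∣ x := by
  rw [← hF.prod]
  refine Finset.prod_dvd_of_coprime (fun a ha b hb hab => ?_) h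
  have ha' := (hF.mem a).1 ha
  have hb' := (hF.mem b).1 hb
  exact coprime_MU ha'.1 ha'.2.1 hb'.1 hb'.2.1 hab

theorem hMU (hTND : StTND) : StMU := by
  classical
  intro F _ f hm hdeg P hF
  choose! c hc1 hc2 using fun ψ hψ => crt_MU hF ψ hψ
  have key : ∀ ψ ∈ facs f P, ∀ (hψ : ψ.Monic) (b : (kp P)[X]),
      (∀ φ ∈ facs f P, φ ≠ ψ → φ ∣ b ∨ True) →
      ∃ q : (kp P)[X], b - AdjoinRoot.modByMonicHom hψ (AdjoinRoot.mk ψ b) = ψ * q := by
    intro ψ _ hψ b _
    rw [AdjoinRoot.modByMonicHom_mk]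
    refine ⟨b /ₘ ψ, ?_⟩
    rw [sub_eq_iff_eq_add, add_comm]
    exact (modByMonic_add_div b ψ).symm
  let μ : ∀ ψ : (kp P)[X], AdjoinRoot ψ →ₗ[kp P] kp P := fun ψ =>
    if h : ψ.Monic then
      (tau (hm.map (red P))) ∘ₗ
        (AdjoinRoot.mkₐ (f.map (red P))).toLinearMap ∘ₗ
          (LinearMap.mulLeft (kp P) (c ψ)) ∘ₗ AdjoinRoot.modByMonicHom h
    else 0
  have hμ : ∀ ψ : (kp P)[X], ∀ h : ψ.Monic, ∀ y, μ ψ y =
      tau (hm.map (red P)) (AdjoinRoot.mk (f.map (red P))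
        (c ψ * AdjoinRoot.modByMonicHom h y)) := by
    intro ψ h y
    simp only [μ, dif_pos h]
    rfl
  refine ⟨μ, ⟨fun ψ hψ h0 => ?_, fun ψ hψ a ha => ?_⟩⟩
  · have hψ' := (hF.mem ψ).1 hψ
    have h1 : AdjoinRoot.mk (f.map (red P)) (c ψ) = 0 := by
      refine hTND (kp P) (f.map (red P)) (hm.map (red P)) _ fun x => ?_
      obtain ⟨b, rfl⟩ := AdjoinRoot.mk_surjective x
      have h2 := hμ ψ hψ'.1 (AdjoinRoot.mk ψ b)
      rw [h0, LinearMap.zero_apply] at h2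
      have h3 : AdjoinRoot.mk (f.map (red P)) b * AdjoinRoot.mk (f.map (red P)) (c ψ) =
          AdjoinRoot.mk (f.map (red P))
            (c ψ * AdjoinRoot.modByMonicHom hψ'.1 (AdjoinRoot.mk ψ b)) := by
        rw [← map_mul, AdjoinRoot.mk_eq_mk]
        refine dvd_MU hF _ fun φ hφ => ?_
        obtain ⟨q, hq⟩ := key ψ hψ hψ'.1 b fun _ _ _ => Or.inr trivial
        have h4 : b * c ψ - c ψ * AdjoinRoot.modByMonicHom hψ'.1 (AdjoinRoot.mk ψ b) =
            c ψ * (ψ * q) := by rw [← hq]; ring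
        rw [h4]
        by_cases hne : φ = ψ
        · exact hne ▸ ((dvd_mul_right φ q).mul_left _)
        · exact (hc2 ψ hψ φ hφ hne).mul_right _
      rw [h3, ← h2]
    have h5 : f.map (red P) ∣ c ψ := AdjoinRoot.mk_eq_zero.1 h1
    have h6 : ψ ∣ c ψ := hψ'.2.2.trans h5
    have h7 : ψ ∣ 1 := by
      have := dvd_sub h6 (hc1 ψ hψ)
      rwa [sub_sub_cancel] at this
    exact hψ'.2.1.not_isUnit (isUnit_of_dvd_one h7)
  · have hψ' := (hF.mem ψ).1 hψ
    have h1 := tau_MU hm P a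
    have h2 : AdjoinRoot.mk (f.map (red P)) (a.map (red P)) =
        AdjoinRoot.mk (f.map (red P))
          (c ψ * AdjoinRoot.modByMonicHom hψ'.1 (AdjoinRoot.mk ψ (a.map (red P)))) := by
      rw [AdjoinRoot.mk_eq_mk]
      refine dvd_MU hF _ fun φ hφ => ?_
      obtain ⟨q, hq⟩ := key ψ hψ hψ'.1 (a.map (red P)) fun _ _ _ => Or.inr trivial
      by_cases hne : φ = ψ
      · subst hne
        obtain ⟨r, hr⟩ := hc1 φ hψ
        refine ⟨q - r * AdjoinRoot.modByMonicHom hψ'.1 (AdjoinRoot.mk φ (a.map (red P))), ?_⟩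
        linear_combination hq - hr *
          AdjoinRoot.modByMonicHom hψ'.1 (AdjoinRoot.mk φ (a.map (red P)))
      · exact dvd_sub (AdjoinRoot.mk_eq_zero.1 (ha φ hφ hne)) ((hc2 ψ hψ φ hφ hne).mul_right _)
    rw [hμ ψ hψ'.1, ← h2]
    exact h1

end Pool.Agent.Helper9.GTI
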