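import Pool.Agent.Helper9.GTI.St
import Pool.Agent.Helper3.HY.M_S

/-! # GTI: module NFZ (antidiagonal Gram matrix over the residue field) -/

set_option autoImplicit false

namespace Pool.Agent.Helper9.GTI

open Polynomial Finset Matrix
open Pool.Agent.Helper3.HY (tau Gm Ix twGroup)

/-- The form `τ(z x y)`. -/
private noncomputable def B_NFZ {k : Type} [Field k] {h : k[X]} (hh : h.Monic)
    (z : AdjoinRoot h) : LinearMap.BilinForm k (AdjoinRoot h) :=
  LinearMap.mk₂ k (fun x y => tau hh (z * x * y))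
    (by intro a b c; rw [mul_add, add_mul, map_add])
    (by intro c a b; rw [mul_smul_comm, smul_mul_assoc, map_smul])
    (by intro a b c; rw [mul_add, map_add])
    (by intro c a b; rw [mul_smul_comm, map_smul])

private lemma B_NFZ_apply {k : Type} [Field k] {h : k[X]} (hh : h.Monic) (z x y : AdjoinRoot h) :
    B_NFZ hh z x y = tau hh (z * x * y) := rfl

theorem hNFZ (hSPL : StSPL) (hTND : StTND) (hWITT : StWITT) : StNFZ := by
  intro k _ h2 g h hh hdeg D hD z hz hsq
  -- the basis of powers of the root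
  have hdim : (AdjoinRoot.powerBasis' hh).dim = 2 * g + 1 := by
    rw [AdjoinRoot.powerBasis'_dim, hdeg]
  let b : Module.Basis (Ix g) k (AdjoinRoot h) :=
    (AdjoinRoot.powerBasis' hh).basis.reindex (finCongr hdim)
  have hb : ∀ i : Ix g, b i = AdjoinRoot.root h ^ (i : ℕ) := by
    intro i
    simp only [b, Module.Basis.reindex_apply, PowerBasis.coe_basis, AdjoinRoot.powerBasis'_gen]
    rfl
  have hfin : FiniteDimensional k (AdjoinRoot h) := Module.Finite.of_basis b
  have hrk : Module.finrank k (AdjoinRoot h) = 2 * g + 1 := by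
    rw [Module.finrank_eq_card_basis b, Fintype.card_fin]
  set B := B_NFZ hh (z : AdjoinRoot h) with hB
  have hBa : ∀ x y, B x y = tau hh ((z : AdjoinRoot h) * x * y) := fun x y => rfl
  have hsym : ∀ x y, B x y = B y x := by
    intro x y
    rw [hBa, hBa, mul_right_comm]
  have hnd : ∀ y, (∀ x, B x y = 0) → y = 0 := by
    intro y hy
    have h1 : ∀ x, tau hh (x * ((z : AdjoinRoot h) * y)) = 0 := by
      intro x
      have := hy x
      rw [hBa] at this
      rw [← this]
      congr 1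
      ring
    have h3 := hTND k h hh _ h1
    have h4 : ((z⁻¹ : (AdjoinRoot h)ˣ) : AdjoinRoot h) * ((z : AdjoinRoot h) * y) = y :=
      Units.inv_mul_cancel_left z y
    rw [h3, mul_zero] at h4
    exact h4.symm
  obtain ⟨W, hW1, hW2⟩ := hSPL k g h hh hdeg D hD z hz
  obtain ⟨u, w, c, uw, uu, ww, cu, cw, cc⟩ := hWITT k h2 (AdjoinRoot h) B g hsym hnd hrk W hW1
    (fun x hx y hy => hW2 x hx y hy)
  obtain ⟨x, hx⟩ := Pool.Agent.Helper3.HY.MS.det_std g B hsym b u w c (B c c) uw uu ww cu cw rfl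
  have hdet : (Matrix.of fun i j : Ix g => B (b i) (b j)) =
      Matrix.of fun i j : Ix g => tau hh ((z : AdjoinRoot h) * AdjoinRoot.root h ^ (i : ℕ) *
        AdjoinRoot.root h ^ (j : ℕ)) := by
    ext i j
    rw [Matrix.of_apply, Matrix.of_apply, hBa, hb, hb]
  rw [hdet] at hx
  have hδ : IsSquare (B c c) := by
    obtain ⟨y, hy⟩ := hsq
    refine ⟨x * y, ?_⟩
    have h1 : ((-1 : k) ^ g) * (-1) ^ g = 1 := by
      rw [← mul_pow]; simp
    calc B c c = (-1) ^ g * ((-1) ^ g * B c c) := by rw [← mul_assoc, h1, one_mul]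
      _ = x ^ 2 * ((-1) ^ g * (Matrix.of fun i j : Ix g =>
            tau hh ((z : AdjoinRoot h) * AdjoinRoot.root h ^ (i : ℕ) *
              AdjoinRoot.root h ^ (j : ℕ))).det) := by rw [hx]; ring
      _ = x * y * (x * y) := by rw [hy]; ring
  obtain ⟨s, hs⟩ := hδ
  have hs0 : s ≠ 0 := by
    rintro rfl
    exact cc (by rw [hs, mul_zero])
  set c' : AdjoinRoot h := s⁻¹ • c with hc'
  have c'l : ∀ y, B c' y = s⁻¹ * B c y := by
    intro y
    rw [hc', map_smul, LinearMap.smul_apply, smul_eq_mul]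
  have c'u : ∀ i, B c' (u i) = 0 := fun i => by rw [c'l, cu, mul_zero]
  have c'w : ∀ i, B c' (w i) = 0 := fun i => by rw [c'l, cw, mul_zero]
  have c'c : B c' c' = 1 := by
    rw [c'l, hsym, c'l, hs]
    field_simp
  let e : Ix g → AdjoinRoot h := fun i => if h : i.1 < g then u ⟨i.1, h⟩
    else if h' : g < i.1 then w ⟨2 * g - i.1, by omega⟩ else c'
  have e1 : ∀ (i : Ix g) (h : i.1 < g), e i = u ⟨i.1, h⟩ := fun i h => dif_pos h
  have e2 : ∀ (i : Ix g) (h : g < i.1), e i = w ⟨2 * g - i.1, by omega⟩ := fun i h => by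
    have h0 : ¬ i.1 < g := by omega
    simp only [e, dif_neg h0, dif_pos h]
  have e3 : ∀ (i : Ix g), i.1 = g → e i = c' := fun i h => by
    have h0 : ¬ i.1 < g := by omega
    have h1 : ¬ g < i.1 := by omega
    simp only [e, dif_neg h0, dif_neg h1]
  refine ⟨e, ?_⟩
  intro i j
  rw [← hBa]
  have hG : Gm k g i j = if i.1 + j.1 = 2 * g then 1 else 0 := by
    unfold Gm
    congr 1
    rw [Fin.ext_iff, Fin.val_rev]
    apply propext
    constructor <;> intro h <;> omega
  rw [hG]
  rcases lt_trichotomy i.1 g with h | h | h <;> rcases lt_trichotomy j.1 g with h' | h' | h'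
  · rw [e1 i h, e1 j h', uu, if_neg (by omega)]
  · rw [e1 i h, e3 j h', hsym, c'u, if_neg (by omega)]
  · rw [e1 i h, e2 j h', uw]
    congr 1
    rw [Fin.ext_iff]
    apply propext
    constructor <;> intro hh <;> simp only at hh ⊢ <;> omega
  · rw [e3 i h, e1 j h', c'u, if_neg (by omega)]
  · rw [e3 i h, e3 j h', c'c, if_pos (by omega)]
  · rw [e3 i h, e2 j h', c'w, if_neg (by omega)]
  · rw [e2 i h, e1 j h', hsym, uw]
    congr 1
    rw [Fin.ext_iff]
    apply propext
    constructor <;> intro hh <;> simp only at hh ⊢ <;> omega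
  · rw [e2 i h, e3 j h', hsym, c'w, if_neg (by omega)]
  · rw [e2 i h, e2 j h', ww, if_neg (by omega)]

end Pool.Agent.Helper9.GTI
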