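import Pool.Agent.Helper9.GTI.St
import Pool.Agent.Helper3.HY.Base

/-!
# GT, part ISOG: partial fractions (PF)
-/

set_option autoImplicit false

namespace Pool.Agent.Helper9.GTI

open Polynomial Finset Matrix
open Pool.Agent.Helper3.HY (tau co)

/-- the coefficient of a product in the top degree -/
lemma top_PF {k : Type} [Field k] (r U : k[X]) (hU : U.Monic) (n : ℕ) (hn : 1 ≤ n)
    (hr : r.degree < (n : ℕ)) : (r * U).coeff (n + U.natDegree - 1) = r.coeff (n - 1) := by
  have e : n + U.natDegree - 1 = (n - 1) + U.natDegree := by omega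
  have h1 : r.natDegree ≤ n - 1 := by
    rw [natDegree_le_iff_degree_le]
    rw [degree_lt_iff_coeff_zero] at hr
    rw [degree_le_iff_coeff_zero]
    intro m hm
    apply hr
    have : n - 1 < m := by exact_mod_cast hm
    omega
  rw [e, coeff_mul_add_eq_of_natDegree_le h1 le_rfl, hU.coeff_natDegree, mul_one]

theorem hPF : StPF := by
  intro k _ h U hh hU h1 p q c hpq hc
  unfold tau
  rw [Pool.Agent.Helper3.HY.co_mk, Pool.Agent.Helper3.HY.co_mk]
  set r := (p * c) %ₘ h with hr
  set r' := (q * c) %ₘ U with hr'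
  have e1 : r + h * ((p * c) /ₘ h) = p * c := modByMonic_add_div (p * c) h
  have e2 : r' + U * ((q * c) /ₘ U) = q * c := modByMonic_add_div (q * c) U
  have hdr : r.degree < h.degree := degree_modByMonic_lt _ hh
  have hdr' : r'.degree < U.degree := degree_modByMonic_lt _ hU
  have hdh : h.degree = (h.natDegree : ℕ) := degree_eq_natDegree hh.ne_zero
  have hdU : U.degree = (U.natDegree : ℕ) := degree_eq_natDegree hU.ne_zero
  have e3 : c = r * U + r' * h + (h * U) * ((p * c) /ₘ h + (q * c) /ₘ U) := by
    calc c = (p * U + q * h) * c := by rw [hpq, one_mul]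
      _ = (p * c) * U + (q * c) * h := by ring
      _ = (r + h * ((p * c) /ₘ h)) * U + (r' + U * ((q * c) /ₘ U)) * h := by rw [e1, e2]
      _ = _ := by ring
  have hd : (c - (r * U + r' * h)).degree < (h * U).degree := by
    have a1 : (h * U).degree = ((h.natDegree + U.natDegree : ℕ) : WithBot ℕ) := by
      rw [degree_mul, hdh, hdU]
      rfl
    rw [a1]
    refine (degree_sub_le _ _).trans_lt (max_lt ?_ ((degree_add_le _ _).trans_lt (max_lt ?_ ?_)))
    · exact degree_le_natDegree.trans_lt (by exact_mod_cast hc)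
    · rw [degree_mul, ← a1, degree_mul]
      rw [hdh] at hdr ⊢
      rw [hdU]
      rcases hrr : r.degree with _ | m
      · exact WithBot.bot_lt_coe _
      · rw [hrr] at hdr
        have : m < h.natDegree := WithBot.coe_lt_coe.1 hdr
        show ((m : ℕ) : WithBot ℕ) + ((U.natDegree : ℕ) : WithBot ℕ)
          < ((h.natDegree : ℕ) : WithBot ℕ) + ((U.natDegree : ℕ) : WithBot ℕ)
        exact_mod_cast (by omega : m + U.natDegree < h.natDegree + U.natDegree)
    · rw [degree_mul, ← a1, degree_mul]
      rw [hdU] at hdr' ⊢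
      rw [hdh]
      rcases hrr : r'.degree with _ | m
      · exact WithBot.bot_lt_coe _
      · rw [hrr] at hdr'
        have : m < U.natDegree := WithBot.coe_lt_coe.1 hdr'
        show ((m : ℕ) : WithBot ℕ) + ((h.natDegree : ℕ) : WithBot ℕ)
          < ((h.natDegree : ℕ) : WithBot ℕ) + ((U.natDegree : ℕ) : WithBot ℕ)
        exact_mod_cast (by omega : m + h.natDegree < h.natDegree + U.natDegree)
  have hz : c - (r * U + r' * h) = 0 := by
    apply eq_zero_of_dvd_of_degree_lt _ hd
    exact ⟨(p * c) /ₘ h + (q * c) /ₘ U, by rw [sub_eq_iff_eq_add', ← e3]⟩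
  have hc' : c = r * U + r' * h := sub_eq_zero.1 hz
  have hcc : c.coeff (h.natDegree + U.natDegree - 1)
      = (r * U).coeff (h.natDegree + U.natDegree - 1)
        + (r' * h).coeff (h.natDegree + U.natDegree - 1) := by
    conv_lhs => rw [hc']
    rw [coeff_add]
  rw [hcc, top_PF r U hU h.natDegree h1 (by rw [← hdh]; exact hdr)]
  congr 1
  rcases Nat.eq_zero_or_pos U.natDegree with h0 | h0
  · have hr0 : r' = 0 := by
      rw [hdU, h0] at hdr'
      by_contra hne
      have := (Nat.WithBot.lt_zero_iff).1 (by exact_mod_cast hdr')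
      exact hne (degree_eq_bot.1 this)
    rw [hr0, zero_mul, coeff_zero, coeff_zero]
  · have := top_PF r' h hh U.natDegree h0 (by rw [← hdU]; exact hdr')
    rw [add_comm h.natDegree U.natDegree, this]

end Pool.Agent.Helper9.GTI
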