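import Pool.Agent.Helper9.GTI.St
import Pool.Agent.Helper92.TW.C7

/-!
# GT, part ISOG, module QD
-/

set_option autoImplicit false

namespace Pool.Agent.Helper9.GTI

open Polynomial Finset Matrix
open Pool.Agent.Helper54.PT (Prm prm IsAbsP IsAbsInf)
open Pool.Agent.Helper3.HY (fK RR LL kp red TwAt twGroup baseChange co tau Kfil Gm Ix IsFil InA Bf)
open Pool.Agent.Helper3.GT (Gd Bd UnitAt EvP facs RepG om ep SelS StFAC StOE)

theorem hQD (hFAC : StFAC) (hOE : StOE) (hLP : StLP) (hEVU : StEVU) (hLOC : StLOC)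
    (hGLOB : StGLOB) : StQD := by
  intro F _ _ h2 g hg f hm hdeg hsep _ P hP S D hD T hT
  obtain ⟨hF1, hF2, _⟩ := hFAC F h2 g hg f hm hdeg P hP
  have hfac : FacOK f P := ⟨hF1, hF2⟩
  obtain ⟨c, hc⟩ := hLP F h2 f hm (by omega) P hfac T hT
  refine ⟨c, fun z hN hEv hTw hInf hom => ?_⟩
  obtain ⟨ι₀, ι₁, _, _, _, _, E, u, hB, hcard, hcard1, hiff⟩ := hc z z.ne_zero hom
  have hfin : FiniteDimensional (RatFunc F) (LL f) :=
    (hm.map (algebraMap F[X] (RatFunc F))).finite_adjoinRoot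
  have hfr : Module.finrank (RatFunc F) (LL f) = 2 * g + 1 := by
    have h1 := (AdjoinRoot.powerBasis' (hm.map (algebraMap F[X] (RatFunc F)))).finrank
    rw [AdjoinRoot.powerBasis'_dim, hm.natDegree_map, hdeg] at h1
    exact h1
  have hev : Even (Fintype.card ι₁) := by
    obtain ⟨_, _, h3, _⟩ := hOE F h2 g hg f hm hdeg hsep P hP
    have h4 := (h3 z z.ne_zero hN).1
    rw [hcard1]
    have h5 : ∑ ψ ∈ facs f P, (ψ.natDegree : ZMod 2) * om P ψ (z : LL f) =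
        ∑ ψ ∈ T, (ψ.natDegree : ZMod 2) := by
      rw [← Finset.sum_subset hT]
      · refine Finset.sum_congr rfl fun ψ hψ => ?_
        rw [(hom ψ (hT hψ)).2 hψ, mul_one]
      · intro ψ hψ hψT
        have h6 : om P ψ (z : LL f) ≠ 1 := fun h => hψT ((hom ψ hψ).1 h)
        have h7 : om P ψ (z : LL f) = 0 := by
          unfold om at h6 ⊢
          split_ifs at h6 ⊢ with h8
          · rfl
          · exact absurd rfl h6
        rw [h7, mul_zero]
    rw [h5, ← Nat.cast_sum] at h4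
    exact (ZMod.natCast_eq_zero_iff_even).1 h4
  obtain ⟨v, hv, hvI⟩ := Pool.Agent.Helper54.PT.exists_absInf F
  obtain ⟨Fil, hFil⟩ := (hLOC F h2 g f hm hdeg D hD z hN).2 v hvI (hInf v hv hvI)
  refine hiff.1 (hGLOB F h2 (LL f) (2 * g + 1) hfr Fil (Bf hm z) hFil P ι₀ ι₁ E u
    (by rw [hcard, hdeg]) hB (fun Q hQ => ?_) hev)
  by_cases hQS : Q ∈ S ∨ Bd f Q
  · obtain ⟨w, hw, hwQ⟩ := Pool.Agent.Helper54.PT.exists_absP Q
    exact (hLOC F h2 g f hm hdeg D hD z hN).1 Q w hwQ (hTw Q hQ hQS w hw hwQ)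
  · rw [not_or] at hQS
    exact hEVU F g f hm hdeg Q z (hEv Q hQ hQS.1 hQS.2)

end Pool.Agent.Helper9.GTI
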