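import Pool.Agent.Helper9.GTI.St
import Pool.Agent.Helper3.HY.M_De2

/-!
# GT, part ISOG, module REP (helper29): existence and uniqueness of valuation and residue
-/

set_option autoImplicit false

namespace Pool.Agent.Helper9.GTI

open Polynomial Finset Matrix
open Pool.Agent.Helper54.PT (Prm)
open Pool.Agent.Helper3.HY (fK RR LL kp red)
open Pool.Agent.Helper3.GT (facs RepG)

section

variable {F : Type} [Field F] {f : F[X][X]}

/-- Reduction at a factor of `f` modulo `P`. -/
theorem exists_red_REP (P : Prm F) (ψ : (kp P)[X]) (h : ψ ∣ f.map (red P)) :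
    ∃ ρ : RR f →+* AdjoinRoot ψ, (∀ a : F[X][X], ρ (AdjoinRoot.mk f a) =
      AdjoinRoot.mk ψ (a.map (red P))) ∧
      ∀ a : F[X], ρ (algebraMap F[X] (RR f) a) = AdjoinRoot.of ψ (red P a) := by
  have h0 : f.eval₂ ((AdjoinRoot.of ψ).comp (red P)) (AdjoinRoot.root ψ) = 0 := by
    rw [← Polynomial.eval₂_map, ← AdjoinRoot.algebraMap_eq, ← Polynomial.aeval_def,
      AdjoinRoot.aeval_eq, AdjoinRoot.mk_eq_zero]
    exact h
  refine ⟨AdjoinRoot.lift _ _ h0, fun a => ?_, fun a => ?_⟩
  · rw [AdjoinRoot.lift_mk, ← Polynomial.eval₂_map, ← AdjoinRoot.algebraMap_eq,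
      ← Polynomial.aeval_def, AdjoinRoot.aeval_eq]
  · rw [AdjoinRoot.algebraMap_eq, AdjoinRoot.lift_of]
    rfl

/-- An element of `RR f` which vanishes at all factors is divisible by `P`. -/
theorem dvd_of_red_REP (P : Prm F) (hF : FacOK f P) (a : F[X][X])
    (h : ∀ φ ∈ facs f P, AdjoinRoot.mk φ (a.map (red P)) = 0) :
    ∃ r : RR f, AdjoinRoot.mk f a = algebraMap F[X] (RR f) P.1 * r := by
  have h1 : f.map (red P) ∣ a.map (red P) := by
    rw [← hF.prod]
    refine Finset.prod_dvd_of_coprime ?_ fun φ hφ => AdjoinRoot.mk_eq_zero.1 (h φ hφ)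
    intro φ hφ χ hχ hne
    obtain ⟨hφm, hφi, -⟩ := (hF.mem φ).1 hφ
    obtain ⟨hχm, hχi, -⟩ := (hF.mem χ).1 hχ
    refine (hφi.coprime_iff_not_dvd).2 fun hd => hne ?_
    exact eq_of_monic_of_associated hφm hχm ((hφi.dvd_irreducible_iff_associated hχi).1 hd)
  obtain ⟨c, hc⟩ := h1
  obtain ⟨c', rfl⟩ := Polynomial.map_surjective (red P) AdjoinRoot.mk_surjective c
  have h2 : (a - f * c').map (red P) = 0 := by
    rw [Polynomial.map_sub, Polynomial.map_mul, hc, sub_self]
  have h3 : C P.1 ∣ a - f * c' := by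
    rw [C_dvd_iff_dvd_coeff]
    intro i
    have h4 := congrArg (fun p => p.coeff i) h2
    simp only [coeff_map, coeff_zero] at h4
    exact AdjoinRoot.mk_eq_zero.1 h4
  obtain ⟨b, hb⟩ := h3
  refine ⟨AdjoinRoot.mk f b, ?_⟩
  have h4 : a = f * c' + C P.1 * b := by rw [← hb]; ring
  rw [h4, map_add, map_mul, AdjoinRoot.mk_self, zero_mul, zero_add, map_mul, AdjoinRoot.mk_C]
  rfl

end

theorem hREP (hIDEM : StIDEM) : StREP := by
  intro F _ f hm _ P hF ψ hψ
  obtain ⟨hψm, hψi, hψd⟩ := (hF.mem ψ).1 hψ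
  have hfact : Fact (Irreducible ψ) := ⟨hψi⟩
  have hinj := Pool.Agent.Helper3.HY.De2.inj hm
  have hdom : IsDomain (RR f) := hinj.isDomain (algebraMap (RR f) (LL f))
  have hAinj : Function.Injective (algebraMap F[X] (RR f)) := by
    intro a b hab
    apply RatFunc.algebraMap_injective F
    apply (algebraMap (RatFunc F) (LL f)).injective
    rw [← IsScalarTower.algebraMap_apply F[X] (RatFunc F) (LL f),
      ← IsScalarTower.algebraMap_apply F[X] (RatFunc F) (LL f),
      IsScalarTower.algebraMap_apply F[X] (RR f) (LL f), hab,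
      ← IsScalarTower.algebraMap_apply F[X] (RR f) (LL f)]
  obtain ⟨ρ, hρ, hρA⟩ := exists_red_REP P ψ hψd
  have hρP : ρ (algebraMap F[X] (RR f) P.1) = 0 := by
    rw [hρA, AdjoinRoot.mk_self, map_zero]
  have hP0 : P.1 ≠ 0 := P.2.2.ne_zero
  have hPR : algebraMap F[X] (RR f) P.1 ≠ 0 := by
    rw [Ne, map_eq_zero_iff _ hAinj]; exact hP0
  have hPL : algebraMap (RatFunc F) (LL f) (algebraMap F[X] (RatFunc F) P.1) ≠ 0 := by
    rw [Ne, map_eq_zero, map_eq_zero_iff _ (RatFunc.algebraMap_injective F)]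
    exact hP0
  have hPL' : algebraMap (RatFunc F) (LL f) (algebraMap F[X] (RatFunc F) P.1) =
      algebraMap (RR f) (LL f) (algebraMap F[X] (RR f) P.1) := by
    rw [← IsScalarTower.algebraMap_apply F[X] (RR f) (LL f),
      ← IsScalarTower.algebraMap_apply F[X] (RatFunc F) (LL f)]
  constructor
  · intro z hz
    -- denominators
    obtain ⟨d, hd, r, hr⟩ := Pool.Agent.Helper3.HY.De2.surj hm z
    have hr0 : r ≠ 0 := by
      rintro rfl
      rw [map_zero] at hr
      rcases mul_eq_zero.1 hr with h | h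
      · exact hz h
      · rw [map_eq_zero_iff _ hinj, map_eq_zero_iff _ hAinj] at h
        exact hd h
    obtain ⟨n, hn, r', hr'⟩ := Pool.Agent.Helper3.HY.De2.surj hm (algebraMap (RR f) (LL f) r)⁻¹
    have hrL : algebraMap (RR f) (LL f) r ≠ 0 := by
      rwa [Ne, map_eq_zero_iff _ hinj]
    have hrr : r * r' = algebraMap F[X] (RR f) n := by
      apply hinj
      rw [map_mul, ← hr', ← mul_assoc, mul_inv_cancel₀ hrL, one_mul]
    -- multiplicities
    have hPr : Prime P.1 := P.2.2.prime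
    obtain ⟨k₀, n₀, hn₀, hnn⟩ : ∃ (k₀ : ℕ) (n₀ : F[X]), ¬ P.1 ∣ n₀ ∧ n = P.1 ^ k₀ * n₀ := by
      have hfin : FiniteMultiplicity P.1 n := FiniteMultiplicity.of_prime_left hPr hn
      obtain ⟨c, hc, hc'⟩ := hfin.exists_eq_pow_mul_and_not_dvd
      exact ⟨_, c, hc', hc⟩
    obtain ⟨v, d₀, hd₀, hdd⟩ : ∃ (v : ℕ) (d₀ : F[X]), ¬ P.1 ∣ d₀ ∧ d = P.1 ^ v * d₀ := by
      have hfin : FiniteMultiplicity P.1 d := FiniteMultiplicity.of_prime_left hPr hd
      obtain ⟨c, hc, hc'⟩ := hfin.exists_eq_pow_mul_and_not_dvd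
      exact ⟨_, c, hc', hc⟩
    obtain ⟨e, he⟩ := hIDEM F f hm P hF (k₀ + 1)
    have hρe : ρ (AdjoinRoot.mk f (e ψ)) = 1 := by rw [hρ]; exact he.one ψ hψ
    have hn₀' : AdjoinRoot.of ψ (red P n₀) ≠ 0 := by
      rw [Ne, map_eq_zero_iff _ (AdjoinRoot.of ψ).injective, AdjoinRoot.mk_eq_zero]
      exact hn₀
    have hd₀' : AdjoinRoot.of ψ (red P d₀) ≠ 0 := by
      rw [Ne, map_eq_zero_iff _ (AdjoinRoot.of ψ).injective, AdjoinRoot.mk_eq_zero]
      exact hd₀
    -- `e r` is not divisible by `P ^ (k₀ + 1)`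
    have hnot : ¬ ∃ x : RR f, AdjoinRoot.mk f (e ψ) * r = algebraMap F[X] (RR f) P.1 ^ (k₀ + 1) * x := by
      rintro ⟨x, hx⟩
      have h1 : algebraMap F[X] (RR f) P.1 ^ k₀ *
          (AdjoinRoot.mk f (e ψ) * algebraMap F[X] (RR f) n₀) =
          algebraMap F[X] (RR f) P.1 ^ k₀ * (algebraMap F[X] (RR f) P.1 * (x * r')) := by
        have h2 : AdjoinRoot.mk f (e ψ) * r * r' =
            algebraMap F[X] (RR f) P.1 ^ (k₀ + 1) * x * r' := by rw [hx]
        rw [mul_assoc, hrr, hnn, map_mul, map_pow] at h2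
        calc algebraMap F[X] (RR f) P.1 ^ k₀ *
            (AdjoinRoot.mk f (e ψ) * algebraMap F[X] (RR f) n₀)
            = AdjoinRoot.mk f (e ψ) *
              (algebraMap F[X] (RR f) P.1 ^ k₀ * algebraMap F[X] (RR f) n₀) := by ring
          _ = _ := h2
          _ = _ := by ring
      have h2 := mul_left_cancel₀ (pow_ne_zero k₀ hPR) h1
      have h3 := congrArg ρ h2
      rw [map_mul, map_mul, hρe, hρA n₀, hρP, one_mul, zero_mul] at h3
      exact hn₀' h3
    -- the maximal exponent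
    obtain ⟨k, hk, r₁, hr₁, hmax⟩ : ∃ k ≤ k₀, ∃ r₁ : RR f,
        AdjoinRoot.mk f (e ψ) * r = algebraMap F[X] (RR f) P.1 ^ k * r₁ ∧
        ¬ ∃ r₂ : RR f, r₁ = algebraMap F[X] (RR f) P.1 * r₂ := by
      classical
      have hex : ∃ m, ¬ ∃ x : RR f,
          AdjoinRoot.mk f (e ψ) * r = algebraMap F[X] (RR f) P.1 ^ m * x := ⟨_, hnot⟩
      have hm1 := Nat.find_spec hex
      have hm2 : Nat.find hex ≤ k₀ + 1 := Nat.find_min' hex hnot
      have hm3 : Nat.find hex ≠ 0 := by
        intro h0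
        rw [h0] at hm1
        exact hm1 ⟨_, by rw [pow_zero, one_mul]⟩
      obtain ⟨k, hk⟩ := Nat.exists_eq_succ_of_ne_zero hm3
      have hm4 := Nat.find_min hex (m := k) (by omega)
      rw [not_not] at hm4
      obtain ⟨r₁, hr₁⟩ := hm4
      refine ⟨k, by omega, r₁, hr₁, ?_⟩
      rintro ⟨r₂, rfl⟩
      apply hm1
      rw [hk]
      exact ⟨r₂, by rw [hr₁, pow_succ]; ring⟩
    obtain ⟨p, rfl⟩ := AdjoinRoot.mk_surjective r₁
    -- the residue at the other factors vanishes
    have hother : ∀ φ ∈ facs f P, φ ≠ ψ → AdjoinRoot.mk φ (p.map (red P)) = 0 := by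
      intro φ hφ hne
      obtain ⟨hφm, hφi, hφd⟩ := (hF.mem φ).1 hφ
      obtain ⟨ρ', hρ', hρA'⟩ := exists_red_REP P φ hφd
      obtain ⟨x, hx⟩ := he.orth ψ hψ φ hφ hne
      have h1 : algebraMap F[X] (RR f) P.1 ^ k * (AdjoinRoot.mk f p * AdjoinRoot.mk f (e φ)) =
          algebraMap F[X] (RR f) P.1 ^ k *
            (algebraMap F[X] (RR f) P.1 * (algebraMap F[X] (RR f) P.1 ^ (k₀ - k) * (x * r))) := by
        calc algebraMap F[X] (RR f) P.1 ^ k * (AdjoinRoot.mk f p * AdjoinRoot.mk f (e φ))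
            = (algebraMap F[X] (RR f) P.1 ^ k * AdjoinRoot.mk f p) * AdjoinRoot.mk f (e φ) := by
              ring
          _ = AdjoinRoot.mk f (e ψ) * r * AdjoinRoot.mk f (e φ) := by rw [hr₁]
          _ = AdjoinRoot.mk f (e ψ * e φ) * r := by rw [map_mul]; ring
          _ = algebraMap F[X] (RR f) (P.1 ^ (k₀ + 1)) * x * r := by rw [hx]
          _ = algebraMap F[X] (RR f) P.1 ^ (k + (1 + (k₀ - k))) * x * r := by
              rw [map_pow]
              congr 3
              omega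
          _ = _ := by rw [pow_add, pow_add]; ring
      have h2 := mul_left_cancel₀ (pow_ne_zero k hPR) h1
      have h3 := congrArg ρ' h2
      rw [map_mul, map_mul, hρ', hρ', he.one φ hφ, mul_one, hρA' P.1, AdjoinRoot.mk_self, map_zero,
        zero_mul] at h3
      exact h3
    have hρp : AdjoinRoot.mk ψ (p.map (red P)) ≠ 0 := by
      intro h0
      apply hmax
      refine dvd_of_red_REP P hF p fun φ hφ => ?_
      by_cases hne : φ = ψ
      · rw [hne]; exact h0
      · exact hother φ hφ hne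
    have ha : AdjoinRoot.mk ψ ((e ψ * C d₀).map (red P)) = AdjoinRoot.of ψ (red P d₀) := by
      rw [Polynomial.map_mul, map_mul, he.one ψ hψ, one_mul, map_C, AdjoinRoot.mk_C]
    refine ⟨(k : ℤ) - v, AdjoinRoot.mk ψ (p.map (red P)) / AdjoinRoot.of ψ (red P d₀),
      div_ne_zero hρp hd₀', p, e ψ * C d₀, ?_, ?_, ?_⟩
    · rw [ha]; exact hd₀'
    · rw [ha, div_mul_cancel₀ _ hd₀']
    · have h1 : z * algebraMap (RR f) (LL f) (AdjoinRoot.mk f (e ψ * C d₀)) *
          algebraMap (RatFunc F) (LL f) (algebraMap F[X] (RatFunc F) P.1) ^ v =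
          algebraMap (RatFunc F) (LL f) (algebraMap F[X] (RatFunc F) P.1) ^ k *
            algebraMap (RR f) (LL f) (AdjoinRoot.mk f p) := by
        have h2 : algebraMap (RR f) (LL f) (algebraMap F[X] (RR f) d) =
            algebraMap (RR f) (LL f) (algebraMap F[X] (RR f) P.1) ^ v *
              algebraMap (RR f) (LL f) (algebraMap F[X] (RR f) d₀) := by
          rw [hdd, map_mul (algebraMap F[X] (RR f)), map_mul (algebraMap (RR f) (LL f)),
            map_pow (algebraMap F[X] (RR f)), map_pow (algebraMap (RR f) (LL f))]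
        have h3 : algebraMap (RR f) (LL f) (AdjoinRoot.mk f (e ψ * C d₀)) =
            algebraMap (RR f) (LL f) (AdjoinRoot.mk f (e ψ)) *
              algebraMap (RR f) (LL f) (algebraMap F[X] (RR f) d₀) := by
          rw [map_mul (AdjoinRoot.mk f), AdjoinRoot.mk_C, map_mul (algebraMap (RR f) (LL f))]
          rfl
        have h4 : algebraMap (RR f) (LL f) (AdjoinRoot.mk f (e ψ)) *
            algebraMap (RR f) (LL f) r =
            algebraMap (RR f) (LL f) (algebraMap F[X] (RR f) P.1) ^ k *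
              algebraMap (RR f) (LL f) (AdjoinRoot.mk f p) := by
          rw [← map_mul (algebraMap (RR f) (LL f)), hr₁, map_mul (algebraMap (RR f) (LL f)),
            map_pow (algebraMap (RR f) (LL f))]
        rw [hPL', ← h4, ← hr, h2, h3]
        ring
      rw [zpow_sub₀ (by rw [Ne, map_eq_zero_iff _ (RatFunc.algebraMap_injective F)]; exact hP0),
        zpow_natCast, zpow_natCast, map_div₀, map_pow, map_pow, div_mul_eq_mul_div, ← h1,
        mul_div_assoc, div_self (pow_ne_zero v hPL), mul_one]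
  · -- uniqueness
    have key : ∀ (z : LL f) (k k' : ℤ) (s s' : AdjoinRoot ψ), k ≤ k' → RepG P ψ z k s →
        RepG P ψ z k' s' → k = k' ∧ s = s' := by
      intro z k k' s s' hkk h h'
      obtain ⟨hs, p, a, ha, hpa, hz⟩ := h
      obtain ⟨hs', p', a', ha', hpa', hz'⟩ := h'
      obtain ⟨n, hn⟩ := Int.eq_ofNat_of_zero_le (sub_nonneg.2 hkk)
      have hk' : k' = k + n := by omega
      have hπ : algebraMap F[X] (RatFunc F) P.1 ≠ 0 := by
        rw [Ne, map_eq_zero_iff _ (RatFunc.algebraMap_injective F)]; exact hP0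
      have h1 : AdjoinRoot.mk f p * AdjoinRoot.mk f a' =
          algebraMap F[X] (RR f) P.1 ^ n * (AdjoinRoot.mk f p' * AdjoinRoot.mk f a) := by
        apply hinj
        have hu : algebraMap (RatFunc F) (LL f) (algebraMap F[X] (RatFunc F) P.1 ^ k) ≠ 0 := by
          rw [Ne, map_eq_zero]
          exact zpow_ne_zero _ hπ
        apply mul_left_cancel₀ hu
        rw [map_mul, ← mul_assoc, ← hz]
        have h2 : algebraMap (RatFunc F) (LL f) (algebraMap F[X] (RatFunc F) P.1 ^ k) *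
            algebraMap (RR f) (LL f) (algebraMap F[X] (RR f) P.1 ^ n *
              (AdjoinRoot.mk f p' * AdjoinRoot.mk f a)) =
            (algebraMap (RatFunc F) (LL f) (algebraMap F[X] (RatFunc F) P.1 ^ k') *
              algebraMap (RR f) (LL f) (AdjoinRoot.mk f p')) *
              algebraMap (RR f) (LL f) (AdjoinRoot.mk f a) := by
          rw [hk', zpow_add₀ hπ, zpow_natCast, map_mul (algebraMap (RatFunc F) (LL f)),
            map_pow (algebraMap (RatFunc F) (LL f)), hPL', map_mul, map_mul, map_pow]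
          ring
        rw [h2, ← hz']
        ring
      have h2 := congrArg ρ h1
      rw [map_mul, map_mul, map_mul, map_pow, hρ, hρ, hρ, hρ, hpa, hpa', hρP] at h2
      rcases Nat.eq_zero_or_pos n with h0 | h0
      · subst h0
        rw [pow_zero, one_mul] at h2
        refine ⟨by omega, ?_⟩
        apply mul_right_cancel₀ (mul_ne_zero ha ha')
        linear_combination h2
      · exfalso
        rw [zero_pow h0.ne', zero_mul] at h2
        exact mul_ne_zero (mul_ne_zero hs ha) ha' h2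
    intro z k k' s s' h h'
    rcases le_total k k' with hkk | hkk
    · exact key z k k' s s' hkk h h'
    · obtain ⟨h1, h2⟩ := key z k' k s' s hkk h' h
      exact ⟨h1.symm, h2.symm⟩

end Pool.Agent.Helper9.GTI
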