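import Pool.Agent.Helper9.GTI.St

/-!
# GT, part ISOG: module SPL (isotropic subspace for an element of the twist group)
-/

set_option autoImplicit false

namespace Pool.Agent.Helper9.GTI

open Polynomial Finset Matrix
open Pool.Agent.Helper3.HY (tau twGroup)

theorem hSPL (hTWS : StTWS) (hSPA : StSPA) : StSPL := by
  intro k _ g h hh hdeg D hD z hz
  obtain ⟨U, V, s, hU, ⟨p, q, hpq⟩, hdvd, hz'⟩ := hTWS k h D hD z hz
  obtain ⟨W₀, hW₀, hiso⟩ := hSPA k g h hh hdeg D hD U V p q hU hpq hdvd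
  have hpU : AdjoinRoot.mk h p * AdjoinRoot.mk h U = 1 := by
    rw [← map_mul]
    have h1 : AdjoinRoot.mk h (p * U) = AdjoinRoot.mk h 1 := by
      rw [AdjoinRoot.mk_eq_mk, ← hpq]
      exact ⟨-q, by ring⟩
    rw [h1, map_one]
  -- the linear automorphism
  let u : (AdjoinRoot h)ˣ :=
    ⟨AdjoinRoot.mk h U, AdjoinRoot.mk h p, by rw [mul_comm]; exact hpU, hpU⟩
  let e : AdjoinRoot h ≃ₗ[k] AdjoinRoot h :=
    { toFun := fun x => ((u * s : (AdjoinRoot h)ˣ) : AdjoinRoot h) * x
      map_add' := fun x y => mul_add _ _ _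
      map_smul' := fun c x => by rw [mul_smul_comm]; rfl
      invFun := fun x => (((u * s)⁻¹ : (AdjoinRoot h)ˣ) : AdjoinRoot h) * x
      left_inv := fun x => Units.inv_mul_cancel_left _ _
      right_inv := fun x => Units.mul_inv_cancel_left _ _ }
  refine ⟨W₀.map (e.symm : AdjoinRoot h →ₗ[k] AdjoinRoot h), ?_, ?_⟩
  · rw [LinearEquiv.finrank_map_eq]
    exact hW₀
  · rintro x ⟨x', hx', rfl⟩ y ⟨y', hy', rfl⟩
    have h1 := hiso x' hx' y' hy'
    set x := e.symm x' with hx
    set y := e.symm y' with hy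
    have hx2 : x' = AdjoinRoot.mk h U * (s : AdjoinRoot h) * x := by
      rw [hx]
      exact (e.apply_symm_apply x').symm
    have hy2 : y' = AdjoinRoot.mk h U * (s : AdjoinRoot h) * y := by
      rw [hy]
      exact (e.apply_symm_apply y').symm
    change tau hh ((z : AdjoinRoot h) * x * y) = 0
    have h2 : (z : AdjoinRoot h) * x * y =
        ((-D) ^ U.natDegree) • (AdjoinRoot.mk h p * x' * y') := by
      rw [hz', hx2, hy2, map_mul, map_pow, AdjoinRoot.mk_C, ← map_pow, Algebra.smul_def,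
        AdjoinRoot.algebraMap_eq]
      linear_combination (-(AdjoinRoot.of h ((-D) ^ U.natDegree)) * (s : AdjoinRoot h) ^ 2 * x * y *
        AdjoinRoot.mk h U) * hpU
    rw [h2, map_smul, h1, smul_zero]

end Pool.Agent.Helper9.GTI
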