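import Pool.Agent.Helper9.GTI.St

set_option autoImplicit false

namespace Pool.Agent.Helper9.GTI

open Polynomial Finset
open Pool.Agent.Helper54.PT (Prm)

theorem hSTD (hGG : StGG) : StSTD := by
  intro F _ V _ _ B ι _ _ E hdet
  have h1 : (⋃ i : ι, ⋃ j : ι, {P : Prm F | ¬ RegP P (B (E i) (E j))}).Finite :=
    Set.finite_iUnion fun i => Set.finite_iUnion fun j => (hGG F).2.1 _
  refine (h1.union ((hGG F).2.2 _ hdet)).subset ?_
  intro P hP
  by_contra h
  refine hP ⟨?_, ?_⟩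
  · intro i j
    by_contra h2
    exact h (Or.inl (Set.mem_iUnion.2 ⟨i, Set.mem_iUnion.2 ⟨j, h2⟩⟩))
  · by_contra h2
    exact h (Or.inr h2)

end Pool.Agent.Helper9.GTI
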