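import Pool.Agent.Helper9.GTI.St

/-!
# GT, part ISOG: the form `τ (x y)` is nondegenerate
-/

set_option autoImplicit false

namespace Pool.Agent.Helper9.GTI

open Polynomial Finset Matrix
open Pool.Agent.Helper3.HY (tau co)

/-- the form is nondegenerate -/
theorem hTND : StTND := by
  intro k _ h hh y hy
  set b := AdjoinRoot.modByMonicHom hh y with hb
  have hyb : AdjoinRoot.mk h b = y := AdjoinRoot.mk_leftInverse hh y
  rw [← hyb]
  by_contra hne
  have hb0 : b ≠ 0 := by
    intro h0
    apply hne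
    rw [h0, map_zero]
  have hdeg : b.degree < h.degree := by
    obtain ⟨r, hr⟩ := AdjoinRoot.mk_surjective y
    rw [hb, ← hr, AdjoinRoot.modByMonicHom_mk]
    exact degree_modByMonic_lt _ hh
  have hnat : b.natDegree < h.natDegree := natDegree_lt_natDegree hb0 hdeg
  have h1 := hy (AdjoinRoot.mk h (X ^ (h.natDegree - 1 - b.natDegree)))
  rw [← hyb, ← map_mul] at h1
  have h2 : tau hh (AdjoinRoot.mk h (X ^ (h.natDegree - 1 - b.natDegree) * b)) =
      ((X ^ (h.natDegree - 1 - b.natDegree) * b) %ₘ h).coeff (h.natDegree - 1) := by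
    change (AdjoinRoot.modByMonicHom hh (AdjoinRoot.mk h _)).coeff (h.natDegree - 1) = _
    rw [AdjoinRoot.modByMonicHom_mk]
  have h3 : (X ^ (h.natDegree - 1 - b.natDegree) * b) %ₘ h =
      X ^ (h.natDegree - 1 - b.natDegree) * b := by
    rw [modByMonic_eq_self_iff hh]
    apply degree_lt_degree
    refine lt_of_le_of_lt natDegree_mul_le ?_
    rw [natDegree_X_pow]
    omega
  rw [h2, h3] at h1
  rw [mul_comm] at h1
  obtain ⟨e, he⟩ : ∃ e, e = h.natDegree - 1 - b.natDegree := ⟨_, rfl⟩
  rw [← he] at h1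
  have h4 : h.natDegree - 1 = b.natDegree + e := by omega
  rw [h4, coeff_mul_X_pow] at h1
  exact hb0 (leadingCoeff_eq_zero.1 h1)

end Pool.Agent.Helper9.GTI
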