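import Pool.Agent.Helper9.GTI.St
import Pool.Agent.Helper9.HYI.Res

set_option autoImplicit false

namespace Pool.Agent.Helper9.GTI

open Polynomial Finset Matrix
open Pool.Agent.Helper54.PT (Prm)
open Pool.Agent.Helper3.HY (kp red Kfil)
open Pool.Agent.Helper9.HYI (IsRes)

theorem hTRA : StTRA := by
  intro F _ res hres P
  have hm : P.1.Monic := P.2.1
  have hirr : Irreducible P.1 := P.2.2
  have hP0 : P.1 ≠ 0 := hirr.ne_zero
  have hpK : pK P ≠ 0 := by
    rw [Ne, map_eq_zero_iff _ (IsFractionRing.injective F[X] (RatFunc F))]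
    exact hP0
  let φ : F[X] →ₗ[F] F :=
    { toFun := fun c => res (algebraMap F[X] (RatFunc F) c / pK P)
      map_add' := fun a b => by rw [map_add, add_div, map_add]
      map_smul' := fun a c => by
        have : algebraMap F[X] (RatFunc F) (a • c) / pK P
            = a • (algebraMap F[X] (RatFunc F) c / pK P) := by
          rw [Algebra.smul_def, Algebra.smul_def, map_mul, mul_div_assoc,
            ← IsScalarTower.algebraMap_apply]
        rw [this, map_smul, RingHom.id_apply] }
  have hφ : ∀ c, φ c = res (algebraMap F[X] (RatFunc F) c / pK P) := fun c => rfl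
  have hmod : ∀ c, φ (c %ₘ P.1) = φ c := by
    intro c
    have h1 : φ c = φ (c %ₘ P.1) + φ (P.1 * (c /ₘ P.1)) := by
      rw [← map_add, Polynomial.modByMonic_add_div]
    have h2 : φ (P.1 * (c /ₘ P.1)) = 0 := by
      rw [hφ, map_mul, mul_comm, mul_div_assoc]
      show res (_ * (pK P / pK P)) = 0
      rw [div_self hpK, mul_one]
      exact hres.poly _
    rw [h1, h2, add_zero]
  let s : kp P →ₗ[F] F := φ ∘ₗ AdjoinRoot.modByMonicHom hm
  have hs : ∀ c : F[X], s (red P c) = φ c := by
    intro c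
    show φ (AdjoinRoot.modByMonicHom hm (AdjoinRoot.mk P.1 c)) = φ c
    rw [AdjoinRoot.modByMonicHom_mk, hmod]
  refine ⟨s, ?_, fun c => (hs c).symm⟩
  intro h0
  set d := P.1.natDegree with hd
  have hdpos : 0 < d := hirr.natDegree_pos
  have h1 : φ (X ^ (d - 1)) = 0 := by
    rw [← hs, h0]; rfl
  have hX : (RatFunc.X : RatFunc F) ≠ 0 := RatFunc.X_ne_zero
  have hmul := (Pool.Agent.Helper9.HYI.hRes F).2.2.1
  have halg := (Pool.Agent.Helper9.HYI.hRes F).2.2.2.2
  have h2 : algebraMap F[X] (RatFunc F) (X ^ (d - 1)) / pK P - (RatFunc.X : RatFunc F)⁻¹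
      ∈ Kfil F (-2) := by
    have e1 : algebraMap F[X] (RatFunc F) (X ^ (d - 1)) / pK P - (RatFunc.X : RatFunc F)⁻¹
        = algebraMap F[X] (RatFunc F) (X ^ d - P.1) * (algebraMap F[X] (RatFunc F) (X * P.1))⁻¹ := by
      have e2 : (X : F[X]) ^ d = X ^ (d - 1) * X := by
        rw [← pow_succ]; congr 1; omega
      rw [e2, map_sub, map_mul, map_mul, RatFunc.algebraMap_X]
      field_simp
    rw [e1]
    have e3 : (algebraMap F[X] (RatFunc F) (X ^ d - P.1)) ∈ Kfil F ((d : ℤ) - 1) := by
      have h3 := halg (X ^ d - P.1)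
      have h4 : (X ^ d - P.1 : F[X]).natDegree ≤ d - 1 := by
        have h5 : (X ^ d - P.1 : F[X]).degree < (X ^ d : F[X]).degree := by
          refine degree_sub_lt ?_ (pow_ne_zero _ X_ne_zero) ?_
          · rw [degree_X_pow, hd, degree_eq_natDegree hP0]
          · rw [leadingCoeff_X_pow, hm.leadingCoeff]
        rw [degree_X_pow] at h5
        have h6 : (X ^ d - P.1 : F[X]).natDegree < d := by
          by_cases h7 : (X ^ d - P.1 : F[X]) = 0
          · rw [h7, natDegree_zero]; exact hdpos
          · exact (natDegree_lt_iff_degree_lt h7).2 h5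
        omega
      rcases h3 with h3 | h3
      · exact Or.inl h3
      · refine Or.inr (h3.trans ?_)
        have : ((X ^ d - P.1 : F[X]).natDegree : ℤ) ≤ ((d - 1 : ℕ) : ℤ) := by exact_mod_cast h4
        omega
    have e4 : (algebraMap F[X] (RatFunc F) (X * P.1))⁻¹ ∈ Kfil F (-(d : ℤ) - 1) := by
      refine Or.inr ?_
      rw [RatFunc.intDegree_inv, RatFunc.intDegree_polynomial,
        natDegree_mul X_ne_zero hP0, natDegree_X]
      push_cast
      omega
    have := hmul _ _ _ _ e3 e4
    have e5 : ((d : ℤ) - 1) + (-(d : ℤ) - 1) = -2 := by ring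
    rwa [e5] at this
  have h3 := hres.fil _ h2
  rw [map_sub, hres.inv, ← hφ, h1] at h3
  simp at h3

end Pool.Agent.Helper9.GTI
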