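import Pool.Agent.Helper9.GTI.St
import Mathlib.RingTheory.Norm.Transitivity

/-!
# GT, part ISOG, module TRB: the determinant of the transfer
-/

set_option autoImplicit false

namespace Pool.Agent.Helper9.GTI

open Polynomial Finset Matrix

theorem hTRB : StTRB := by
  intro F κ _ _ _ _ n b s hs ι _ _ u
  set S : Matrix (Fin n) (Fin n) F := Matrix.of fun k l => s (b k * b l) with hS
  set bS : Module.Basis (Fin n × ι) F (ι → κ) := b.smulTower (Pi.basisFun κ ι) with hbS
  set f : (ι → κ) →ₗ[κ] (ι → κ) := Matrix.toLin' u with hf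
  set R : Matrix (Fin n × ι) (Fin n × ι) F := LinearMap.toMatrix bS bS (f.restrictScalars F) with hR
  have hRdet : R.det = Algebra.norm F u.det := by
    rw [hR, LinearMap.det_toMatrix, LinearMap.det_restrictScalars, hf, LinearMap.det_toLin']
  have hRent : ∀ (m l : Fin n) (i j : ι), R (m, i) (l, j) = b.repr (b l * u i j) m := by
    intro m l i j
    rw [hR, LinearMap.toMatrix_apply, hbS, Module.Basis.smulTower_repr,
      Module.Basis.smulTower_apply]
    simp only [LinearMap.coe_restrictScalars, Pi.basisFun_repr, Pi.basisFun_apply]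
    congr 2
    rw [hf, map_smul, Pi.smul_apply, Matrix.toLin'_apply, Matrix.mulVec_single_one, smul_eq_mul]
    rfl
  refine ⟨S.det, ?_, ?_⟩
  · intro h0
    obtain ⟨v, hv, hv0⟩ := Matrix.exists_mulVec_eq_zero_iff.2 h0
    set y : κ := ∑ l, v l • b l with hy
    have h1 : ∀ x : κ, s (x * y) = 0 := by
      intro x
      have h2 : ∀ k, s (b k * y) = 0 := by
        intro k
        have h3 := congrFun hv0 k
        rw [Matrix.mulVec, dotProduct] at h3
        rw [hy, Finset.mul_sum, map_sum]
        rw [Pi.zero_apply] at h3
        rw [← h3]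
        refine Finset.sum_congr rfl fun l _ => ?_
        rw [mul_smul_comm, map_smul, smul_eq_mul, hS, Matrix.of_apply, mul_comm]
      rw [← b.sum_repr x, Finset.sum_mul, map_sum]
      refine Finset.sum_eq_zero fun k _ => ?_
      rw [smul_mul_assoc, map_smul, h2, smul_zero]
    have hy0 : y ≠ 0 := by
      intro h
      apply hv
      rw [hy] at h
      have h4 := Fintype.linearIndependent_iff.1 b.linearIndependent v h
      funext l
      exact h4 l
    apply hs
    ext x
    have h5 := h1 (x * y⁻¹)
    rw [mul_assoc, inv_mul_cancel₀ hy0, mul_one] at h5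
    rw [h5, LinearMap.zero_apply]
  · have hprod : (Matrix.of fun x y : Fin n × ι => s (b x.1 * b y.1 * u x.2 y.2)) =
        Matrix.blockDiagonal (fun _ : ι => S) * R := by
      ext ⟨k, i⟩ ⟨l, j⟩
      rw [Matrix.of_apply, Matrix.mul_apply, Fintype.sum_prod_type]
      have h1 : ∀ m : Fin n, ∑ i' : ι, Matrix.blockDiagonal (fun _ : ι => S) (k, i) (m, i') *
          R (m, i') (l, j) = s (b k * b m) * b.repr (b l * u i j) m := by
        intro m
        rw [Finset.sum_eq_single i]
        · rw [Matrix.blockDiagonal_apply, if_pos rfl, hRent, hS, Matrix.of_apply]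
        · intro i' _ hi'
          rw [Matrix.blockDiagonal_apply, if_neg (fun h => hi' h.symm), zero_mul]
        · intro h
          exact absurd (Finset.mem_univ i) h
      rw [Finset.sum_congr rfl (fun m _ => h1 m)]
      have h2 : b l * u i j = ∑ m, b.repr (b l * u i j) m • b m := (b.sum_repr _).symm
      have h3 : b k * b l * u i j = ∑ m, b.repr (b l * u i j) m • (b k * b m) := by
        rw [mul_assoc]
        conv_lhs => rw [h2]
        rw [Finset.mul_sum]
        exact Finset.sum_congr rfl fun m _ => mul_smul_comm _ _ _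
      show s (b k * b l * u i j) = _
      rw [h3, map_sum]
      refine Finset.sum_congr rfl fun m _ => ?_
      rw [map_smul, smul_eq_mul, mul_comm]
    rw [hprod, Matrix.det_mul, hRdet, Matrix.det_blockDiagonal, Finset.prod_const,
      Finset.card_univ, mul_comm]

end Pool.Agent.Helper9.GTI
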