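import Pool.Agent.Helper9.GTI.St

/-!
# GT, part ISOG: module TWS
-/

set_option autoImplicit false

namespace Pool.Agent.Helper9.GTI

open Polynomial
open Pool.Agent.Helper3.HY (twGroup IsTwPoint)

/-- The predicate of (TWS). -/
private def PT_TWS {k : Type} [Field k] (h : k[X]) (D : k) (z : (AdjoinRoot h)ˣ) : Prop :=
  ∃ (U V : k[X]) (s : (AdjoinRoot h)ˣ), U.Monic ∧ IsCoprime U h ∧ U ∣ C D * h - V ^ 2 ∧
      (z : AdjoinRoot h) =
        AdjoinRoot.mk h (C (-D) ^ U.natDegree * U) * (s : AdjoinRoot h) ^ 2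

private theorem unit_TWS {k : Type} [Field k] (h : k[X]) (D : k) (hD : D ≠ 0) (W : k[X])
    (hW : IsCoprime W h) : IsUnit (AdjoinRoot.mk h (C (-D) ^ W.natDegree * W)) := by
  rw [map_mul, map_pow]
  refine IsUnit.mul (IsUnit.pow _ ?_) ?_
  · have : IsUnit (C (-D) : k[X]) := by
      rw [isUnit_C]
      exact (neg_ne_zero.2 hD).isUnit
    exact this.map _
  · obtain ⟨a, b, hab⟩ := hW
    refine IsUnit.of_mul_eq_one (AdjoinRoot.mk h a) ?_
    rw [← map_mul, mul_comm W a]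
    have h5 : a * W = 1 - b * h := by rw [← hab]; ring
    rw [h5, map_sub, map_one, map_mul, AdjoinRoot.mk_self, mul_zero, sub_zero]

/-- A monic greatest common divisor with cofactors. -/
private theorem gcd_TWS {k : Type} [Field k] (U₁ U₂ : k[X]) (h₁ : U₁.Monic) :
    ∃ c A B : k[X], c.Monic ∧ U₁ = c * A ∧ U₂ = c * B ∧ IsCoprime A B := by
  classical
  set c₀ := EuclideanDomain.gcd U₁ U₂ with hc₀
  have hne : c₀ ≠ 0 := by
    intro h0
    rw [hc₀, EuclideanDomain.gcd_eq_zero_iff] at h0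
    exact h₁.ne_zero h0.1
  obtain ⟨A₀, hA₀⟩ := EuclideanDomain.gcd_dvd_left U₁ U₂
  obtain ⟨B₀, hB₀⟩ := EuclideanDomain.gcd_dvd_right U₁ U₂
  rw [← hc₀] at hA₀ hB₀
  have hlc : c₀.leadingCoeff ≠ 0 := leadingCoeff_ne_zero.2 hne
  obtain ⟨a, b, hbez⟩ : ∃ a b, c₀ = U₁ * a + U₂ * b :=
    ⟨_, _, EuclideanDomain.gcd_eq_gcd_ab U₁ U₂⟩
  have hCC : (C c₀.leadingCoeff⁻¹ : k[X]) * C c₀.leadingCoeff = 1 := by
    rw [← C_mul, inv_mul_cancel₀ hlc, C_1]
  refine ⟨c₀ * C c₀.leadingCoeff⁻¹, C c₀.leadingCoeff * A₀, C c₀.leadingCoeff * B₀,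
    monic_mul_leadingCoeff_inv hne, ?_, ?_, ?_⟩
  · calc U₁ = c₀ * 1 * A₀ := by rw [mul_one]; exact hA₀
      _ = _ := by rw [← hCC]; ring
  · calc U₂ = c₀ * 1 * B₀ := by rw [mul_one]; exact hB₀
      _ = _ := by rw [← hCC]; ring
  · refine ⟨a * C c₀.leadingCoeff⁻¹, b * C c₀.leadingCoeff⁻¹, ?_⟩
    have h1 : c₀ * (a * A₀ + b * B₀) = c₀ * 1 := by
      calc c₀ * (a * A₀ + b * B₀) = (c₀ * A₀) * a + (c₀ * B₀) * b := by ring
        _ = c₀ * 1 := by rw [← hA₀, ← hB₀, mul_one]; exact hbez.symm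
    have h2 := mul_left_cancel₀ hne h1
    calc a * C c₀.leadingCoeff⁻¹ * (C c₀.leadingCoeff * A₀) +
        b * C c₀.leadingCoeff⁻¹ * (C c₀.leadingCoeff * B₀) =
        (C c₀.leadingCoeff⁻¹ * C c₀.leadingCoeff) * (a * A₀ + b * B₀) := by ring
      _ = 1 := by rw [hCC, h2, one_mul]

private theorem mul_TWS {k : Type} [Field k] (h : k[X]) (D : k) (hD : D ≠ 0)
    (z₁ z₂ : (AdjoinRoot h)ˣ) (h₁ : PT_TWS h D z₁) (h₂ : PT_TWS h D z₂) :
    PT_TWS h D (z₁ * z₂) := by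
  obtain ⟨U₁, V₁, s₁, m₁, c₁, d₁, e₁⟩ := h₁
  obtain ⟨U₂, V₂, s₂, m₂, c₂, d₂, e₂⟩ := h₂
  obtain ⟨c, A, B, hc, hA, hB, hAB⟩ := gcd_TWS U₁ U₂ m₁
  have mA : A.Monic := by rw [hA] at m₁; exact hc.of_mul_monic_left m₁
  have mB : B.Monic := by rw [hB] at m₂; exact hc.of_mul_monic_left m₂
  have cA : IsCoprime A h := by rw [hA] at c₁; exact c₁.of_mul_left_right
  have cB : IsCoprime B h := by rw [hB] at c₂; exact c₂.of_mul_left_right
  have cc : IsCoprime c h := by rw [hA] at c₁; exact c₁.of_mul_left_left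
  have dA : A ∣ C D * h - V₁ ^ 2 := (Dvd.intro_left _ hA.symm).trans d₁
  have dB : B ∣ C D * h - V₂ ^ 2 := (Dvd.intro_left _ hB.symm).trans d₂
  obtain ⟨a, b, hab⟩ := hAB
  obtain ⟨w, hw⟩ := unit_TWS h D hD c cc
  refine ⟨A * B, V₁ * (b * B) + V₂ * (a * A), w * (s₁ * s₂), mA.mul mB, cA.mul_left cB, ?_, ?_⟩
  · refine IsCoprime.mul_dvd ⟨a, b, hab⟩ ?_ ?_
    · have e : C D * h - (V₁ * (b * B) + V₂ * (a * A)) ^ 2 = (C D * h - V₁ ^ 2) +
          A * (V₁ ^ 2 * a * (1 + b * B) - V₂ * a * (2 * V₁ * (b * B) + V₂ * (a * A))) := by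
        have hb : b * B = 1 - a * A := by rw [← hab]; ring
        rw [hb]; ring
      rw [e]
      exact dvd_add dA (Dvd.intro _ rfl)
    · have e : C D * h - (V₁ * (b * B) + V₂ * (a * A)) ^ 2 = (C D * h - V₂ ^ 2) +
          B * (V₂ ^ 2 * b * (1 + a * A) - V₁ * b * (2 * V₂ * (a * A) + V₁ * (b * B))) := by
        have hb : a * A = 1 - b * B := by rw [← hab]; ring
        rw [hb]; ring
      rw [e]
      exact dvd_add dB (Dvd.intro _ rfl)
  · rw [Units.val_mul, e₁, e₂, Units.val_mul, Units.val_mul, hw, mA.natDegree_mul mB]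
    have n₁ : U₁.natDegree = c.natDegree + A.natDegree := by rw [hA, hc.natDegree_mul mA]
    have n₂ : U₂.natDegree = c.natDegree + B.natDegree := by rw [hB, hc.natDegree_mul mB]
    rw [n₁, n₂]
    rw [hA, hB]
    simp only [map_mul, map_pow]
    ring

theorem hTWS : StTWS := by
  intro k _ h D hD z hz
  have key : ∀ z ∈ twGroup h D, PT_TWS h D z := by
    intro z hz
    unfold twGroup at hz
    induction hz using Subgroup.closure_induction with
    | mem x hx =>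
      rcases hx with hx | ⟨w, rfl⟩
      · obtain ⟨U, V, hU, hcop, hd, hx'⟩ := hx
        exact ⟨U, V, 1, hU, hcop, hd, by rw [hx', Units.val_one, one_pow, mul_one]⟩
      · exact ⟨1, 0, w, monic_one, isCoprime_one_left, one_dvd _, by simp⟩
    | one => exact ⟨1, 0, 1, monic_one, isCoprime_one_left, one_dvd _, by simp⟩
    | mul x y _ _ hx hy => exact mul_TWS h D hD x y hx hy
    | inv x _ hx =>
      obtain ⟨U, V, s, hU, hcop, hd, hx'⟩ := hx
      refine ⟨U, V, s * x⁻¹, hU, hcop, hd, ?_⟩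
      have e : ((s * x⁻¹ : (AdjoinRoot h)ˣ) : AdjoinRoot h) ^ 2 =
          (s : AdjoinRoot h) ^ 2 * ((x⁻¹ : (AdjoinRoot h)ˣ) : AdjoinRoot h) ^ 2 := by
        rw [Units.val_mul]; ring
      rw [e, ← mul_assoc, ← hx', pow_two, ← mul_assoc, Units.mul_inv, one_mul]
  exact key z hz

end Pool.Agent.Helper9.GTI
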