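import Pool.Agent.Helper9.GTI.M_GU
import Pool.Agent.Helper3.HY.Base

/-!
# GT, part ISOG, module UI: from an approximate basis to a selfdual filtration at infinity
-/

set_option autoImplicit false

namespace Pool.Agent.Helper9.GTI

open Polynomial Finset Matrix
open Pool.Agent.Helper54.PT (Prm prm IsAbsP IsAbsInf)
open Pool.Agent.Helper3.HY (fK RR LL kp red TwAt twGroup baseChange co tau Kfil Gm Ix IsFil InA Bf
  Kfil_mono mul_mem_Kfil algebraMap_F_mem_Kfil inv_mem_Kfil mem_Kfil)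

section

variable {F : Type} [Field F]

theorem mem_of_lt_UI {v : AbsoluteValue (RatFunc F) ℝ} (hv : IsAbsInf v) {x : RatFunc F}
    (h : v x < 1) : x ∈ Kfil F (-1) := by
  rw [mem_Kfil]
  by_cases h0 : x = 0
  · exact Or.inl h0
  · right
    rw [hv x h0] at h
    by_contra hc
    push Not at hc
    have h1 : (0 : ℤ) ≤ x.intDegree := by omega
    have h2 : (1 : ℝ) ≤ (2 : ℝ) ^ x.intDegree := one_le_zpow₀ (by norm_num) h1
    linarith

theorem one_mem_UI : (1 : RatFunc F) ∈ Kfil F 0 := by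
  have := algebraMap_F_mem_Kfil (F := F) 1
  rwa [map_one] at this

theorem mul0_UI {a b : RatFunc F} {n : ℤ} (ha : a ∈ Kfil F 0) (hb : b ∈ Kfil F n) :
    a * b ∈ Kfil F n := by
  have := mul_mem_Kfil ha hb
  rwa [zero_add] at this

theorem prod_mem_UI {ι : Type} (S : Finset ι) (x : ι → RatFunc F)
    (hx : ∀ i ∈ S, x i ∈ Kfil F 0) : ∏ i ∈ S, x i ∈ Kfil F 0 := by
  classical
  induction S using Finset.induction_on with
  | empty => rw [Finset.prod_empty]; exact one_mem_UI
  | insert a S ha ih =>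
    rw [Finset.prod_insert ha]
    exact mul0_UI (hx a (Finset.mem_insert_self _ _))
      (ih fun i hi => hx i (Finset.mem_insert_of_mem hi))

theorem prod_sub_UI {ι : Type} (S : Finset ι) (x y : ι → RatFunc F)
    (hx : ∀ i ∈ S, x i ∈ Kfil F 0) (hy : ∀ i ∈ S, y i ∈ Kfil F 0)
    (hxy : ∀ i ∈ S, x i - y i ∈ Kfil F (-1)) :
    ∏ i ∈ S, x i - ∏ i ∈ S, y i ∈ Kfil F (-1) := by
  classical
  induction S using Finset.induction_on with
  | empty => rw [Finset.prod_empty, Finset.prod_empty, sub_self]; exact Submodule.zero_mem _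
  | insert a S ha ih =>
    rw [Finset.prod_insert ha, Finset.prod_insert ha]
    have h1 : x a * ∏ i ∈ S, x i - y a * ∏ i ∈ S, y i =
        x a * (∏ i ∈ S, x i - ∏ i ∈ S, y i) + (∏ i ∈ S, y i) * (x a - y a) := by ring
    rw [h1]
    refine Submodule.add_mem _ (mul0_UI (hx a (Finset.mem_insert_self _ _)) ?_) (mul0_UI ?_ ?_)
    · exact ih (fun i hi => hx i (Finset.mem_insert_of_mem hi))
        (fun i hi => hy i (Finset.mem_insert_of_mem hi))
        fun i hi => hxy i (Finset.mem_insert_of_mem hi)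
    · exact prod_mem_UI S y fun i hi => hy i (Finset.mem_insert_of_mem hi)
    · exact hxy a (Finset.mem_insert_self _ _)

theorem det_mem_UI {ι : Type} [Fintype ι] [DecidableEq ι] (M : Matrix ι ι (RatFunc F))
    (hM : ∀ i j, M i j ∈ Kfil F 0) : M.det ∈ Kfil F 0 := by
  rw [Matrix.det_apply]
  refine Submodule.sum_mem _ fun σ _ => ?_
  rw [Units.smul_def]
  exact zsmul_mem (prod_mem_UI _ _ fun i _ => hM _ _) _

theorem det_sub_UI {ι : Type} [Fintype ι] [DecidableEq ι] (M N : Matrix ι ι (RatFunc F))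
    (hM : ∀ i j, M i j ∈ Kfil F 0) (hN : ∀ i j, N i j ∈ Kfil F 0)
    (hMN : ∀ i j, M i j - N i j ∈ Kfil F (-1)) : M.det - N.det ∈ Kfil F (-1) := by
  rw [Matrix.det_apply, Matrix.det_apply, ← Finset.sum_sub_distrib]
  refine Submodule.sum_mem _ fun σ _ => ?_
  rw [Units.smul_def, Units.smul_def, ← zsmul_sub]
  exact zsmul_mem (prod_sub_UI _ _ _ (fun i _ => hM _ _) (fun i _ => hN _ _)
    fun i _ => hMN _ _) _

theorem adj_mem_UI {ι : Type} [Fintype ι] [DecidableEq ι] (M : Matrix ι ι (RatFunc F))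
    (hM : ∀ i j, M i j ∈ Kfil F 0) (i j : ι) : M.adjugate i j ∈ Kfil F 0 := by
  rw [Matrix.adjugate_apply]
  refine det_mem_UI _ fun a b => ?_
  rw [Matrix.updateRow_apply]
  split_ifs with h
  · rw [Pi.single_apply]
    split_ifs
    · exact one_mem_UI
    · exact Submodule.zero_mem _
  · exact hM a b

theorem sol_UI {ι : Type} [Fintype ι] [DecidableEq ι] (H : Matrix ι ι (RatFunc F))
    (hH : ∀ i j, H i j ∈ Kfil F 0) (h0 : H.det ≠ 0) (hd : H.det⁻¹ ∈ Kfil F 0)
    (n : ℤ) (a : ι → RatFunc F) (ha : ∀ j, ∑ i, a i * H i j ∈ Kfil F n) (i : ι) :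
    a i ∈ Kfil F n := by
  have h1 : (a ᵥ* H) ᵥ* H.adjugate = H.det • a := by
    rw [Matrix.vecMul_vecMul, Matrix.mul_adjugate, Matrix.vecMul_smul, Matrix.vecMul_one]
  have h2 : a i = H.det⁻¹ * ∑ j, H.adjugate j i * (∑ k, a k * H k j) := by
    have h3 := congrFun h1 i
    have h4 : ((a ᵥ* H) ᵥ* H.adjugate) i = ∑ j, (∑ k, a k * H k j) * H.adjugate j i := rfl
    rw [h4] at h3
    simp only [mul_comm (H.adjugate _ i)]
    rw [h3]
    simp only [Pi.smul_apply, smul_eq_mul]
    rw [← mul_assoc, inv_mul_cancel₀ h0, one_mul]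
  rw [h2]
  exact mul0_UI hd (Submodule.sum_mem _ fun j _ => mul0_UI (adj_mem_UI H hH j i) (ha j))

theorem Gm_det_UI (g : ℕ) : (Gm (RatFunc F) g).det * (Gm (RatFunc F) g).det = 1 := by
  rw [← Matrix.det_mul]
  have h1 : Gm (RatFunc F) g * Gm (RatFunc F) g = 1 := by
    ext i k
    rw [Matrix.mul_apply, Finset.sum_eq_single (Fin.rev i)]
    · simp only [Gm, if_true, one_mul, Fin.rev_rev, Matrix.one_apply]
      by_cases h : i = k
      · subst h; simp
      · rw [if_neg h, if_neg fun h' => h h'.symm]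
    · intro j _ hj
      simp only [Gm, if_neg hj, zero_mul]
    · intro h; exact absurd (Finset.mem_univ _) h
  rw [h1, Matrix.det_one]

theorem Gm_mem_UI (g : ℕ) (i j : Ix g) : Gm (RatFunc F) g i j ∈ Kfil F 0 := by
  unfold Gm
  split_ifs
  · exact one_mem_UI
  · exact Submodule.zero_mem _

theorem one_not_mem_UI : (1 : RatFunc F) ∉ Kfil F (-1) := by
  intro h
  rw [mem_Kfil] at h
  rcases h with h | h
  · exact one_ne_zero h
  · rw [RatFunc.intDegree_one] at h
    omega

/-- The determinant of a matrix which is congruent to `Gm` at infinity. -/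
theorem Gdet_UI (g : ℕ) (M : Matrix (Ix g) (Ix g) (RatFunc F))
    (h : ∀ i j, M i j - Gm (RatFunc F) g i j ∈ Kfil F (-1)) :
    (∀ i j, M i j ∈ Kfil F 0) ∧ M.det ≠ 0 ∧ M.det⁻¹ ∈ Kfil F 0 := by
  have h0 : ∀ i j, M i j ∈ Kfil F 0 := by
    intro i j
    have h1 := Submodule.add_mem _ (Kfil_mono (by norm_num : (-1 : ℤ) ≤ 0) (h i j))
      (Gm_mem_UI (F := F) g i j)
    rwa [sub_add_cancel] at h1
  have hd := det_sub_UI M _ h0 (Gm_mem_UI (F := F) g) h
  have hM0 := det_mem_UI M h0
  have hG0 := det_mem_UI _ (Gm_mem_UI (F := F) g)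
  have hnot : M.det ∉ Kfil F (-1) := by
    intro hc
    have h1 : (Gm (RatFunc F) g).det ∈ Kfil F (-1) := by
      have := Submodule.sub_mem _ hc hd
      rwa [sub_sub_cancel] at this
    have h2 := mul0_UI hG0 h1
    rw [Gm_det_UI] at h2
    exact one_not_mem_UI h2
  have hne : M.det ≠ 0 := by
    intro hc
    rw [hc] at hnot
    exact hnot (Submodule.zero_mem _)
  refine ⟨h0, hne, ?_⟩
  have h3 := inv_mem_Kfil M.det
  refine Kfil_mono ?_ h3
  rw [mem_Kfil] at hnot
  push Not at hnot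
  have := hnot.2
  omega

end

theorem hUI : StUI := by
  intro F _ v hv V _ _ _ _ _ _ _ B g hfin hsymm E hE
  have hG : ∀ i j, (Matrix.of fun i j => B (E i) (E j)) i j - Gm (RatFunc F) g i j ∈
      Kfil F (-1) := fun i j => mem_of_lt_UI hv (hE i j)
  obtain ⟨h0, hne, hinv⟩ := Gdet_UI g _ hG
  have hcard : Fintype.card (Ix g) = Module.finrank (RatFunc F) V := by
    rw [hfin]; exact Fintype.card_fin _
  have hcoord : ∀ x : V, ∃ a : Ix g → RatFunc F, x = ∑ i, a i • E i ∧
      ∀ n : ℤ, (∀ i, B x (E i) ∈ Kfil F n) → ∀ i, a i ∈ Kfil F n := by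
    intro x
    obtain ⟨a, ha⟩ := span_GU E (fun j => B.flip (E j)) hcard hne x
    refine ⟨a, ha, fun n hn => ?_⟩
    refine sol_UI _ h0 hne hinv n a fun j => ?_
    have h1 := hn j
    rw [ha] at h1
    simp only [map_sum, map_smul, LinearMap.sum_apply, LinearMap.smul_apply, smul_eq_mul] at h1
    exact h1
  let Fil : ℤ → Submodule F V := fun n =>
    { carrier := {x | ∀ i, B x (E i) ∈ Kfil F n}
      zero_mem' := by
        intro i
        rw [map_zero, LinearMap.zero_apply]
        exact Submodule.zero_mem _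
      add_mem' := by
        intro x y hx hy i
        rw [map_add, LinearMap.add_apply]
        exact Submodule.add_mem _ (hx i) (hy i)
      smul_mem' := by
        intro c x hx i
        have h1 : c • x = (algebraMap F (RatFunc F) c) • x := (algebraMap_smul _ c x).symm
        rw [h1, map_smul, LinearMap.smul_apply, smul_eq_mul]
        exact mul0_UI (algebraMap_F_mem_Kfil c) (hx i) }
  have hFil : ∀ (n : ℤ) (x : V), x ∈ Fil n ↔ ∀ i, B x (E i) ∈ Kfil F n := fun n x => Iff.rfl
  refine ⟨Fil, ⟨hsymm, ?_, ?_, ?_, ?_, ?_, ?_⟩⟩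
  · intro m n hmn x hx i
    exact Kfil_mono hmn (hx i)
  · intro k n a x ha hx i
    rw [map_smul, LinearMap.smul_apply, smul_eq_mul]
    exact mul_mem_Kfil ha (hx i)
  · intro x
    have h1 : ∀ i, B x (E i) ∈ Kfil F (B x (E i)).intDegree := fun i =>
      mem_Kfil.2 (Or.inr le_rfl)
    obtain ⟨M, hM⟩ := (Finset.univ.image fun i => (B x (E i)).intDegree).exists_le
    refine ⟨M, fun i => Kfil_mono (hM _ ?_) (h1 i)⟩
    exact Finset.mem_image_of_mem _ (Finset.mem_univ i)
  · intro x hx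
    obtain ⟨a, ha, ha2⟩ := hcoord x
    have h1 : ∀ i, a i = 0 := by
      intro i
      have h2 := ha2 ((a i).intDegree - 1) (fun j => hx _ j) i
      rw [mem_Kfil] at h2
      rcases h2 with h2 | h2
      · exact h2
      · omega
    rw [ha]
    simp only [h1, zero_smul, Finset.sum_const_zero]
  · intro m n x y hx hy
    obtain ⟨a, ha, ha2⟩ := hcoord x
    have h5 : B x y = ∑ i, a i * B y (E i) := by
      conv_lhs => rw [ha]
      simp only [map_sum, map_smul, LinearMap.sum_apply, LinearMap.smul_apply, smul_eq_mul]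
      exact Finset.sum_congr rfl fun i _ => by rw [hsymm y (E i)]
    rw [h5]
    exact Submodule.sum_mem _ fun i _ => mul_mem_Kfil (ha2 m hx i) (hy i)
  · intro n y hy i
    have h1 := hy 0 (E i) (fun j => h0 i j)
    rw [zero_add] at h1
    rwa [hsymm]

end Pool.Agent.Helper9.GTI
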