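import Pool.Agent.Helper9.GTI.St
import Pool.Agent.Helper3.HY.BaseU

set_option autoImplicit false

namespace Pool.Agent.Helper9.GTI

open Polynomial Finset
open Pool.Agent.Helper54.PT (Prm IsAbsP ordK)
open Pool.Agent.Helper3.HY (kp red Gm Ix)

private theorem modP_zero_of_lt_UP {F : Type} [Field F] {P : Prm F}
    {v : AbsoluteValue (RatFunc F) ℝ} (hv : IsAbsP P v) {x : RatFunc F} (hx : v x < 1) :
    ModP P x 0 := by
  by_cases h0 : x = 0
  · subst h0
    refine ⟨0, 1, fun h => P.2.2.not_isUnit (isUnit_of_dvd_one h), ?_, ?_⟩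
    · rw [zero_mul, map_zero]
    · rw [map_zero, zero_mul]
  rw [hv x h0] at hx
  have h1 : 0 < ordK P x := by
    by_contra h
    have h2 : (1 : ℝ) ≤ 2 ^ (-ordK P x) := one_le_zpow₀ (by norm_num) (by omega)
    linarith
  have h2 : P.1 ∣ x.num := by
    by_contra h
    rw [ordK, multiplicity_eq_zero.2 h] at h1
    omega
  have h3 : ¬ P.1 ∣ x.denom := fun h => P.2.2.not_isUnit
    ((RatFunc.isCoprime_num_denom x).isUnit_of_dvd' h2 h)
  refine ⟨x.num, x.denom, h3, ?_, ?_⟩
  · have h4 : algebraMap F[X] (RatFunc F) x.denom ≠ 0 := by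
      rw [Ne, map_eq_zero_iff _ (RatFunc.algebraMap_injective F)]
      exact x.denom_ne_zero
    exact (div_eq_iff h4).1 (RatFunc.num_div_denom x) |>.symm
  · rw [zero_mul]
    exact AdjoinRoot.mk_eq_zero.2 h2

theorem hUP (hGA : StGA) : StUP := by
  intro F _ P v hv V _ _ B g E hE
  have hA := hGA F P
  have hent : ∀ i j, ModP P (B (E i) (E j)) (Gm (kp P) g i j) := by
    intro i j
    have h1 : ModP P (Gm (RatFunc F) g i j) (Gm (kp P) g i j) := by
      by_cases h : j = Fin.rev i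
      · rw [Pool.Agent.Helper3.HY.Gm_apply, Pool.Agent.Helper3.HY.Gm_apply, if_pos h, if_pos h]
        have := hA.ofA 1
        rwa [map_one, map_one] at this
      · rw [Pool.Agent.Helper3.HY.Gm_apply, Pool.Agent.Helper3.HY.Gm_apply, if_neg h, if_neg h]
        have := hA.ofA 0
        rwa [map_zero, map_zero] at this
    have h2 := hA.add _ _ _ _ (modP_zero_of_lt_UP hv (hE i j)) h1
    rwa [sub_add_cancel, zero_add] at h2
  refine ⟨fun i j => (hA.reg_iff _).2 ⟨_, hent i j⟩, (Gm (kp P) g).det, ?_, ?_⟩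
  · intro h
    have h1 : (Gm (kp P) g * Gm (kp P) g).det = 1 := by
      rw [Pool.Agent.Helper3.HY.Gm_mul_Gm, Matrix.det_one]
    rw [Matrix.det_mul, h, zero_mul] at h1
    exact zero_ne_one h1
  · exact hA.det _ _ _ hent

end Pool.Agent.Helper9.GTI
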