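import Pool.Agent.Helper9.GTI.St

set_option autoImplicit false

namespace Pool.Agent.Helper9.GTI

open Polynomial Finset Matrix

theorem hWITT : StWITT := by
  intro k _ h2 V _ _ _ B g hs hnd hdim W hg hW
  classical
  -- a basis of an isotropic subspace
  obtain ⟨u0, hu0⟩ := exists_linearIndependent_of_le_finrank hg
  set u : Fin g → V := fun i => (u0 i : V) with hu
  have huli : LinearIndependent k u := hu0.map' W.subtype W.ker_subtype
  have huu : ∀ i j, B (u i) (u j) = 0 := fun i j => hW _ (u0 i).2 _ (u0 j).2
  -- the evaluation map is surjective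
  let T : V →ₗ[k] (Fin g → k) := LinearMap.pi fun i => B (u i)
  have hT : ∀ y i, T y i = B (u i) y := fun y i => rfl
  have hTs : LinearMap.range T = ⊤ := by
    by_contra hne
    obtain ⟨f, hf0, hf⟩ := Submodule.exists_le_ker_of_lt_top _ (lt_top_iff_ne_top.2 hne)
    apply hf0
    have hfs : ∀ v : Fin g → k, f v = ∑ i, v i * f (Pi.single i 1) := by
      intro v
      conv_lhs => rw [pi_eq_sum_univ' v]
      rw [map_sum]
      exact Finset.sum_congr rfl fun i _ => by
        rw [map_smul, smul_eq_mul]
    have hz : ∑ i, f (Pi.single i 1) • u i = 0 := by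
      refine hnd _ fun x => ?_
      have h1 : f (T x) = 0 := by
        have : T x ∈ LinearMap.ker f := hf ⟨x, rfl⟩
        exact this
      rw [hfs] at h1
      rw [map_sum]
      rw [← h1]
      exact Finset.sum_congr rfl fun i _ => by
        rw [map_smul, smul_eq_mul, hT, hs x (u i), mul_comm]
    have ha := (Fintype.linearIndependent_iff.1 huli) _ hz
    ext v
    simp [ha v]
  have hTs' : Function.Surjective T := LinearMap.range_eq_top.1 hTs
  choose w' hw' using fun j => hTs' (Pi.single j 1)
  have huw' : ∀ i j, B (u i) (w' j) = if i = j then 1 else 0 := by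
    intro i j
    rw [← hT, hw' j, Pi.single_apply]
  have hwu' : ∀ i j, B (w' i) (u j) = if j = i then 1 else 0 := fun i j => by
    rw [hs, huw']
  -- orthogonalise
  set w : Fin g → V := fun j => w' j - (1 / 2 : k) • ∑ l, B (w' j) (w' l) • u l with hw
  have huw : ∀ i j, B (u i) (w j) = if i = j then 1 else 0 := by
    intro i j
    have h3 : B (u i) (∑ l, B (w' j) (w' l) • u l) = 0 := by
      rw [map_sum]
      exact Finset.sum_eq_zero fun l _ => by rw [map_smul, huu, smul_zero]
    rw [hw]
    simp only [map_sub, map_smul, h3, smul_zero, sub_zero, huw']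
  have hww : ∀ i j, B (w i) (w j) = 0 := by
    intro i j
    have h3 : ∀ x j, B x (∑ l, B (w' j) (w' l) • u l) = ∑ l, B (w' j) (w' l) * B x (u l) := by
      intro x j
      rw [map_sum]
      exact Finset.sum_congr rfl fun l _ => by rw [map_smul, smul_eq_mul]
    have h4 : B (w i) (w j) = B (w i) (w' j) - (1 / 2) * B (w i) (∑ l, B (w' j) (w' l) • u l) := by
      rw [hw]
      simp only [map_sub, map_smul, smul_eq_mul]
    have h5 : B (w i) (∑ l, B (w' j) (w' l) • u l) = B (w' j) (w' i) := by
      rw [h3]
      have : ∀ l, B (w i) (u l) = if l = i then 1 else 0 := fun l => by rw [hs, huw]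
      simp [this]
    have h6 : B (w i) (w' j) = B (w' i) (w' j) - (1 / 2) * B (w' i) (w' j) := by
      rw [hs (w i) (w' j)]
      have : B (w' j) (w i) = B (w' j) (w' i)
          - (1 / 2) * B (w' j) (∑ l, B (w' i) (w' l) • u l) := by
        rw [hw]
        simp only [map_sub, map_smul, smul_eq_mul]
      rw [this, h3]
      simp only [hwu', mul_ite, mul_one, mul_zero, Finset.sum_ite_eq', Finset.mem_univ, if_true]
      rw [hs (w' j) (w' i)]
    rw [h4, h5, h6, hs (w' j) (w' i)]
    field_simp
    ring
  -- the orthogonal complement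
  let S : V →ₗ[k] (Fin g → k) × (Fin g → k) :=
    LinearMap.prod (LinearMap.pi fun i => B (u i)) (LinearMap.pi fun i => B (w i))
  have hS : ∀ y, S y = (fun i => B (u i) y, fun i => B (w i) y) := fun y => rfl
  have hSs : Function.Surjective S := by
    rintro ⟨a, b⟩
    refine ⟨∑ i, a i • w i + ∑ i, b i • u i, ?_⟩
    rw [hS]
    have e1 : ∀ i, B (u i) (∑ i, a i • w i + ∑ i, b i • u i) = a i := by
      intro i
      rw [map_add, map_sum, map_sum]
      simp only [map_smul, smul_eq_mul, huw, huu, mul_zero, Finset.sum_const_zero, add_zero,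
        mul_ite, mul_one]
      simp
    have e2 : ∀ i, B (w i) (∑ i, a i • w i + ∑ i, b i • u i) = b i := by
      intro i
      rw [map_add, map_sum, map_sum]
      have : ∀ l, B (w i) (u l) = if l = i then 1 else 0 := fun l => by rw [hs, huw]
      simp only [map_smul, smul_eq_mul, this, hww, mul_zero, Finset.sum_const_zero, zero_add,
        mul_ite, mul_one]
      simp
    ext i
    · exact e1 i
    · exact e2 i
  have hker : Module.finrank k (LinearMap.ker S) = 1 := by
    have h := LinearMap.finrank_range_add_finrank_ker S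
    rw [LinearMap.range_eq_top.2 hSs, finrank_top, Module.finrank_prod, Module.finrank_fin_fun,
      hdim] at h
    omega
  obtain ⟨c0, hc0, hcs⟩ := finrank_eq_one_iff'.1 hker
  refine ⟨u, w, c0, huw, huu, hww, fun i => ?_, fun i => ?_, ?_⟩
  · have h := c0.2
    rw [LinearMap.mem_ker, hS] at h
    rw [hs]
    exact congrFun (congrArg Prod.fst h) i
  · have h := c0.2
    rw [LinearMap.mem_ker, hS] at h
    rw [hs]
    exact congrFun (congrArg Prod.snd h) i
  · intro hcc
    have hcu : ∀ i, B (c0 : V) (u i) = 0 := by
      intro i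
      have h := c0.2
      rw [LinearMap.mem_ker, hS] at h
      rw [hs]
      exact congrFun (congrArg Prod.fst h) i
    have hcw : ∀ i, B (c0 : V) (w i) = 0 := by
      intro i
      have h := c0.2
      rw [LinearMap.mem_ker, hS] at h
      rw [hs]
      exact congrFun (congrArg Prod.snd h) i
    apply hc0
    apply Subtype.ext
    refine hnd _ fun x => ?_
    set x' : V := x - ∑ i, B (u i) x • w i - ∑ i, B (w i) x • u i with hx'
    have hx'k : x' ∈ LinearMap.ker S := by
      rw [LinearMap.mem_ker, hS]
      have e1 : ∀ i, B (u i) x' = 0 := by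
        intro i
        rw [hx', map_sub, map_sub, map_sum, map_sum]
        simp only [map_smul, smul_eq_mul, huw, huu, mul_zero, Finset.sum_const_zero, sub_zero,
          mul_ite, mul_one]
        simp
      have e2 : ∀ i, B (w i) x' = 0 := by
        intro i
        rw [hx', map_sub, map_sub, map_sum, map_sum]
        have : ∀ l, B (w i) (u l) = if l = i then 1 else 0 := fun l => by rw [hs, huw]
        simp only [map_smul, smul_eq_mul, this, hww, mul_zero, Finset.sum_const_zero, sub_zero,
          mul_ite, mul_one]
        simp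
      ext i
      · exact e1 i
      · exact e2 i
    obtain ⟨a, ha⟩ := hcs ⟨x', hx'k⟩
    have ha' : a • (c0 : V) = x' := congrArg Subtype.val ha
    have hx : x = x' + ∑ i, B (u i) x • w i + ∑ i, B (w i) x • u i := by
      rw [hx']; abel
    rw [hs]
    have e3 : B (c0 : V) x' = 0 := by rw [← ha', map_smul, hcc, smul_zero]
    rw [hx, map_add, map_add, map_sum, map_sum, e3]
    simp only [map_smul, hcu, hcw, smul_zero, Finset.sum_const_zero, add_zero]

end Pool.Agent.Helper9.GTI
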