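import Pool.Agent.Helper9.GTI.M_APX
import Pool.Agent.Helper9.GTI.M_BCT
import Pool.Agent.Helper9.GTI.M_EVU
import Pool.Agent.Helper9.GTI.M_FAM
import Pool.Agent.Helper9.GTI.M_GA
import Pool.Agent.Helper9.GTI.M_GB
import Pool.Agent.Helper9.GTI.M_GC
import Pool.Agent.Helper9.GTI.M_GD1
import Pool.Agent.Helper9.GTI.M_GD2
import Pool.Agent.Helper9.GTI.M_GG
import Pool.Agent.Helper9.GTI.M_GLOB
import Pool.Agent.Helper9.GTI.M_GU
import Pool.Agent.Helper9.GTI.M_IDEM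
import Pool.Agent.Helper9.GTI.M_IDU
import Pool.Agent.Helper9.GTI.M_ISOG
import Pool.Agent.Helper9.GTI.M_ISOL
import Pool.Agent.Helper9.GTI.M_LOC
import Pool.Agent.Helper9.GTI.M_LP
import Pool.Agent.Helper9.GTI.M_LPA
import Pool.Agent.Helper9.GTI.M_LPB
import Pool.Agent.Helper9.GTI.M_MU
import Pool.Agent.Helper9.GTI.M_NFZ
import Pool.Agent.Helper9.GTI.M_PF
import Pool.Agent.Helper9.GTI.M_QD
import Pool.Agent.Helper9.GTI.M_REP
import Pool.Agent.Helper9.GTI.M_SPA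
import Pool.Agent.Helper9.GTI.M_SPL
import Pool.Agent.Helper9.GTI.M_STD
import Pool.Agent.Helper9.GTI.M_TND
import Pool.Agent.Helper9.GTI.M_TRA
import Pool.Agent.Helper9.GTI.M_TRB
import Pool.Agent.Helper9.GTI.M_TWS
import Pool.Agent.Helper9.GTI.M_UI
import Pool.Agent.Helper9.GTI.M_UP
import Pool.Agent.Helper9.GTI.M_WITT
import Pool.Agent.Helper3.GT.M_FAC

/-!
# GT, part ISOG: assembly
-/

set_option autoImplicit false

namespace Pool.Agent.Helper9.GTI

theorem stIDEM : StIDEM := hIDEM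
theorem stREP : StREP := hREP hIDEM
theorem stMU : StMU := hMU hTND
theorem stLPA : StLPA := hLPA hGA hIDU
theorem stLPB : StLPB := hLPB hGA stMU hIDEM stLPA
theorem stLP : StLP := hLP stREP stLPB
theorem stSPA : StSPA := hSPA hPF hTND hISOL
theorem stSPL : StSPL := hSPL hTWS stSPA
theorem stNFZ : StNFZ := hNFZ stSPL hTND hWITT
theorem stAPX : StAPX := hAPX hBCT
theorem stLOC : StLOC := hLOC stNFZ hBCT stAPX (hUP hGA) hUI
theorem stGC : StGC := hGC hGA
theorem stGD1 : StGD1 := hGD1 hGA hGG stGC hGB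
theorem stGD2 : StGD2 := hGD2 hGA hGG stGC hGB
theorem stGLOB : StGLOB :=
  hGLOB hGG (hSTD hGG) (hFAM hGA) (hGU hGA) hGA stGD1 stGD2 hTRA hTRB
theorem stQD (hOE : Pool.Agent.Helper3.GT.StOE) : StQD :=
  hQD Pool.Agent.Helper3.GT.hFAC hOE stLP hEVU stLOC stGLOB

/-- The global isotropy. -/
theorem stISOG (hOE : Pool.Agent.Helper3.GT.StOE) : Pool.Agent.Helper3.GT.StISOG :=
  hISOG hOE (stQD hOE)

end Pool.Agent.Helper9.GTI
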