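import Pool.Agent.Helper9.GTI.St
import Pool.Agent.Helper3.HY.Base
import Pool.Agent.Helper47.BSD.Compl

/-!
# GT, part ISOG, module APX: approximation of a basis over the completion
-/

set_option autoImplicit false

namespace Pool.Agent.Helper9.GTI

open Polynomial Finset Matrix
open Pool.Agent.Helper54.PT (Prm prm IsAbsP IsAbsInf)
open Pool.Agent.Helper3.HY (fK RR LL kp red TwAt twGroup baseChange co tau Kfil Gm Ix IsFil InA Bf
  sum_co)
open Pool.Agent.Helper9.HYI (IsRes tL)
open Pool.Agent.Helper47.BSD (norm_algebraMap)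

/-- a linear functional of a product of three factors, two of them written in the powers of `θ` -/
private theorem expand_APX {B A : Type} [CommRing B] [CommRing A] [Algebra B A] (T : A →ₗ[B] B)
    (z r : A) (n : ℕ) (a b : Fin n → B) :
    T (z * (∑ l : Fin n, a l • r ^ (l : ℕ)) * (∑ m : Fin n, b m • r ^ (m : ℕ))) =
      ∑ l : Fin n, ∑ m : Fin n, a l * b m * T (z * r ^ (l : ℕ) * r ^ (m : ℕ)) := by
  rw [mul_sum, mul_sum, sum_comm, map_sum]
  refine sum_congr rfl fun m _ => ?_
  rw [sum_mul, map_sum]
  refine sum_congr rfl fun l _ => ?_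
  rw [mul_smul_comm, mul_smul_comm, smul_mul_assoc, map_smul, map_smul, smul_eq_mul, smul_eq_mul]
  ring

theorem hAPX (hBCT : StBCT) : StAPX := by
  intro F _ g f hm hdeg v z e he
  classical
  let j : RatFunc F →+* v.Completion := algebraMap (RatFunc F) v.Completion
  have hmK : (fK f).Monic := hm.map (algebraMap F[X] (RatFunc F))
  have hmj : ((fK f).map j).Monic := hmK.map j
  have hnd : ((fK f).map j).natDegree = 2 * g + 1 := by
    rw [hmK.natDegree_map, hm.natDegree_map, hdeg]
  let bz : AdjoinRoot ((fK f).map j) := baseChange j (fK f) z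
  let θ : AdjoinRoot ((fK f).map j) := AdjoinRoot.root ((fK f).map j)
  have he' : ∀ i, e i = ∑ l : Fin (2 * g + 1), co hmj l (e i) • θ ^ (l : ℕ) := by
    intro i
    conv_lhs => rw [sum_co hmj (e i), hnd]
    rw [← Fin.sum_univ_eq_sum_range (fun l => co hmj l (e i) • θ ^ l) (2 * g + 1)]
  let T : (Ix g → Fin (2 * g + 1) → v.Completion) → Ix g → Ix g → v.Completion := fun a i i' =>
    ∑ l : Fin (2 * g + 1), ∑ m : Fin (2 * g + 1), a i l * a i' m *
      tau hmj (bz * θ ^ (l : ℕ) * θ ^ (m : ℕ))
  have hTc : ∀ i i', Continuous fun a => T a i i' := by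
    intro i i'
    refine continuous_finsetSum _ fun l _ => continuous_finsetSum _ fun m _ => ?_
    refine Continuous.mul (Continuous.mul ?_ ?_) continuous_const
    · exact (continuous_apply l).comp (continuous_apply i)
    · exact (continuous_apply m).comp (continuous_apply i')
  have hopen : IsOpen {a : Ix g → Fin (2 * g + 1) → v.Completion |
      ∀ i i', ‖T a i i' - Gm v.Completion g i i'‖ < 1} := by
    simp only [Set.ofPred_forall]
    refine isOpen_iInter_of_finite fun i => isOpen_iInter_of_finite fun i' => ?_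
    exact isOpen_lt ((hTc i i').sub continuous_const).norm continuous_const
  have hne : {a : Ix g → Fin (2 * g + 1) → v.Completion |
      ∀ i i', ‖T a i i' - Gm v.Completion g i i'‖ < 1}.Nonempty := by
    refine ⟨fun i l => co hmj l (e i), fun i i' => ?_⟩
    have h1 : T (fun i l => co hmj l (e i)) i i' = Gm v.Completion g i i' := by
      have h0 : tau hmj (bz * e i * e i') = Gm v.Completion g i i' := he i i'
      rw [← h0]
      conv_rhs => rw [he' i, he' i']
      rw [expand_APX]
    rw [h1, sub_self, norm_zero]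
    exact one_pos
  have hd : DenseRange (fun (a : Ix g → Fin (2 * g + 1) → WithAbs v) =>
      (fun i l => ((a i l : WithAbs v) : v.Completion))) := by
    have h1 : DenseRange (Pi.map fun (_ : Fin (2 * g + 1)) =>
        ((fun x => (x : v.Completion)) : WithAbs v → v.Completion)) :=
      DenseRange.piMap fun _ => UniformSpace.Completion.denseRange_coe
    exact DenseRange.piMap (ι := Ix g) fun _ => h1
  obtain ⟨A, hA⟩ := hd.exists_mem_open hopen hne
  refine ⟨fun i => ∑ l : Fin (2 * g + 1), (A i l).ofAbs • AdjoinRoot.root (fK f) ^ (l : ℕ), ?_⟩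
  intro i i'
  have hA' := hA i i'
  rw [← norm_algebraMap v, map_sub]
  have h2 : algebraMap (RatFunc F) v.Completion (Gm (RatFunc F) g i i') =
      Gm v.Completion g i i' := by
    unfold Gm
    split_ifs
    · exact map_one _
    · exact map_zero _
  have hbc : ∀ i : Ix g, baseChange j (fK f)
      (∑ l : Fin (2 * g + 1), (A i l).ofAbs • AdjoinRoot.root (fK f) ^ (l : ℕ)) =
      ∑ l : Fin (2 * g + 1), ((A i l : WithAbs v) : v.Completion) • θ ^ (l : ℕ) := by
    intro i
    rw [map_sum]
    refine sum_congr rfl fun l _ => ?_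
    rw [Algebra.smul_def, Algebra.smul_def, map_mul, map_pow, (hBCT _ _ j (fK f) hmK 1).2]
    congr 1
    change AdjoinRoot.map j (fK f) ((fK f).map j) dvd_rfl (AdjoinRoot.of (fK f) (A i l).ofAbs) = _
    rw [AdjoinRoot.map_of]
    rfl
  have h3 : algebraMap (RatFunc F) v.Completion (tL hm (z *
      (∑ l : Fin (2 * g + 1), (A i l).ofAbs • AdjoinRoot.root (fK f) ^ (l : ℕ)) *
      (∑ l : Fin (2 * g + 1), (A i' l).ofAbs • AdjoinRoot.root (fK f) ^ (l : ℕ)))) =
      T (fun i l => ((A i l : WithAbs v) : v.Completion)) i i' := by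
    change j (tau hmK _) = _
    rw [← (hBCT _ _ j (fK f) hmK _).1, RingHom.map_mul (baseChange j (fK f)),
      RingHom.map_mul (baseChange j (fK f)), hbc, hbc, expand_APX]
  rw [h2, h3]
  exact hA'

end Pool.Agent.Helper9.GTI
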