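import Pool.Agent.Helper9.GTI.St
import Mathlib.RingTheory.Idempotents

/-!
# GT, part ISOG, module IDEM: lifting idempotents
-/

set_option autoImplicit false

namespace Pool.Agent.Helper9.GTI

open Polynomial Finset Matrix
open Pool.Agent.Helper54.PT (Prm prm IsAbsP IsAbsInf)
open Pool.Agent.Helper3.HY (fK RR LL kp red)
open Pool.Agent.Helper3.GT (facs)

section IDEM

variable {F : Type} [Field F]

/-- a polynomial with zero reduction is a multiple of `P` -/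
theorem dvd_of_map_eq_zero_IDEM (P : Prm F) (a : F[X][X]) (h : a.map (red P) = 0) :
    ∃ b : F[X][X], a = C P.1 * b := by
  have h1 : C P.1 ∣ a := by
    rw [C_dvd_iff_dvd_coeff]
    intro i
    have h2 := congrArg (fun p => p.coeff i) h
    simp only [coeff_map, coeff_zero] at h2
    exact AdjoinRoot.mk_eq_zero.1 h2
  exact h1

/-- if the reduction of `a` is divisible by that of `f` then `mk a` is a multiple of `P` -/
theorem mk_of_dvd_IDEM (f : F[X][X]) (P : Prm F) (a : F[X][X])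
    (h : f.map (red P) ∣ a.map (red P)) :
    ∃ b : F[X][X], AdjoinRoot.mk f a = algebraMap F[X] (RR f) P.1 * AdjoinRoot.mk f b := by
  obtain ⟨c', hc'⟩ := h
  obtain ⟨c, hc⟩ := Polynomial.map_surjective (red P) AdjoinRoot.mk_surjective c'
  obtain ⟨b, hb⟩ := dvd_of_map_eq_zero_IDEM P (a - f * c) (by
    rw [Polynomial.map_sub, Polynomial.map_mul, hc, hc', sub_self])
  refine ⟨b, ?_⟩
  have h1 : a = C P.1 * b + f * c := by rw [← hb]; ring
  rw [h1, map_add, map_mul, map_mul, AdjoinRoot.mk_self, zero_mul, add_zero, AdjoinRoot.mk_C]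
  rfl

end IDEM

theorem hIDEM : StIDEM := by
  intro F _ f hm P hfac N
  classical
  set Q : (kp P)[X] := f.map (red P) with hQ
  -- CRT idempotents
  have hcop : ∀ ψ ∈ facs f P, ∀ φ ∈ facs f P, ψ ≠ φ → IsCoprime ψ φ := by
    intro ψ hψ φ hφ hne
    obtain ⟨hψ1, hψ2, _⟩ := (hfac.mem ψ).1 hψ
    obtain ⟨hφ1, hφ2, _⟩ := (hfac.mem φ).1 hφ
    by_cases hd : ψ ∣ φ
    · exact absurd (eq_of_monic_of_associated hψ1 hφ1 (hψ2.associated_of_dvd hφ2 hd)) hne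
    · exact (hψ2.coprime_iff_not_dvd).2 hd
  have hdvd : ∀ c : (kp P)[X], (∀ ψ ∈ facs f P, ψ ∣ c) → Q ∣ c := by
    intro c hc
    rw [hQ, ← hfac.prod]
    exact Finset.prod_dvd_of_coprime (fun ψ hψ φ hφ hne => hcop ψ hψ φ hφ hne) hc
  have hc : ∀ ψ ∈ facs f P, ∃ c : (kp P)[X], ψ ∣ c - 1 ∧ ∀ φ ∈ facs f P, φ ≠ ψ → φ ∣ c := by
    intro ψ hψ
    have h1 : IsCoprime ψ (∏ φ ∈ (facs f P).erase ψ, φ) := by
      apply IsCoprime.prod_right
      intro φ hφ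
      exact hcop ψ hψ φ (Finset.mem_of_mem_erase hφ) (Finset.ne_of_mem_erase hφ).symm
    obtain ⟨u, v, huv⟩ := h1
    refine ⟨v * ∏ φ ∈ (facs f P).erase ψ, φ, ⟨-u, ?_⟩, fun φ hφ hne => ?_⟩
    · rw [← huv]; ring
    · exact (Finset.dvd_prod_of_mem _ (Finset.mem_erase.2 ⟨hne, hφ⟩)).mul_left v
  choose! c hc1 hc2 using hc
  -- the rings
  let ρ : RR f →+* AdjoinRoot Q := AdjoinRoot.map (red P) f Q dvd_rfl
  have hρ : ∀ a : F[X][X], ρ (AdjoinRoot.mk f a) = AdjoinRoot.mk Q (a.map (red P)) := by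
    intro a
    change AdjoinRoot.map (red P) f Q dvd_rfl (AdjoinRoot.mk f a) = _
    rw [AdjoinRoot.map, AdjoinRoot.lift_mk, ← Polynomial.eval₂_map, ← AdjoinRoot.aeval_eq,
      Polynomial.aeval_def]
    rfl
  let I : Ideal (RR f) := Ideal.span {algebraMap F[X] (RR f) (P.1 ^ (N + 1))}
  have hρP : ρ (algebraMap F[X] (RR f) P.1) = 0 := by
    have h1 : algebraMap F[X] (RR f) P.1 = AdjoinRoot.mk f (C P.1) := rfl
    rw [h1, hρ, Polynomial.map_C, AdjoinRoot.mk_self, map_zero, map_zero]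
  have hρI : ∀ x ∈ I, ρ x = 0 := by
    intro x hx
    obtain ⟨y, rfl⟩ := Ideal.mem_span_singleton.1 hx
    rw [map_mul, map_pow (algebraMap F[X] (RR f)), map_pow ρ, hρP, zero_pow (Nat.succ_ne_zero N),
      zero_mul]
  let ρ' : RR f ⧸ I →+* AdjoinRoot Q := Ideal.Quotient.lift I ρ hρI
  have hρ' : ∀ x, ρ' (Ideal.Quotient.mk I x) = ρ x := fun x => Ideal.Quotient.lift_mk _ _ _
  have hker : ∀ x ∈ RingHom.ker ρ', IsNilpotent x := by
    intro x hx
    obtain ⟨y, rfl⟩ := Ideal.Quotient.mk_surjective x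
    obtain ⟨a, rfl⟩ := AdjoinRoot.mk_surjective y
    rw [RingHom.mem_ker, hρ', hρ, AdjoinRoot.mk_eq_zero] at hx
    obtain ⟨b, hb⟩ := mk_of_dvd_IDEM f P a hx
    refine ⟨N + 1, ?_⟩
    rw [hb, ← map_pow, mul_pow, ← map_pow, Ideal.Quotient.eq_zero_iff_mem]
    exact Ideal.mul_mem_right _ _ (Ideal.mem_span_singleton_self _)
  let e₀ : {ψ // ψ ∈ facs f P} → AdjoinRoot Q := fun ψ => AdjoinRoot.mk Q (c ψ.1)
  have he₀ : OrthogonalIdempotents e₀ := by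
    constructor
    · intro ψ
      change AdjoinRoot.mk Q (c ψ.1) * AdjoinRoot.mk Q (c ψ.1) = AdjoinRoot.mk Q (c ψ.1)
      rw [← map_mul, AdjoinRoot.mk_eq_mk]
      apply hdvd
      intro φ hφ
      have h1 : c ψ.1 * c ψ.1 - c ψ.1 = c ψ.1 * (c ψ.1 - 1) := by ring
      rw [h1]
      by_cases h : φ = ψ.1
      · rw [h]; exact (hc1 ψ.1 ψ.2).mul_left _
      · exact (hc2 ψ.1 ψ.2 φ hφ h).mul_right _
    · intro ψ φ hne
      change AdjoinRoot.mk Q (c ψ.1) * AdjoinRoot.mk Q (c φ.1) = 0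
      rw [← map_mul, AdjoinRoot.mk_eq_zero]
      apply hdvd
      intro χ hχ
      by_cases h : χ = ψ.1
      · refine (hc2 φ.1 φ.2 χ hχ ?_).mul_left _
        intro h'
        exact hne (Subtype.ext (h.symm.trans h'))
      · exact (hc2 ψ.1 ψ.2 χ hχ h).mul_right _
  have hrange : ∀ ψ, e₀ ψ ∈ ρ'.range := by
    intro ψ
    obtain ⟨a, ha⟩ := Polynomial.map_surjective (red P) AdjoinRoot.mk_surjective (c ψ.1)
    refine ⟨Ideal.Quotient.mk I (AdjoinRoot.mk f a), ?_⟩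
    rw [hρ', hρ, ha]
  obtain ⟨e', he', hee⟩ := OrthogonalIdempotents.lift_of_isNilpotent_ker ρ' hker he₀ hrange
  have hrep : ∀ ψ : {ψ // ψ ∈ facs f P}, ∃ a : F[X][X],
      Ideal.Quotient.mk I (AdjoinRoot.mk f a) = e' ψ := by
    intro ψ
    obtain ⟨y, hy⟩ := Ideal.Quotient.mk_surjective (e' ψ)
    obtain ⟨a, ha⟩ := AdjoinRoot.mk_surjective y
    exact ⟨a, by rw [ha, hy]⟩
  choose r hr using hrep
  let e : (kp P)[X] → F[X][X] := fun ψ => if h : ψ ∈ facs f P then r ⟨ψ, h⟩ else 0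
  have he : ∀ ψ (h : ψ ∈ facs f P), e ψ = r ⟨ψ, h⟩ := fun ψ h => dif_pos h
  have hred : ∀ ψ (h : ψ ∈ facs f P), Q ∣ (e ψ).map (red P) - c ψ := by
    intro ψ h
    rw [← AdjoinRoot.mk_eq_mk, ← hρ, ← hρ', he ψ h, hr]
    exact congrFun hee ⟨ψ, h⟩
  have hdQ : ∀ ψ ∈ facs f P, ψ ∣ Q := fun ψ hψ => ((hfac.mem ψ).1 hψ).2.2
  have hmem : ∀ x : RR f, Ideal.Quotient.mk I x = 0 → ∃ y : RR f,
      x = algebraMap F[X] (RR f) (P.1 ^ N) * y := by
    intro x hx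
    obtain ⟨y, hy⟩ := Ideal.mem_span_singleton.1 (Ideal.Quotient.eq_zero_iff_mem.1 hx)
    refine ⟨algebraMap F[X] (RR f) P.1 * y, ?_⟩
    rw [hy, pow_succ, map_mul]
    ring
  refine ⟨e, ⟨?_, ?_, ?_, ?_⟩⟩
  · intro ψ hψ
    have h1 : ψ ∣ (e ψ).map (red P) - 1 := by
      have h2 := (hdQ ψ hψ).trans (hred ψ hψ)
      have h3 := dvd_add h2 (hc1 ψ hψ)
      have h4 : (e ψ).map (red P) - c ψ + (c ψ - 1) = (e ψ).map (red P) - 1 := by ring
      rwa [h4] at h3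
    rw [← map_one (AdjoinRoot.mk ψ), AdjoinRoot.mk_eq_mk]
    exact h1
  · intro ψ hψ φ hφ hne
    rw [AdjoinRoot.mk_eq_zero]
    have h2 := (hdQ φ hφ).trans (hred ψ hψ)
    have h3 := dvd_add h2 (hc2 ψ hψ φ hφ hne)
    rwa [sub_add_cancel] at h3
  · intro ψ hψ φ hφ hne
    apply hmem
    rw [map_mul, map_mul, he ψ hψ, he φ hφ, hr, hr]
    exact he'.ortho (fun h => hne (congrArg Subtype.val h).symm)
  · intro ψ hψ
    have h1 : Ideal.Quotient.mk I (AdjoinRoot.mk f (e ψ * e ψ) - AdjoinRoot.mk f (e ψ)) = 0 := by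
      rw [map_sub, map_mul, map_mul, he ψ hψ, hr]
      exact sub_eq_zero.2 (he'.idem ⟨ψ, hψ⟩)
    obtain ⟨y, hy⟩ := hmem _ h1
    exact ⟨y, by rw [← hy]; ring⟩

end Pool.Agent.Helper9.GTI
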