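import Pool.Agent.Helper9.GTI.St
import Pool.Agent.Helper3.HY.Base

/-!
# GT, part ISOG, module SPA: the isotropic subspace attached to `U`, `V`
-/

set_option autoImplicit false

namespace Pool.Agent.Helper9.GTI

open Polynomial Finset Matrix
open Pool.Agent.Helper3.HY (tau co co_mk)

section aux

variable {k : Type} [Field k]

/-- The bilinear form with value τ (mk p * (x * y)) at x, y. -/
private noncomputable def bf_SPA {h : k[X]} (hh : h.Monic) (p : k[X]) :
    LinearMap.BilinForm k (AdjoinRoot h) :=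
  (LinearMap.mul k (AdjoinRoot h)).compr₂
    ((tau hh) ∘ₗ (LinearMap.mulLeft k (AdjoinRoot.mk h p)))

private lemma bf_SPA_apply {h : k[X]} (hh : h.Monic) (p : k[X]) (x y : AdjoinRoot h) :
    bf_SPA hh p x y = tau hh (AdjoinRoot.mk h p * (x * y)) := rfl

private lemma finrank_SPA {h : k[X]} (hh : h.Monic) :
    FiniteDimensional k (AdjoinRoot h) ∧ Module.finrank k (AdjoinRoot h) = h.natDegree := by
  refine ⟨(AdjoinRoot.powerBasis' hh).finite, ?_⟩
  rw [(AdjoinRoot.powerBasis' hh).finrank, AdjoinRoot.powerBasis'_dim]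

/-- `c ↦ mk (v * c)`. -/
private noncomputable def mk_SPA (h v : k[X]) : k[X] →ₗ[k] AdjoinRoot h :=
  (AdjoinRoot.mkₐ h).toLinearMap ∘ₗ (LinearMap.mulLeft k v)

private lemma mk_SPA_apply (h v c : k[X]) : mk_SPA h v c = AdjoinRoot.mk h (v * c) := rfl

private lemma finrank_degreeLT_SPA (m : ℕ) : Module.finrank k (degreeLT k m) = m := by
  rw [LinearEquiv.finrank_eq (degreeLTEquiv k m)]
  simp

private lemma finrank_range_SPA {E : Type} [AddCommGroup E] [Module k E] (m : ℕ)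
    (φ : k[X] →ₗ[k] E) (hφ : ∀ c : k[X], c.degree < m → φ c = 0 → c = 0) :
    Module.finrank k (LinearMap.range (φ.domRestrict (degreeLT k m))) = m := by
  rw [LinearMap.finrank_range_of_inj, finrank_degreeLT_SPA]
  rw [← LinearMap.ker_eq_bot, LinearMap.ker_eq_bot']
  rintro ⟨c, hc⟩ h
  exact Subtype.ext (hφ c (mem_degreeLT.1 hc) h)

private lemma natDegree_mul_SPA {m : ℕ} {c c' : k[X]} (hc : c.degree < m) (hc' : c'.degree < m)
    (h0 : c * c' ≠ 0) : (c * c').natDegree + 2 ≤ 2 * m := by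
  have h1 : c ≠ 0 := left_ne_zero_of_mul h0
  have h2 : c' ≠ 0 := right_ne_zero_of_mul h0
  have h3 := (natDegree_lt_iff_degree_lt h1).2 hc
  have h4 := (natDegree_lt_iff_degree_lt h2).2 hc'
  rw [natDegree_mul h1 h2]
  omega

end aux

theorem hSPA (hPF : StPF) (hTND : StTND) (hISOL : StISOL) : StSPA := by
  intro k _ g h hh hn D hD U V p q hU hpq hUV
  obtain ⟨hf1, hr1⟩ := finrank_SPA hh
  obtain ⟨hf2, hr2⟩ := finrank_SPA hU
  set d := U.natDegree with hd
  obtain ⟨r, hr⟩ := hUV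
  have hqV : q * V ^ 2 = C D - U * (C D * p + q * r) := by
    have : V ^ 2 = C D * h - U * r := by rw [← hr]; ring
    rw [this]
    calc q * (C D * h - U * r) = C D * (p * U + q * h) - U * (C D * p + q * r) := by ring
      _ = _ := by rw [hpq, mul_one]
  have hqh : AdjoinRoot.mk U q * AdjoinRoot.mk U h = 1 := by
    rw [← map_mul, ← map_one (AdjoinRoot.mk U), AdjoinRoot.mk_eq_mk]
    refine ⟨-p, ?_⟩
    rw [← hpq]; ring
  have hcop : IsCoprime h U := ⟨q, p, by rw [← hpq]; ring⟩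
  have hcopV : IsCoprime U V := by
    refine ⟨C D⁻¹ * (C D * p + q * r), C D⁻¹ * (q * V), ?_⟩
    have h1 : C D⁻¹ * C D = (1 : k[X]) := by rw [← C_mul, inv_mul_cancel₀ hD, C_1]
    calc C D⁻¹ * (C D * p + q * r) * U + C D⁻¹ * (q * V) * V
        = C D⁻¹ * (U * (C D * p + q * r) + q * V ^ 2) := by ring
      _ = C D⁻¹ * C D := by rw [hqV]; ring
      _ = 1 := h1
  -- the subspaces
  set m := (2 * g + 1 + d) / 2 with hm
  set φ : k[X] →ₗ[k] AdjoinRoot h × AdjoinRoot U := (mk_SPA h 1).prod (mk_SPA U 1) with hφ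
  set ψ : k[X] →ₗ[k] AdjoinRoot U := mk_SPA U V with hψ
  have hφa : ∀ c, φ c = (AdjoinRoot.mk h c, AdjoinRoot.mk U c) := by
    intro c
    change (mk_SPA h 1 c, mk_SPA U 1 c) = _
    rw [mk_SPA_apply, mk_SPA_apply, one_mul]
  have hφi : ∀ c : k[X], c.degree < m → φ c = 0 → c = 0 := by
    intro c hc h0
    rw [hφa, Prod.mk_eq_zero, AdjoinRoot.mk_eq_zero, AdjoinRoot.mk_eq_zero] at h0
    by_contra hne
    have h1 := natDegree_le_of_dvd (hcop.mul_dvd h0.1 h0.2) hne
    rw [natDegree_mul hh.ne_zero hU.ne_zero, hn, ← hd] at h1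
    have h2 := (natDegree_lt_iff_degree_lt hne).2 hc
    omega
  have hψi : ∀ c : k[X], c.degree < (d / 2 : ℕ) → ψ c = 0 → c = 0 := by
    intro c hc h0
    rw [hψ, mk_SPA_apply, AdjoinRoot.mk_eq_zero] at h0
    by_contra hne
    have h1 := natDegree_le_of_dvd (hcopV.dvd_of_dvd_mul_left h0) hne
    have h2 := (natDegree_lt_iff_degree_lt hne).2 hc
    omega
  have hX := finrank_range_SPA m φ hφi
  have hY := finrank_range_SPA (d / 2) ψ hψi
  -- isotropy
  have hXi : ∀ x ∈ LinearMap.range (φ.domRestrict (degreeLT k m)),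
      ∀ y ∈ LinearMap.range (φ.domRestrict (degreeLT k m)),
      bf_SPA hh p x.1 y.1 + bf_SPA hU q x.2 y.2 = 0 := by
    rintro _ ⟨⟨c, hc⟩, rfl⟩ _ ⟨⟨c', hc'⟩, rfl⟩
    rw [LinearMap.domRestrict_apply, LinearMap.domRestrict_apply, hφa, hφa, bf_SPA_apply,
      bf_SPA_apply]
    simp only [← map_mul]
    rw [mem_degreeLT] at hc hc'
    by_cases h0 : c * c' = 0
    · rw [h0]; simp
    · have h1 := natDegree_mul_SPA hc hc' h0
      rw [hPF k h U hh hU (by omega) p q (c * c') hpq (by omega)]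
      exact coeff_eq_zero_of_natDegree_lt (by omega)
  have hYi : ∀ x ∈ LinearMap.range (ψ.domRestrict (degreeLT k (d / 2))),
      ∀ y ∈ LinearMap.range (ψ.domRestrict (degreeLT k (d / 2))), bf_SPA hU q x y = 0 := by
    rintro _ ⟨⟨c, hc⟩, rfl⟩ _ ⟨⟨c', hc'⟩, rfl⟩
    rw [LinearMap.domRestrict_apply, LinearMap.domRestrict_apply, bf_SPA_apply, hψ, mk_SPA_apply,
      mk_SPA_apply, ← map_mul, ← map_mul]
    rw [mem_degreeLT] at hc hc'
    have h1 : AdjoinRoot.mk U (q * (V * c * (V * c'))) = AdjoinRoot.mk U (C D * (c * c')) := by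
      rw [AdjoinRoot.mk_eq_mk]
      refine ⟨-((C D * p + q * r) * (c * c')), ?_⟩
      calc q * (V * c * (V * c')) - C D * (c * c') = (q * V ^ 2 - C D) * (c * c') := by ring
        _ = _ := by rw [hqV]; ring
    rw [h1, tau, co_mk]
    by_cases h0 : c * c' = 0
    · rw [h0]; simp
    · have h2 := natDegree_mul_SPA hc hc' h0
      have h3 : (C D * (c * c')).natDegree = (c * c').natDegree := natDegree_C_mul hD
      have h4 : (C D * (c * c')) %ₘ U = C D * (c * c') := by
        rw [modByMonic_eq_self_iff hU]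
        refine degree_lt_degree ?_
        omega
      rw [h4]
      exact coeff_eq_zero_of_natDegree_lt (by omega)
  have hsymm : ∀ x y, bf_SPA hU q x y = bf_SPA hU q y x := by
    intro x y
    rw [bf_SPA_apply, bf_SPA_apply, mul_comm x y]
  have hnd : ∀ y, (∀ x, bf_SPA hU q x y = 0) → y = 0 := by
    intro y hy
    refine hTND k U hU y (fun x => ?_)
    have h1 := hy (AdjoinRoot.mk U h * x)
    rw [bf_SPA_apply] at h1
    have h2 : AdjoinRoot.mk U q * (AdjoinRoot.mk U h * x * y) = x * y := by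
      calc AdjoinRoot.mk U q * (AdjoinRoot.mk U h * x * y)
          = AdjoinRoot.mk U q * AdjoinRoot.mk U h * (x * y) := by ring
        _ = x * y := by rw [hqh, one_mul]
    rwa [h2] at h1
  obtain ⟨W, hW1, hW2⟩ := hISOL k (AdjoinRoot h) (AdjoinRoot U) (bf_SPA hh p) (bf_SPA hU q) hsymm
    hnd _ _ hXi hYi
  refine ⟨W, ?_, ?_⟩
  · rw [hX, hY, hr2] at hW1
    omega
  · intro x hx y hy
    have := hW2 x hx y hy
    rwa [bf_SPA_apply, ← mul_assoc] at this

end Pool.Agent.Helper9.GTI
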