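import Pool.Agent.Helper3.GT.St
import Pool.Agent.Helper3.HY.StS
import Pool.Agent.Helper9.HYI.St

/-!
# GT, part ISOG: interface statements

Notation: `A = F[t]`, `K = F(t)`, `f` monic of degree `2 g + 1` over `A`, `L = K[x] / f = K(θ)` (`LL f`),
`RR f = A[x] / f`, `τ = tL hm` the top coordinate on `L`, `Bf hm z x y = τ (z x y)`.
Every `St...` is a proposition that is proved in its own module `Pool/Agent/Helper9/GTI/M_<Name>.lean`.
-/

set_option autoImplicit false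

namespace Pool.Agent.Helper9.GTI

open Polynomial Finset Matrix
open Pool.Agent.Helper54.PT (Prm prm IsAbsP IsAbsInf)
open Pool.Agent.Helper3.HY (fK RR LL kp red TwAt twGroup baseChange co tau Kfil Gm Ix IsFil InA Bf)
open Pool.Agent.Helper3.GT (Gd Bd UnitAt EvP facs RepG om ep SelS)
open Pool.Agent.Helper9.HYI (IsRes tL)

/-! ### Regular elements -/

section reg

variable {F : Type} [Field F]

/-- `x` is regular at `P`. -/
def RegP (P : Prm F) (x : RatFunc F) : Prop :=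
  ∃ a b : F[X], ¬ P.1 ∣ b ∧ x * algebraMap F[X] (RatFunc F) b = algebraMap F[X] (RatFunc F) a

/-- `x` is regular at `P` with residue `s`. -/
def ModP (P : Prm F) (x : RatFunc F) (s : kp P) : Prop :=
  ∃ a b : F[X], ¬ P.1 ∣ b ∧ x * algebraMap F[X] (RatFunc F) b = algebraMap F[X] (RatFunc F) a ∧
    red P a = s * red P b

/-- `P` as an element of `K`. -/
noncomputable abbrev pK (P : Prm F) : RatFunc F := algebraMap F[X] (RatFunc F) P.1

/-- The calculus of residues at `P`. -/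
structure ArP (P : Prm F) : Prop where
  ofA : ∀ a : F[X], ModP P (algebraMap F[X] (RatFunc F) a) (red P a)
  reg_iff : ∀ x : RatFunc F, RegP P x ↔ ∃ s, ModP P x s
  uniq : ∀ (x : RatFunc F) (s s' : kp P), ModP P x s → ModP P x s' → s = s'
  add : ∀ (x y : RatFunc F) (s t : kp P), ModP P x s → ModP P y t → ModP P (x + y) (s + t)
  neg : ∀ (x : RatFunc F) (s : kp P), ModP P x s → ModP P (-x) (-s)
  mul : ∀ (x y : RatFunc F) (s t : kp P), ModP P x s → ModP P y t → ModP P (x * y) (s * t)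
  inv : ∀ (x : RatFunc F) (s : kp P), ModP P x s → s ≠ 0 → x ≠ 0 ∧ ModP P x⁻¹ s⁻¹
  sum : ∀ (ι : Type) (S : Finset ι) (x : ι → RatFunc F) (s : ι → kp P),
    (∀ i ∈ S, ModP P (x i) (s i)) → ModP P (∑ i ∈ S, x i) (∑ i ∈ S, s i)
  det : ∀ (ι : Type) [Fintype ι] [DecidableEq ι] (M : Matrix ι ι (RatFunc F))
    (m : Matrix ι ι (kp P)), (∀ i j, ModP P (M i j) (m i j)) → ModP P M.det m.det
  zero_iff : ∀ x : RatFunc F, ModP P x 0 ↔ RegP P ((pK P)⁻¹ * x)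
  radd : ∀ x y : RatFunc F, RegP P x → RegP P y → RegP P (x + y)
  rneg : ∀ x : RatFunc F, RegP P x → RegP P (-x)
  rmul : ∀ x y : RatFunc F, RegP P x → RegP P y → RegP P (x * y)
  rsum : ∀ (ι : Type) (S : Finset ι) (x : ι → RatFunc F), (∀ i ∈ S, RegP P (x i)) →
    RegP P (∑ i ∈ S, x i)
  rpow : ∀ x : RatFunc F, ∃ n : ℕ, ∀ m : ℕ, n ≤ m → RegP P (pK P ^ m * x)

end reg

/-- (GA) PROOF.  `RegP P`: the localization of `A` at `P`; `ModP P x s`: write `x = a / b`, `P ∤ b`, `s = ā / b̄`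
(`b̄ ≠ 0` in the field `kp P`).  `uniq`: `x b = a`, `x b' = a'` give `a b' = a' b` in `A`.  `mul`, `add`: products of the
denominators (`P` is prime).  `inv`: `ā = s b̄ ≠ 0`, so `P ∤ a`, `x⁻¹ a = b`.  `det`: `Matrix.det_apply` (sum over
permutations of products; or use that the `(x, s)` with `ModP P x s` form a subring of `K × kp P`, the image of the
local ring, and `RingHom.map_det`).  `zero_iff`: `ā = 0` iff `P ∣ a`.  `rpow`: `x = a / b`, `b = P ^ n b'` with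
`P ∤ b'` (finite multiplicity). -/
def StGA : Prop := ∀ (F : Type) [Field F] (P : Prm F), ArP P

/-- (GG) PROOF.  Write `x = num / denom`.  If `x` is regular at `P` then `P ∤ denom` (coprime), so if this holds for all
monic irreducible `P` then `denom = 1` (monic, no irreducible factor).  The `P` with `¬ RegP P x` divide `denom`
(otherwise `a = num`, `b = denom`), finitely many (normalized factors).  For `x ≠ 0` the `P` which divide neither
`num` nor `denom` satisfy `ModP P x s` with `s = red num / red denom ≠ 0`. -/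
def StGG : Prop :=
  ∀ (F : Type) [Field F], (∀ x : RatFunc F, (∀ P : Prm F, RegP P x) → InA x) ∧
    (∀ x : RatFunc F, {P : Prm F | ¬ RegP P x}.Finite) ∧
    ∀ x : RatFunc F, x ≠ 0 → {P : Prm F | ¬ ∃ s : kp P, s ≠ 0 ∧ ModP P x s}.Finite

/-! ### Local lattices -/

section lat

variable {F : Type} [Field F] {V : Type} [AddCommGroup V] [Module (RatFunc F) V]

/-- The vectors `x` with all `B x (E i)` regular at `P` (the dual of the lattice generated by `E`). -/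
def Dl (P : Prm F) (B : LinearMap.BilinForm (RatFunc F) V) {ι : Type} (E : ι → V) : Set V :=
  {x | ∀ i, RegP P (B x (E i))}

/-- The Gram matrix of `E` is regular at `P` with nonzero determinant modulo `P`. -/
def UniB (P : Prm F) (B : LinearMap.BilinForm (RatFunc F) V) {ι : Type} [Fintype ι] [DecidableEq ι]
    (E : ι → V) : Prop :=
  (∀ i j, RegP P (B (E i) (E j))) ∧
    ∃ s : kp P, s ≠ 0 ∧ ModP P (Matrix.of fun i j => B (E i) (E j)).det s

/-- The Gram matrix of `E` consists of a block which is invertible modulo `P` and a block `P u`. -/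
structure Blk (P : Prm F) (B : LinearMap.BilinForm (RatFunc F) V) {ι₀ ι₁ : Type} [Fintype ι₀]
    [DecidableEq ι₀] [Fintype ι₁] [DecidableEq ι₁] (E : ι₀ ⊕ ι₁ → V) (u : Matrix ι₁ ι₁ (kp P)) :
    Prop where
  reg : ∀ i j, RegP P (B (E i) (E j))
  det0 : ∃ s : kp P, s ≠ 0 ∧
    ModP P (Matrix.of fun i j : ι₀ => B (E (Sum.inl i)) (E (Sum.inl j))).det s
  reg1 : ∀ (i : ι₁) (j : ι₀ ⊕ ι₁), RegP P ((pK P)⁻¹ * B (E (Sum.inr i)) (E j))
  res1 : ∀ i j : ι₁, ModP P ((pK P)⁻¹ * B (E (Sum.inr i)) (E (Sum.inr j))) (u i j)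
  det1 : u.det ≠ 0

/-- A family of local lattices. -/
structure Fam (L : Prm F → Set V) : Prop where
  add : ∀ (P : Prm F) (x y : V), x ∈ L P → y ∈ L P → x + y ∈ L P
  smul : ∀ (P : Prm F) (a : RatFunc F) (x : V), RegP P a → x ∈ L P → a • x ∈ L P
  abs : ∀ (P : Prm F) (x : V), ∃ n : ℕ, pK P ^ n • x ∈ L P
  fin : ∀ x : V, {P : Prm F | x ∉ L P}.Finite

end lat

/-! ### Linear algebra and the local theory of the descent map -/

/-- (ISOL) PROOF.  Let `Z = {b ∈ Y | (0, b) ∈ X}`.  For `b ∈ Z` and `(a, b') ∈ X`: `B₂ b b' = 0` (isotropy of `X`), and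
`B₂ b b' = 0` for `b' ∈ Y`; so `pr₂ X` and `Y` are contained in `Z^⊥`, of dimension `dim E₂ - dim Z` (nondegenerate).
`X' = {x ∈ X | x.2 ∈ Y}` is the kernel of `X → Z^⊥ / Y`, so `dim X' ≥ dim X - (dim E₂ - dim Z - dim Y)`.
`W = pr₁ X'`; the kernel of `X' → W` is isomorphic to `Z`, so
`dim W = dim X' - dim Z ≥ dim X + dim Y - dim E₂`.  For `(a, b), (a', b') ∈ X'`:
`B₁ a a' = - B₂ b b' = 0` since `b, b' ∈ Y`. -/
def StISOL : Prop :=
  ∀ (k : Type) [Field k] (E₁ E₂ : Type) [AddCommGroup E₁] [Module k E₁] [FiniteDimensional k E₁]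
    [AddCommGroup E₂] [Module k E₂] [FiniteDimensional k E₂]
    (B₁ : LinearMap.BilinForm k E₁) (B₂ : LinearMap.BilinForm k E₂),
    (∀ x y, B₂ x y = B₂ y x) → (∀ y, (∀ x, B₂ x y = 0) → y = 0) →
    ∀ (X : Submodule k (E₁ × E₂)) (Y : Submodule k E₂),
    (∀ x ∈ X, ∀ y ∈ X, B₁ x.1 y.1 + B₂ x.2 y.2 = 0) → (∀ x ∈ Y, ∀ y ∈ Y, B₂ x y = 0) →
    ∃ W : Submodule k E₁,
      Module.finrank k X + Module.finrank k Y ≤ Module.finrank k W + Module.finrank k E₂ ∧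
      ∀ x ∈ W, ∀ y ∈ W, B₁ x y = 0

/-- (TWS) Every element of the group of the twist is, up to a square, the value at one `U`.  PROOF.  Let `G` be the set
of the `z` of this form with in addition `U` squarefree.  `1 ∈ G` (`U = 1`, `V = 0`); squares are in `G`;
`z⁻¹ = z (z⁻¹)²`.  Products: `U₁, V₁`, `U₂, V₂`; `c = gcd(U₁, U₂)` (monic), `U_i = c U_i'`; `U₁', U₂'` are coprime
(`U_i` squarefree and `c` the gcd: a common irreducible factor `p` of `U₁'` and `U₂'` would give `p c ∣ U₁, U₂`), so there is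
`V ≡ V_i` modulo `U_i'` (Chinese remainder), `U = U₁' U₂'` is squarefree (a product of coprime squarefree polynomials)
and divides `D h - V²`, and `(-D)^(d₁ + d₂) U₁ U₂ = (-D)^(deg U) U ((-D)^(deg c) c)²`, where
`mk ((-D)^(deg c) c)` is a unit (`c ∣ U₁` is coprime to `h`).  So `G` is a subgroup.  It contains the values `IsTwIrr`
(`U` irreducible), so it contains `twGroup h D` by (GE) (proved: `Pool.Agent.Helper54.HL.StGE`, file
`Pool/Agent/Helper54/HL/M_GE.lean`; use it as a hypothesis or import it). -/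
def StTWS : Prop :=
  ∀ (k : Type) [Field k] (h : k[X]) (D : k), D ≠ 0 → ∀ z : (AdjoinRoot h)ˣ, z ∈ twGroup h D →
    ∃ (U V : k[X]) (s : (AdjoinRoot h)ˣ), U.Monic ∧ IsCoprime U h ∧ U ∣ C D * h - V ^ 2 ∧
      (z : AdjoinRoot h) =
        AdjoinRoot.mk h (C (-D) ^ U.natDegree * U) * (s : AdjoinRoot h) ^ 2

/-- (PF) Partial fractions.  PROOF.  Let `r = (p c) mod h`, `r' = (q c) mod U` (`%ₘ`; `co_mk` in
`Pool/Agent/Helper3/HY/Base.lean` computes `co` of `AdjoinRoot.mk`).  `c - r U - r' h` is divisible by `h` (modulo `h`: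
`c - p c U = q h c`) and by `U`, so by `h U` (coprime), and its degree is `< deg h + deg U`: it is `0`.
Compare the coefficients of `x ^ (deg h + deg U - 1)` in `c = r U + r' h` (`U`, `h` monic). -/
def StPF : Prop :=
  ∀ (k : Type) [Field k] (h U : k[X]) (hh : h.Monic) (hU : U.Monic), 1 ≤ h.natDegree →
    ∀ p q c : k[X], p * U + q * h = 1 → c.natDegree < h.natDegree + U.natDegree →
      tau hh (AdjoinRoot.mk h (p * c)) + tau hU (AdjoinRoot.mk U (q * c)) =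
        c.coeff (h.natDegree + U.natDegree - 1)

/-- (TND) The form `τ(x y)` is nondegenerate.  PROOF.  `y = mk b` with `deg b < deg h`, `b ≠ 0`, `m = deg b`: take
`x = X ^ (deg h - 1 - m)`, then `τ(x y)` is the leading coefficient of `b`. -/
def StTND : Prop :=
  ∀ (k : Type) [Field k] (h : k[X]) (hh : h.Monic) (y : AdjoinRoot h),
    (∀ x, tau hh (x * y) = 0) → y = 0

/-- (SPA) PROOF.  Let `n = 2 g + 1`, `d = deg U`, `E₁ = k[x]/h`, `E₂ = k[x]/U`, `B₁ x y = τ_h(p x y)`,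
`B₂ x y = τ_U(q x y)`, `X = {(c mod h, c mod U) | deg c < (n + d) / 2}` (natural number division),
`Y = {V b mod U | deg b < d / 2}`.  `dim X = (n + d) / 2` (`c ↦ (c mod h, c mod U)` is injective on degree `< n + d`),
`dim Y = d / 2` (`V` is invertible modulo `U` since `V² ≡ D h`), `dim E₂ = d` (`finrank` of `AdjoinRoot` of a monic
polynomial).  `X` is isotropic for `B₁ + B₂` by (PF): for `c, c'` of degree `≤ (n+d)/2 - 1` the coefficient of `c c'` at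
`n + d - 1` vanishes.  `Y` is isotropic: `B₂(V b, V b') = τ_U(q V² b b') = D τ_U(b b')` (`q V² ≡ D q h ≡ D` modulo `U`) and
`deg (b b') ≤ 2 (d/2) - 2 < d - 1`.  `B₂` is nondegenerate: (TND) and `q` is invertible modulo `U`.  (ISOL) gives `W` with
`dim W ≥ (n + d)/2 + d/2 - d = g` (for `d` even `(n + d - 1)/2 + d/2 - d`, for `d` odd `(n+d)/2 + (d-1)/2 - d`). -/
def StSPA : Prop :=
  ∀ (k : Type) [Field k] (g : ℕ) (h : k[X]) (hh : h.Monic), h.natDegree = 2 * g + 1 →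
    ∀ D : k, D ≠ 0 → ∀ U V p q : k[X], U.Monic → p * U + q * h = 1 → U ∣ C D * h - V ^ 2 →
    ∃ W : Submodule k (AdjoinRoot h), g ≤ Module.finrank k W ∧
      ∀ x ∈ W, ∀ y ∈ W, tau hh (AdjoinRoot.mk h p * x * y) = 0

/-- (SPL) PROOF.  (TWS): `z = mk((-D)^d U) s²`; `p U + q h = 1`; `W₀` from (SPA).  `W = {x | mk U * s * x ∈ W₀}` (preimage
under a linear automorphism: `mk U` is a unit with inverse `mk p`).
`τ(z x y) = (-D)^d τ(mk U s² x y) = (-D)^d τ(mk p (mk U s x) (mk U s y)) = 0`. -/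
def StSPL : Prop :=
  ∀ (k : Type) [Field k] (g : ℕ) (h : k[X]) (hh : h.Monic), h.natDegree = 2 * g + 1 →
    ∀ D : k, D ≠ 0 → ∀ z : (AdjoinRoot h)ˣ, z ∈ twGroup h D →
    ∃ W : Submodule k (AdjoinRoot h), g ≤ Module.finrank k W ∧
      ∀ x ∈ W, ∀ y ∈ W, tau hh ((z : AdjoinRoot h) * x * y) = 0

/-- (WITT) PROOF.  Let `u` be a linearly independent family of `g` vectors of `W`.  By nondegeneracy (`V → Dual V` is
bijective) there are `w' j` with `B (u i) (w' j) = δ_ij`; put `w j = w' j - (1/2) ∑_l B(w' j, w' l) u l`; then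
`B (w i) (w j) = 0` and still `B (u i) (w j) = δ_ij`.  The `2 g` vectors `u, w` are linearly independent, the orthogonal
complement of their span is nonzero (dimension `1`); let `c ≠ 0` be in it.  If `B c c = 0` then `c` is orthogonal to the
span of `u, w, c`, which is all of `V` (dimension `2 g + 1`; `c` is not in the span of `u, w` because the form is
nondegenerate there), contradiction. -/
def StWITT : Prop :=
  ∀ (k : Type) [Field k], (2 : k) ≠ 0 → ∀ (V : Type) [AddCommGroup V] [Module k V]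
    [FiniteDimensional k V] (B : LinearMap.BilinForm k V) (g : ℕ), (∀ x y, B x y = B y x) →
    (∀ y, (∀ x, B x y = 0) → y = 0) → Module.finrank k V = 2 * g + 1 →
    ∀ W : Submodule k V, g ≤ Module.finrank k W → (∀ x ∈ W, ∀ y ∈ W, B x y = 0) →
    ∃ (u w : Fin g → V) (c : V), (∀ i j, B (u i) (w j) = if i = j then 1 else 0) ∧
      (∀ i j, B (u i) (u j) = 0) ∧ (∀ i j, B (w i) (w j) = 0) ∧ (∀ i, B c (u i) = 0) ∧
      (∀ i, B c (w i) = 0) ∧ B c c ≠ 0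

/-- (NFZ) PROOF.  `B x y = τ(z x y)` is symmetric and nondegenerate ((TND), `z` a unit), `dim = 2 g + 1`.  (SPL) and (WITT) give
`u, w, c`, `δ = B c c ≠ 0`.  `Pool.Agent.Helper3.HY.MS.det_std` (file `Pool/Agent/Helper3/HY/M_S.lean`) for the basis `θ^i`:
`(-1)^g δ = x² det`, so `δ = x² ((-1)^g det)` is a square, `δ = s²`, `s ≠ 0`; replace `c` by `s⁻¹ c` and order the vectors:
`u 0, .., u (g-1), c, w (g-1), .., w 0` (see the end of `M_S.lean` where exactly this is done). -/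
def StNFZ : Prop :=
  ∀ (k : Type) [Field k], (2 : k) ≠ 0 → ∀ (g : ℕ) (h : k[X]) (hh : h.Monic),
    h.natDegree = 2 * g + 1 → ∀ D : k, D ≠ 0 → ∀ z : (AdjoinRoot h)ˣ, z ∈ twGroup h D →
    IsSquare ((-1) ^ g * (Matrix.of fun i j : Ix g =>
      tau hh ((z : AdjoinRoot h) * AdjoinRoot.root h ^ (i : ℕ) * AdjoinRoot.root h ^ (j : ℕ))).det) →
    ∃ e : Ix g → AdjoinRoot h, ∀ i j, tau hh ((z : AdjoinRoot h) * e i * e j) = Gm k g i j

/-- (BCT) Base change of `τ`.  PROOF.  `baseChange` sends `mk p` to `mk (p.map j)`, and `%ₘ` commutes with `map`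
(`Polynomial.map_modByMonic`). -/
def StBCT : Prop :=
  ∀ (k k' : Type) [Field k] [Field k'] (j : k →+* k') (h : k[X]) (hh : h.Monic) (z : AdjoinRoot h),
    tau (hh.map j) (baseChange j h z) = j (tau hh z) ∧
      baseChange j h (AdjoinRoot.root h) = AdjoinRoot.root (h.map j)

/-- (APX) PROOF.  Let `Kv = v.Completion`, `j : K → Kv`; the norm of `Kv` extends `v` and `j` has dense range.  Write
`e i = ∑_(l < 2g+1) a_(i l) θ^l` with `a_(i l) ∈ Kv`.  The map which sends `(a_(i l))` to the matrix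
`τ(z e_i e_j) = ∑_(l,m) a_(i l) a_(j m) j(τ(z θ^l θ^m))` (BCT) is continuous, so the set of the `(a_(i l))` with
`‖τ(z e_i e_j) - Gm i j‖ < 1` for all `i, j` is open, and it contains the coordinates of the given `e`; by density
(`DenseRange` of the product of finitely many copies of `j`) it contains a point with coordinates in `K`; take
`E i = ∑_l a_(i l) θ^l ∈ L`. -/
def StAPX : Prop :=
  ∀ (F : Type) [Field F] (g : ℕ) (f : F[X][X]) (hm : f.Monic), f.natDegree = 2 * g + 1 →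
    ∀ (v : AbsoluteValue (RatFunc F) ℝ) (z : LL f)
      (e : Ix g → AdjoinRoot ((fK f).map (algebraMap (RatFunc F) v.Completion))),
    (∀ i j, tau ((hm.map (algebraMap F[X] (RatFunc F))).map (algebraMap (RatFunc F) v.Completion))
      (baseChange (algebraMap (RatFunc F) v.Completion) (fK f) z * e i * e j) =
        Gm v.Completion g i j) →
    ∃ E : Ix g → LL f, ∀ i j, v (tL hm (z * E i * E j) - Gm (RatFunc F) g i j) < 1

/-- (UP) PROOF.  `v x = 2 ^ (- ordK P x)` for `x ≠ 0`: `v x < 1` iff `ModP P x 0` (numerator divisible by `P`, denominator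
not).  So the entries of the Gram matrix `G` satisfy `ModP P (G i j) (δ)` with `δ = Gm (kp P) g i j`, and by (GA)
`ModP P G.det (Gm (kp P) g).det`, where `det Gm = ± 1` (`Gm` is a permutation matrix; or `Gm * Gm = 1`). -/
def StUP : Prop :=
  ∀ (F : Type) [Field F] (P : Prm F) (v : AbsoluteValue (RatFunc F) ℝ), IsAbsP P v →
    ∀ (V : Type) [AddCommGroup V] [Module (RatFunc F) V] (B : LinearMap.BilinForm (RatFunc F) V)
      (g : ℕ) (E : Ix g → V), (∀ i j, v (B (E i) (E j) - Gm (RatFunc F) g i j) < 1) → UniB P B E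

/-- (UI) PROOF.  `v x < 1` iff `x ∈ Kfil F (-1)`.  `Kfil F 0` is a local ring `O∞` (closed under products) and an element
`≡ c` modulo `Kfil F (-1)` with a constant `c ≠ 0` is invertible in it.  The Gram matrix `G` of `E` has entries in
`O∞` and `G ≡ Gm` modulo `Kfil F (-1)`, so `det G ≡ ± 1`, and `G⁻¹` (adjugate) has entries in `O∞`.  Hence `E` is a
basis of `V`.  Put `Fil n = {x | ∀ i, B x (E i) ∈ Kfil F n}`.  `symm`, `mono`, `kmul`
(`Kfil m * Kfil n ⊆ Kfil (m + n)`, in `StRes`), `exh` clear.  `sep`: `B x (E i) = 0` for all `i`, so `x = 0`.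
For `x ∈ Fil m`, `x = ∑ a_i E_i` with `a = G⁻¹ (B x (E j))_j`, so `a_i ∈ Kfil F m`.  `bound`:
`B x y = ∑ a_i B (E i) y ∈ Kfil F (m + n)`.  `dual`: `E i ∈ Fil 0`, so `B (E i) y ∈ Kfil F (0 + n)`. -/
def StUI : Prop :=
  ∀ (F : Type) [Field F] (v : AbsoluteValue (RatFunc F) ℝ), IsAbsInf v →
    ∀ (V : Type) [AddCommGroup V] [Module (RatFunc F) V]
    [Module F[X] V] [IsScalarTower F[X] (RatFunc F) V] [Module F V] [IsScalarTower F (RatFunc F) V]
    [FiniteDimensional (RatFunc F) V] (B : LinearMap.BilinForm (RatFunc F) V) (g : ℕ),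
    Module.finrank (RatFunc F) V = 2 * g + 1 → (∀ x y, B x y = B y x) → ∀ E : Ix g → V,
    (∀ i j, v (B (E i) (E j) - Gm (RatFunc F) g i j) < 1) →
    ∃ Fil : ℤ → Submodule F V, IsFil Fil B

/-- (EVU) PROOF.  `EvP`: `β ≠ 0`, `a (z β²) = r`, `r s = a²` with `P ∤ a`.  `E i = β θ^i`; the Gram matrix is
`G i j = τ(z β² θ^(i+j)) = a⁻¹ τ(r θ^(i+j))`, `τ(r θ^(i+j)) ∈ A` (`Pool.Agent.Helper3.HY.StCd`, proved in `M_Cd.lean`).
`det G = (-1)^g N(z β²)` (`StCg`, proved in `M_Cg.lean`; its basis `b` is `θ^i`: look at the proof, or use the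
general lemmas `MS.det_gram`), so `a^n det G = (-1)^g N(r)`, `N(r) N(s) = a^(2n)` and `N(r), N(s) ∈ A` (integral over
the integrally closed `A`), so `P ∤ N(r)`: `det G` has a nonzero residue. -/
def StEVU : Prop :=
  ∀ (F : Type) [Field F] (g : ℕ) (f : F[X][X]) (hm : f.Monic), f.natDegree = 2 * g + 1 →
    ∀ [Fact (Irreducible (fK f))] (P : Prm F) (z : LL f), EvP P z →
      ∃ E : Ix g → LL f, UniB P (Bf hm z) E

/-- (STD) PROOF.  (GG) for the finitely many entries of the Gram matrix and for its determinant. -/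
def StSTD : Prop :=
  ∀ (F : Type) [Field F] (V : Type) [AddCommGroup V] [Module (RatFunc F) V]
    (B : LinearMap.BilinForm (RatFunc F) V) (ι : Type) [Fintype ι] [DecidableEq ι] (E : ι → V),
    (Matrix.of fun i j => B (E i) (E j)).det ≠ 0 → {P : Prm F | ¬ UniB P B E}.Finite

/-- (LOC) Local lattices.  PROOF.  `j : K → Kv`.  `TwAt` says that the image `z_v` of `z` is in `twGroup ((fK f).map j) (j D)`.
By (BCT) `det(τ(z_v θ^i θ^j)) = j(det(τ(z θ^i θ^j)))`, and `(-1)^g det(τ(z θ^i θ^j)) = N(z)` is a square (`StCg`, proved in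
`Pool/Agent/Helper3/HY/M_Cg.lean`: its basis is `θ^i`; or: the proof of `hCg` and `MS.det_gram`: the determinants for two
bases differ by a square).  (NFZ) for `k = Kv` (`2 ≠ 0` in `Kv`), then (APX), then (UP), (UI). -/
def StLOC : Prop :=
  ∀ (F : Type) [Field F], (2 : F) ≠ 0 → ∀ (g : ℕ) (f : F[X][X]) (hm : f.Monic),
    f.natDegree = 2 * g + 1 → ∀ [Fact (Irreducible (fK f))] (D : F[X]), D ≠ 0 → ∀ z : (LL f)ˣ,
    IsSquare (Algebra.norm (RatFunc F) (z : LL f)) →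
    (∀ (P : Prm F) (v : AbsoluteValue (RatFunc F) ℝ), IsAbsP P v → TwAt f D v z →
      ∃ E : Ix g → LL f, UniB P (Bf hm (z : LL f)) E) ∧
    ∀ v : AbsoluteValue (RatFunc F) ℝ, IsAbsInf v → TwAt f D v z →
      ∃ Fil : ℤ → Submodule F (LL f), IsFil Fil (Bf hm (z : LL f))

/-! ### The global argument -/

/-- (GU) Unimodular lattices.  PROOF.  `E` is a basis of `V` (its Gram matrix `G` has nonzero determinant and the number of
vectors is the dimension).  `E i ∈ Dl`, so `→` of the converse: if `B x y` is regular for all `x ∈ Dl` then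
`B (E i) y = B y (E i)` is regular.  Let `x, y ∈ Dl`, `x = ∑ c_i E_i`; `B x (E j) = ∑ c_i G_ij` is regular and `G⁻¹` has
regular entries (adjugate and `det⁻¹`, (GA)), so the `c_i` are regular and `B x y = ∑ c_i B (E i) y` is
regular. -/
def StGU : Prop :=
  ∀ (F : Type) [Field F] (V : Type) [AddCommGroup V] [Module (RatFunc F) V]
    [FiniteDimensional (RatFunc F) V] (P : Prm F) (B : LinearMap.BilinForm (RatFunc F) V)
    (ι : Type) [Fintype ι] [DecidableEq ι] (E : ι → V), (∀ x y, B x y = B y x) →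
    Fintype.card ι = Module.finrank (RatFunc F) V → UniB P B E →
    ∀ y : V, y ∈ Dl P B E ↔ ∀ x ∈ Dl P B E, RegP P (B x y)

/-- (FAM) PROOF.  `add`, `smul`: (GA).  `abs`: `pK P ^ n * B x (E i)` is regular for large `n` (`rpow`), for all the
finitely many `i`. -/
def StFAM : Prop :=
  ∀ (F : Type) [Field F] (V : Type) [AddCommGroup V] [Module (RatFunc F) V]
    (B : LinearMap.BilinForm (RatFunc F) V) (L : Prm F → Set V),
    (∀ P, ∃ (ι : Type) (_ : Fintype ι) (E : ι → V), L P = Dl P B E) →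
    (∀ x : V, {P : Prm F | x ∉ L P}.Finite) → Fam L

/-- (GB) Approximation, and duality.  PROOF.  First part: `x ∈ L P`.  Let `T` be the finite set of the `Q ≠ P` with `x ∉ L Q`;
`Q ^ (n_Q) x ∈ L Q`; `a' = ∏_(Q ∈ T) Q ^ (n_Q)`; `a' x ∈ L Q` for all `Q` (`smul`: `a'/Q^(n_Q)` is a polynomial;
for `Q ∉ T` also `a'` is), `P ∤ a'`; multiply by a polynomial `a''` with `red P (a' a'') = 1`.
Second part: `M = {x | ∀ Q, x ∈ L Q}` is an `F[t]`-submodule (`a • x = algebraMap a • x`, polynomials are regular everywhere;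
`0 ∈ M` by `abs` and `smul 0`), and for every `x` some `a • x ∈ M`, `a ≠ 0` (as before with all `Q`).
`Pool.Agent.Helper9.HYI.core_Orth` (file `Pool/Agent/Helper9/HYI/Orth.lean`, needs `StRes`, `StS1`, both proved: `HYI.hRes`,
`Pool/Agent/Helper3/HY/M_S1.lean`) gives `m` with `InA (B x m)` for `x ∈ M` and `y₀ - m ∈ Fil (-1)`.  For
`x ∈ L Q` take `a` with `red Q a = 1`, `a • x ∈ M`: `B x m = a⁻¹ B (a • x) m` is regular at `Q`. -/
def StGB : Prop :=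
  ∀ (F : Type) [Field F] (V : Type) [AddCommGroup V] [Module (RatFunc F) V]
    [Module F[X] V] [IsScalarTower F[X] (RatFunc F) V] [Module F V] [IsScalarTower F (RatFunc F) V]
    [FiniteDimensional (RatFunc F) V] (L : Prm F → Set V), Fam L →
    (∀ (P : Prm F) (x : V), x ∈ L P → ∃ a : F[X], red P a = 1 ∧
      ∀ Q, algebraMap F[X] (RatFunc F) a • x ∈ L Q) ∧
    ∀ res : RatFunc F →ₗ[F] F, IsRes res → ∀ (Fil : ℤ → Submodule F V)
      (B : LinearMap.BilinForm (RatFunc F) V), IsFil Fil B → ∀ y₀ : V,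
      (∀ x : V, (∀ Q, x ∈ L Q) → x ∈ Fil (-1) → res (B x y₀) = 0) →
      ∃ m : V, (∀ Q, ∀ x ∈ L Q, RegP Q (B x m)) ∧ y₀ - m ∈ Fil (-1)

/-- (GC) The lattice at `P`.  PROOF.  Put `p = pK P`, `G_ij = B (E i) (E j)`.  First: `reg1`.  Let `x ∈ Dl` and let `r_j` be the
residue of `B x (E (inr j))`; `c i ∈ F[X]` with `(red P (c i))_i = r u⁻¹` (row vectors: `∑_i red P (c i) u i j = r_j`).
`x' = x - ∑ c_i p⁻¹ E (inr i)`: `B x' (E (inr j))` has residue `0`, `B x' (E (inl j))` is regular.  `E` is a basis of `V`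
(below), `x' = ∑ a_i E_i`.  Let `H_ij = G_ij` for `j = inl`, `H_ij = p⁻¹ G_ij` for `j = inr`: regular entries
(`reg`, `reg1` and symmetry), and modulo `P` it is block triangular: `H_ij ≡ 0` for `i = inr`, `j = inl`.  So
`det H ≡ s det u ≠ 0` (`Matrix.det_fromBlocks_zero₂₁`), in particular `det G ≠ 0` (`E` is a basis).
`∑_i a_i H_ij` is regular for all `j`, so the `a_i` are regular, and `B x' y = ∑ a_i B (E i) y` is regular for
`y ∈ Dl`. -/
def StGC : Prop :=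
  ∀ (F : Type) [Field F] (V : Type) [AddCommGroup V] [Module (RatFunc F) V]
    [FiniteDimensional (RatFunc F) V] (P : Prm F) (B : LinearMap.BilinForm (RatFunc F) V)
    (ι₀ ι₁ : Type) [Fintype ι₀] [DecidableEq ι₀] [Fintype ι₁] [DecidableEq ι₁]
    (E : ι₀ ⊕ ι₁ → V) (u : Matrix ι₁ ι₁ (kp P)), (∀ x y, B x y = B y x) →
    Fintype.card (ι₀ ⊕ ι₁) = Module.finrank (RatFunc F) V → Blk P B E u →
    (∀ i : ι₁, (pK P)⁻¹ • E (Sum.inr i) ∈ Dl P B E) ∧
    ∀ x ∈ Dl P B E, ∃ c : ι₁ → F[X], ∀ y ∈ Dl P B E,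
      RegP P (B (x - ∑ i, algebraMap F[X] (RatFunc F) (c i) • (pK P)⁻¹ • E (Sum.inr i)) y)

/-- (GD1) PROOF.  `x_i = p⁻¹ E (inr i) ∈ L P` (GC); `b_i` with `red P (b_i) = 1` and `Y i = b_i x_i ∈ L Q` for all `Q` (GB, first
part).  `Y i - x_i = ((b_i - 1)/p) E (inr i)` where `(b_i - 1)/p` is a polynomial, and `B (E (inr i)) y` is regular for
`y ∈ Dl P B E`.  `p * B (Y i) (Y j) = b_i b_j p⁻¹ B (E (inr i)) (E (inr j))` has residue `u i j` at `P`, and it is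
regular at `Q ≠ P` since `Y i, Y j ∈ L Q` (selfdual): so it is a polynomial `c i j` (GG) with `red P (c i j) = u i j`
(`ofA`, `uniq`). -/
def StGD1 : Prop :=
  ∀ (F : Type) [Field F] (V : Type) [AddCommGroup V] [Module (RatFunc F) V]
    [Module F[X] V] [IsScalarTower F[X] (RatFunc F) V] [Module F V] [IsScalarTower F (RatFunc F) V]
    [FiniteDimensional (RatFunc F) V] (P : Prm F) (B : LinearMap.BilinForm (RatFunc F) V)
    (ι₀ ι₁ : Type) [Fintype ι₀] [DecidableEq ι₀] [Fintype ι₁] [DecidableEq ι₁]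
    (E : ι₀ ⊕ ι₁ → V) (u : Matrix ι₁ ι₁ (kp P)), (∀ x y, B x y = B y x) →
    Fintype.card (ι₀ ⊕ ι₁) = Module.finrank (RatFunc F) V → Blk P B E u →
    ∀ L : Prm F → Set V, Fam L → L P = Dl P B E →
    (∀ Q, Q ≠ P → ∀ y, y ∈ L Q ↔ ∀ x ∈ L Q, RegP Q (B x y)) →
    ∃ (Y : ι₁ → V) (c : ι₁ → ι₁ → F[X]), (∀ i Q, Y i ∈ L Q) ∧
      (∀ i, ∀ y ∈ L P, RegP P (B (Y i - (pK P)⁻¹ • E (Sum.inr i)) y)) ∧
      (∀ i j, pK P * B (Y i) (Y j) = algebraMap F[X] (RatFunc F) (c i j)) ∧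
      ∀ i j, red P (c i j) = u i j

/-- (GD2) The Lagrangian.  PROOF.  Let `D = {x | ∀ Q, x ∈ L Q}`, `N = {y | ∀ Q, ∀ x ∈ L Q, RegP Q (B x y)}`.  `N ⊆ D` (for `Q ≠ P`
by selfduality; at `P` because `E i ∈ L P = Dl P B E` by `reg`).  `B x y ∈ A` for `x ∈ D`, `y ∈ N` (GG), so
`res (B x y) = 0` (`IsRes.poly`).  For `y : Fin d × ι₁ → F` (`d = deg P`) put `Z(y) = ∑ y(k,i) t^k Y_i ∈ D`; then
`x ⬝ G y = res (B Z(x) Z(y))`.  `Λ = {y | ∃ n ∈ N, Z(y) - n ∈ Fil (-1)}`, an `F`-subspace.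
ISOTROPIC: `Z(x) = n + φ`, `Z(y) = n' + φ'`:
`B Z(x) Z(y) = B Z(x) n' + B n Z(y) - B n n' + B φ φ'`, the first three are in `A`, `B φ φ' ∈ Kfil (-2)`.
MAXIMAL: let `res B Z(x) Z(y) = 0` for all `x ∈ Λ`.  Let `x' ∈ D ∩ Fil (-1)`.  By (GC) there are `c_i ∈ F[X]` with
`x' - ∑ c_i p⁻¹ E (inr i)` pairing regularly with `L P`; divide `c_i` by `P` with remainder `∑_k x(k,i) t^k`
(`p p⁻¹ E (inr i) = E (inr i)` pairs regularly with `L P`), and replace `p⁻¹ E (inr i)` by `Y i` (hypothesis): so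
`x' - Z(x)` pairs regularly with `L P`; for `Q ≠ P` it is in `L Q`, so pairs regularly.  So `n = x' - Z(x) ∈ N`, hence
`x ∈ Λ` (`Z(x) + n = x' ∈ Fil (-1)`), and `res B x' Z(y) = res B Z(x) Z(y) + res B n Z(y) = 0`.  By (GB) with
`y₀ = Z(y)` there is `m ∈ N` with `Z(y) - m ∈ Fil (-1)`: `y ∈ Λ`. -/
def StGD2 : Prop :=
  ∀ (F : Type) [Field F] (V : Type) [AddCommGroup V] [Module (RatFunc F) V]
    [Module F[X] V] [IsScalarTower F[X] (RatFunc F) V] [Module F V] [IsScalarTower F (RatFunc F) V]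
    [FiniteDimensional (RatFunc F) V] (P : Prm F) (B : LinearMap.BilinForm (RatFunc F) V)
    (ι₀ ι₁ : Type) [Fintype ι₀] [DecidableEq ι₀] [Fintype ι₁] [DecidableEq ι₁]
    (E : ι₀ ⊕ ι₁ → V) (u : Matrix ι₁ ι₁ (kp P)),
    Fintype.card (ι₀ ⊕ ι₁) = Module.finrank (RatFunc F) V → Blk P B E u →
    ∀ L : Prm F → Set V, Fam L → L P = Dl P B E →
    (∀ Q, Q ≠ P → ∀ y, y ∈ L Q ↔ ∀ x ∈ L Q, RegP Q (B x y)) →
    ∀ Y : ι₁ → V, (∀ i Q, Y i ∈ L Q) →
    (∀ i, ∀ y ∈ L P, RegP P (B (Y i - (pK P)⁻¹ • E (Sum.inr i)) y)) →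
    ∀ res : RatFunc F →ₗ[F] F, IsRes res → ∀ Fil : ℤ → Submodule F V, IsFil Fil B →
    ∃ Λ : Submodule F (Fin P.1.natDegree × ι₁ → F), ∀ y, y ∈ Λ ↔ ∀ x ∈ Λ,
      x ⬝ᵥ ((Matrix.of fun a b : Fin P.1.natDegree × ι₁ =>
        res (RatFunc.X ^ ((a.1 : ℕ) + (b.1 : ℕ)) * B (Y a.2) (Y b.2))) *ᵥ y) = 0

/-- (TRA) PROOF.  `c ↦ res (c / P)` is `F`-linear and vanishes on the multiples of `P` (`IsRes.poly`), so it factors through
`kp P = F[X] / P`.  It is not zero: for `c = X ^ (d - 1)`, `d = deg P`, `c / P - X⁻¹ ∈ Kfil (-2)` (`P` monic), so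
`res (c / P) = 1`. -/
def StTRA : Prop :=
  ∀ (F : Type) [Field F] (res : RatFunc F →ₗ[F] F), IsRes res → ∀ P : Prm F,
    ∃ s : kp P →ₗ[F] F, s ≠ 0 ∧
      ∀ c : F[X], res (algebraMap F[X] (RatFunc F) c / pK P) = s (red P c)

/-- (TRB) The determinant of the transfer.  PROOF.  Let `S_kl = s(b_k b_l)` and let `R(w)` be the matrix of multiplication by
`w` in the basis `b` (`Algebra.leftMulMatrix b w`): `w b_l = ∑_m R(w)_(m l) b_m`, so `s(b_k b_l w) = (S R(w))_(k l)`.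
So the matrix is (block diagonal with blocks `S`) times (the matrix with entries `R(u_ij)_(kl)`).  The second one is the
matrix over `F` of the `κ`-linear map `u` of `κ^ι`, in the basis `b_k e_i` (`Module.Basis.smulTower`), of determinant
`N(det u)` (`LinearMap.det_restrictScalars`); the first has determinant `(det S)^(card ι)`.  `det S ≠ 0`:
`Pool.Agent.Helper9.HYI.StSqN` (proved, `HYI.hSqN`) or: `s ≠ 0` and `κ` a field. -/
def StTRB : Prop :=
  ∀ (F κ : Type) [Field F] [Field κ] [Algebra F κ] [FiniteDimensional F κ] (n : ℕ)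
    (b : Module.Basis (Fin n) F κ) (s : κ →ₗ[F] F), s ≠ 0 → ∀ (ι : Type) [Fintype ι] [DecidableEq ι]
    (u : Matrix ι ι κ), ∃ S : F, S ≠ 0 ∧
      (Matrix.of fun x y : Fin n × ι => s (b x.1 * b y.1 * u x.2 y.2)).det =
        Algebra.norm F u.det * S ^ Fintype.card ι

/-- (GLOB) The global relation.  PROOF.  `res` from `StRes` (proved: `HYI.hRes`).  `B` is nondegenerate (`IsFil`: `dual`, `sep`); let
`b` be a basis of `V` indexed by `Fin n`, `det (B b_i b_j) ≠ 0`.  (STD): `UniB Q B b` for almost all `Q`.  For `Q ≠ P` let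
`E_Q = b` if `UniB Q B b`, else the given `E'`, and `L Q = Dl Q B E_Q`, `L P = Dl P B E`.  (FAM) applies (for fixed `x`,
`B x (b_i)` is regular for almost all `Q`, (GG)); (GU) gives selfduality.  (GD1), (GD2) give `Y`, `c`, `Λ`.
`B (Y i) (Y j) = c_ij / p`, so with `s` from (TRA), and the basis `b_k = red P X ^ k` of `kp P` over `F`
(power basis of `AdjoinRoot P.1`), `res (X^(k+l) B (Y i) (Y j)) = s (b_k b_l u_ij)`.  `u` is symmetric (`res1`, `uniq`).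
(TRB): the determinant is `N(det u) S^m ≠ 0`, `m = card ι₁`.  `StMetab` (proved: `HYI.hMetab`; card = `d m`,
`d = deg P`): `(-1)^(d m / 2) N(det u) S^m` is a square; as `m` is even `S^m` is a square and
`(-1)^(d m / 2) = N((-1)^(m/2))` (norm of the element `(-1)^(m/2)` of `F`: its `d`-th power).  So
`N((-1)^(m/2) det u)` is a square in `F` and `StSqN` (proved: `HYI.hSqN`) gives the claim. -/
def StGLOB : Prop :=
  ∀ (F : Type) [Field F] [Fintype F], (2 : F) ≠ 0 → ∀ (V : Type) [AddCommGroup V]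
    [Module (RatFunc F) V]
    [Module F[X] V] [IsScalarTower F[X] (RatFunc F) V] [Module F V] [IsScalarTower F (RatFunc F) V]
    [FiniteDimensional (RatFunc F) V] (n : ℕ), Module.finrank (RatFunc F) V = n →
    ∀ (Fil : ℤ → Submodule F V) (B : LinearMap.BilinForm (RatFunc F) V), IsFil Fil B →
    ∀ (P : Prm F) (ι₀ ι₁ : Type) [Fintype ι₀] [DecidableEq ι₀] [Fintype ι₁] [DecidableEq ι₁]
    (E : ι₀ ⊕ ι₁ → V) (u : Matrix ι₁ ι₁ (kp P)), Fintype.card (ι₀ ⊕ ι₁) = n → Blk P B E u →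
    (∀ Q : Prm F, Q ≠ P → ∃ E' : Fin n → V, UniB Q B E') →
    Even (Fintype.card ι₁) → IsSquare ((-1) ^ (Fintype.card ι₁ / 2) * u.det)

/-! ### The good place -/

section good

variable {F : Type} [Field F]

/-- The factors of `f` modulo `P`. -/
structure FacOK (f : F[X][X]) (P : Prm F) : Prop where
  mem : ∀ ψ : (kp P)[X], ψ ∈ facs f P ↔ ψ.Monic ∧ Irreducible ψ ∧ ψ ∣ f.map (red P)
  prod : ∏ ψ ∈ facs f P, ψ = f.map (red P)

/-- Orthogonal idempotents modulo `P ^ N`. -/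
structure IdN (f : F[X][X]) (P : Prm F) (N : ℕ) (e : (kp P)[X] → F[X][X]) : Prop where
  one : ∀ ψ ∈ facs f P, AdjoinRoot.mk ψ ((e ψ).map (red P)) = 1
  zero : ∀ ψ ∈ facs f P, ∀ φ ∈ facs f P, φ ≠ ψ → AdjoinRoot.mk φ ((e ψ).map (red P)) = 0
  orth : ∀ ψ ∈ facs f P, ∀ φ ∈ facs f P, φ ≠ ψ → ∃ r : RR f,
    AdjoinRoot.mk f (e ψ * e φ) = algebraMap F[X] (RR f) (P.1 ^ N) * r
  idem : ∀ ψ ∈ facs f P, ∃ r : RR f,
    AdjoinRoot.mk f (e ψ * e ψ) = AdjoinRoot.mk f (e ψ) + algebraMap F[X] (RR f) (P.1 ^ N) * r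

/-- The components `μ ψ` of the functional `τ` modulo `P`. -/
structure MuOK {f : F[X][X]} (hm : f.Monic) (P : Prm F)
    (μ : ∀ ψ : (kp P)[X], AdjoinRoot ψ →ₗ[kp P] kp P) : Prop where
  ne : ∀ ψ ∈ facs f P, μ ψ ≠ 0
  comp : ∀ ψ ∈ facs f P, ∀ a : F[X][X],
    (∀ φ ∈ facs f P, φ ≠ ψ → AdjoinRoot.mk φ (a.map (red P)) = 0) →
    ModP P (tL hm (algebraMap (RR f) (LL f) (AdjoinRoot.mk f a)))
      (μ ψ (AdjoinRoot.mk ψ (a.map (red P))))

end good

/-- (IDEM) PROOF.  Case `N ≥ 1` (for `N = 0` take the same as for `N = 1`).  `R = RR f / (P ^ N)`, the ideal `(P)` of `R` is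
nilpotent and `R / (P) = κ[x] / f̄` (`κ = kp P`), `f̄ = ∏ ψ` a product of distinct monic irreducible polynomials.
Chinese remainder theorem: there are `c_ψ ∈ κ[x]` with `c_ψ ≡ 1` modulo `ψ`, `≡ 0` modulo the other `φ`; they are
orthogonal idempotents modulo `f̄`, with sum `1`.  Lift (`CompleteOrthogonalIdempotents.lift_of_isNilpotent_ker` in
`Mathlib/RingTheory/Idempotents.lean`, or directly: if `e² - e ∈ P^m` then `e' = 3 e² - 2 e³` satisfies
`e'² - e' ∈ P^(2m)`, `e' ≡ e`; orthogonality: if `e φ' ∈ P^m` for `φ' = e_φ`, then the new ones have product in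
`P^(2 m)`). -/
def StIDEM : Prop :=
  ∀ (F : Type) [Field F] (f : F[X][X]), f.Monic → ∀ (P : Prm F), FacOK f P → ∀ N : ℕ,
    ∃ e : (kp P)[X] → F[X][X], IdN f P N e

/-- (IDU) PROOF.  `κ_ψ` is a field: `b₁ ∈ F[X][X]` with `a b₁ ≡ 1` in `κ_ψ`.  `(a b₁ - 1) e` has residue `0` at all `φ ∈ facs`, so
`f̄ = ∏ φ` divides its reduction and `mk f ((a b₁ - 1) e) = P ρ₁`.  With `x = a b₁`:
`(1 - x)^N e^N ∈ P^N RR f` and `e^N ≡ e` modulo `P^N` (`N ≥ 1`), so `(1 - x)^N e ∈ P^N RR f`;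
`1 - (1 - x)^N = x q(x)`, and `b = b₁ q(x)` satisfies `(a b - 1) e = - (1 - x)^N e`.  For `N = 0` take `b = 0`
(and `ρ = mk f (- e)`). -/
def StIDU : Prop :=
  ∀ (F : Type) [Field F] (f : F[X][X]), f.Monic → ∀ (P : Prm F), FacOK f P → ∀ (N : ℕ)
    (e : (kp P)[X] → F[X][X]), IdN f P N e → ∀ ψ ∈ facs f P, ∀ a : F[X][X],
    AdjoinRoot.mk ψ (a.map (red P)) ≠ 0 → ∃ (b : F[X][X]) (ρ : RR f), (1 ≤ N →
      AdjoinRoot.mk ψ ((a * b).map (red P)) = 1) ∧
      AdjoinRoot.mk f ((a * b - 1) * e ψ) = algebraMap F[X] (RR f) (P.1 ^ N) * ρ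

/-- (REP) Valuation and residue at `ψ`.  PROOF.  UNIQUE: `z a = P^k p`, `z a' = P^(k') p'` in `L`.  Then
`P^k p a' = P^(k') p' a`; if `k < k'`: `p a' = P^(k' - k) p' a` in `RR f` (`RR f → LL f` is injective: `f` is monic), so in
`κ_ψ`: `s a a' = 0`, contradiction.  So `k = k'` and `s a a' = s' a' a` in `κ_ψ`.  (The map `RR f → κ_ψ` is well defined
because `ψ ∣ f̄`.)  EXISTENCE: there are `d ∈ A`, `d ≠ 0` and `r ∈ RR f` with `d z = r ≠ 0`.  There is `r' ∈ RR f` with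
`r r' = n ∈ A`, `n ≠ 0` (`r` is integral over `A`, nonzero, and `LL f` is a field).  `n = P^k₀ n₀`, `P ∤ n₀`; take
`N = k₀ + 1` and `e` from (IDEM).  `e_ψ r ∉ P^N RR f`: otherwise `e_ψ n = e_ψ r r' ∈ P^N RR f`, `e_ψ n₀ ∈ P RR f`
(torsion-free), so `0 = 1 * n₀ ≠ 0` in `κ_ψ`.  Let `k < N` be maximal with `e_ψ r = P^k r₁`, `r₁ ∈ RR f`.  For `φ ≠ ψ`:
`P^k r₁ e_φ = e_φ e_ψ r ∈ P^N RR f`, `r₁ e_φ ∈ P RR f`, so `r₁ = 0` in `κ_φ`.  If also `r₁ = 0` in `κ_ψ` then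
`r₁ ∈ P RR f` (`f̄ = ∏ φ`), contradicting the maximality of `k`.  `d = P^v d₀`, `P ∤ d₀`:
`z (e_ψ d₀) = P^(k - v) r₁`. -/
def StREP : Prop :=
  ∀ (F : Type) [Field F] (f : F[X][X]), f.Monic → ∀ [Fact (Irreducible (fK f))] (P : Prm F),
    FacOK f P → ∀ ψ ∈ facs f P,
    (∀ z : LL f, z ≠ 0 → ∃ (k : ℤ) (s : AdjoinRoot ψ), RepG P ψ z k s) ∧
    ∀ (z : LL f) (k k' : ℤ) (s s' : AdjoinRoot ψ), RepG P ψ z k s → RepG P ψ z k' s' →
      k = k' ∧ s = s'

/-- (MU) PROOF.  `κ = kp P`, `f̄ = f.map (red P)` monic.  `τ(mk f a)` reduces to `τ̄(mk f̄ ā)`, `τ̄ = tau (hm.map (red P))`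
(`map_modByMonic`; `tL hm (algebraMap (mk f a))` is the image of the coefficient of `a %ₘ f`).  Let `c_ψ ∈ κ[x]` with
`c_ψ ≡ 1` modulo `ψ` and `≡ 0` modulo the other factors (CRT).  `μ ψ y = τ̄(mk f̄ (c_ψ * rep y))` where `rep y` is
`AdjoinRoot.modByMonicHom` (linear).  `comp`: `ā ≡ c_ψ rep(mk ψ ā)` modulo all factors, hence modulo `f̄`.
`ne`: if `μ ψ = 0` then `τ̄(c_ψ b) = 0` for all `b`, so `c_ψ = 0` in `κ[x]/f̄` (TND), contradiction modulo `ψ`. -/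
def StMU : Prop :=
  ∀ (F : Type) [Field F] (f : F[X][X]) (hm : f.Monic), 1 ≤ f.natDegree → ∀ P : Prm F, FacOK f P →
    ∃ μ : ∀ ψ : (kp P)[X], AdjoinRoot ψ →ₗ[kp P] kp P, MuOK hm P μ

/-- (LPA) PROOF.  There are `M : ℕ`, `d₀ ∈ A`, `P ∤ d₀`, `r₀ ∈ RR f` with `P^M d₀ z = r₀`.  `N₀ = M + K + 1`.
SECOND PART: `e_ψ e_φ = P^N ρ` in `RR f`, so `P^(-k) τ(z e_ψ e_φ a) = P^(N - k - M) τ(r₀ ρ a) / d₀`, `N - k - M ≥ 1` and
`τ(RR f) ⊆ A` (`StCd`, proved in `M_Cd.lean`).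
FIRST PART: `z a₀ = P^k p` (`RepG`), `b, ρ` from (IDU) for `a₀`: `(a₀ b - 1) e_ψ = P^N ρ`.  Then
`z e_ψ² a = z a₀ b e_ψ² a - z (a₀ b - 1) e_ψ e_ψ a = P^k p b e_ψ² a - P^N z ρ e_ψ a`, so
`P^(-k) τ(z e_ψ² a) = τ(p b e_ψ² a) - P^(N - k - M) τ(r₀ ρ e_ψ a) / d₀`, and `p b e_ψ² a` has residue `0` at
`φ ≠ ψ` and residue `s a₀ b a = s a` at `ψ`: `MuOK.comp`. -/
def StLPA : Prop :=
  ∀ (F : Type) [Field F] (f : F[X][X]) (hm : f.Monic), 1 ≤ f.natDegree →
    ∀ [Fact (Irreducible (fK f))] (P : Prm F), FacOK f P →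
    ∀ μ : (∀ ψ : (kp P)[X], AdjoinRoot ψ →ₗ[kp P] kp P), MuOK hm P μ → ∀ (z : LL f) (K : ℕ),
    ∃ N₀ : ℕ, ∀ N : ℕ, N₀ ≤ N → ∀ e : (kp P)[X] → F[X][X], IdN f P N e →
      (∀ ψ ∈ facs f P, ∀ (k : ℤ) (s : AdjoinRoot ψ), |k| ≤ K → RepG P ψ z k s → ∀ a : F[X][X],
        ModP P (pK P ^ (-k) * tL hm (z * algebraMap (RR f) (LL f) (AdjoinRoot.mk f (e ψ * e ψ * a))))
          (μ ψ (s * AdjoinRoot.mk ψ (a.map (red P))))) ∧
      ∀ ψ ∈ facs f P, ∀ φ ∈ facs f P, φ ≠ ψ → ∀ k : ℤ, |k| ≤ K → ∀ a : F[X][X],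
        ModP P (pK P ^ (-k) * tL hm (z * algebraMap (RR f) (LL f) (AdjoinRoot.mk f (e ψ * e φ * a))))
          0

/-- (LPB) PROOF.  `μ` from (MU); `d ψ = det (μ_ψ(θ^(i+j)))_(i,j < deg ψ)`, nonzero (`StSqN`, third part, for `κ_ψ / κ`).
`K = ∑ 2 |k ψ| + 2`, `N₀` from (LPA), `e` from (IDEM) with `N = N₀`.
`ι₀ = Σ ψ ∈ facs \ T, Fin (deg ψ)`, `ι₁ = Σ ψ ∈ T, Fin (deg ψ)` (sigma types over subtypes), and for the index `(ψ, i)`
`E = P^(-⌊k_ψ / 2⌋) mk f (e_ψ X^i)` (`Int` division).  `B (E(ψ,i)) (E(φ,j)) = P^(-⌊k_ψ/2⌋ - ⌊k_φ/2⌋) τ(z e_ψ e_φ θ^(i+j))`.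
For `ψ ≠ φ`: `P⁻¹ B ≡ 0` and `B ≡ 0` by (LPA) second part.  For `ψ = φ ∈ T` (`k_ψ` odd, `2 ⌊k_ψ/2⌋ = k_ψ - 1`):
`P⁻¹ B ≡ μ_ψ(s_ψ θ^(i+j))`, and `B ≡ 0`.  For `ψ = φ ∉ T` (`k_ψ` even): `B ≡ μ_ψ(s_ψ θ^(i+j))`.  So
`u = blockDiagonal' (μ_ψ(s_ψ θ^(i+j)))` with `det u = ∏_(ψ ∈ T) N(s_ψ) d_ψ ≠ 0` (`Matrix.det_blockDiagonal'`, `StSqN` second
part; the norm of `s_ψ ≠ 0` is not `0`), the same for the block `ι₀`.  The cardinality is `∑_ψ deg ψ = deg f`
(`FacOK.prod`, `natDegree_prod_of_monic`). -/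
def StLPB : Prop :=
  ∀ (F : Type) [Field F] [Fintype F], (2 : F) ≠ 0 → ∀ (f : F[X][X]) (hm : f.Monic),
    1 ≤ f.natDegree → ∀ [Fact (Irreducible (fK f))] (P : Prm F), FacOK f P →
    ∃ d : (kp P)[X] → kp P, (∀ ψ ∈ facs f P, d ψ ≠ 0) ∧ ∀ T : Finset (kp P)[X], T ⊆ facs f P →
    ∀ (z : LL f) (k : (kp P)[X] → ℤ) (s : ∀ ψ : (kp P)[X], AdjoinRoot ψ),
    (∀ ψ ∈ facs f P, RepG P ψ z (k ψ) (s ψ) ∧ (Odd (k ψ) ↔ ψ ∈ T)) →
    ∃ (ι₀ ι₁ : Type) (_ : Fintype ι₀) (_ : DecidableEq ι₀) (_ : Fintype ι₁) (_ : DecidableEq ι₁)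
      (E : ι₀ ⊕ ι₁ → LL f) (u : Matrix ι₁ ι₁ (kp P)), Blk P (Bf hm z) E u ∧
      Fintype.card (ι₀ ⊕ ι₁) = f.natDegree ∧ Fintype.card ι₁ = ∑ ψ ∈ T, ψ.natDegree ∧
      u.det = ∏ ψ ∈ T, (Algebra.norm (kp P) (s ψ) * d ψ)

/-- (LP) PROOF.  (REP), (LPB).  For `z` as in the statement choose `k ψ`, `s ψ` with `RepG` for `ψ ∈ facs f P`; by the uniqueness
`om P ψ z = 0` iff `k ψ` is even and `ep P ψ z = 0` iff `s ψ` is a square.  `N(s ψ)` is a square in `kp P` iff `s ψ` is a square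
(`StSqN`, first part; `kp P` and `AdjoinRoot ψ` are finite fields).  For the quadratic character `χ : (kp P)ˣ → ZMod 2`
(`StSqN`, last part, and induction over `T`): `(-1)^(m/2) det u` is a square iff
`χ((-1)^(m/2) ∏_(ψ ∈ T) d ψ) + ∑_(ψ ∈ T) ep P ψ z = 0`; `m = ∑_(ψ ∈ T) deg ψ`; `c` is the first summand. -/
def StLP : Prop :=
  ∀ (F : Type) [Field F] [Fintype F], (2 : F) ≠ 0 → ∀ (f : F[X][X]) (hm : f.Monic),
    1 ≤ f.natDegree → ∀ [Fact (Irreducible (fK f))] (P : Prm F), FacOK f P →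
    ∀ T : Finset (kp P)[X], T ⊆ facs f P → ∃ c : ZMod 2, ∀ z : LL f, z ≠ 0 →
    (∀ ψ ∈ facs f P, (om P ψ z = 1 ↔ ψ ∈ T)) →
    ∃ (ι₀ ι₁ : Type) (_ : Fintype ι₀) (_ : DecidableEq ι₀) (_ : Fintype ι₁) (_ : DecidableEq ι₁)
      (E : ι₀ ⊕ ι₁ → LL f) (u : Matrix ι₁ ι₁ (kp P)), Blk P (Bf hm z) E u ∧
      Fintype.card (ι₀ ⊕ ι₁) = f.natDegree ∧ Fintype.card ι₁ = ∑ ψ ∈ T, ψ.natDegree ∧
      (IsSquare ((-1) ^ (Fintype.card ι₁ / 2) * u.det) ↔ ∑ ψ ∈ T, ep P ψ z = c)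

/-- (QD) PROOF.  `c` from (LP) (`FacOK` from `Pool.Agent.Helper3.GT.StFAC`).  For `Q ≠ P`: if `Q ∈ S` or `Bd f Q` take `v` with
`IsAbsP Q v` (`Pool.Agent.Helper54.PT.exists_absP`) and (LOC), else (EVU).  At infinity `exists_absInf` and (LOC).
(GLOB) with `n = 2 g + 1`: `IsSquare ((-1)^(m/2) det u)`, so `∑_(ψ ∈ T) ep P ψ z = c`; here `m = ∑_(ψ ∈ T) deg ψ` is even because
`∑_ψ deg ψ om ψ z = 0` in `ZMod 2` (third part of `Pool.Agent.Helper3.GT.StOE`; the norm of `z` is a square). -/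
def StQD : Prop :=
  ∀ (F : Type) [Field F] [Fintype F], (2 : F) ≠ 0 → ∀ (g : ℕ), 1 ≤ g → ∀ (f : F[X][X]), f.Monic →
    f.natDegree = 2 * g + 1 → (fK f).Separable → ∀ [Fact (Irreducible (fK f))] (P : Prm F),
    Gd f P → ∀ (S : Finset (Prm F)) (D : F[X]), D ≠ 0 → ∀ T : Finset (kp P)[X], T ⊆ facs f P →
    ∃ c : ZMod 2, ∀ z : (LL f)ˣ, IsSquare (Algebra.norm (RatFunc F) (z : LL f)) →
      (∀ Q : Prm F, Q ≠ P → Q ∉ S → ¬ Bd f Q → EvP Q (z : LL f)) →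
      (∀ Q : Prm F, Q ≠ P → (Q ∈ S ∨ Bd f Q) → ∀ v : AbsoluteValue (RatFunc F) ℝ,
        v.IsNontrivial → IsAbsP Q v → TwAt f D v z) →
      (∀ v : AbsoluteValue (RatFunc F) ℝ, v.IsNontrivial → IsAbsInf v → TwAt f D v z) →
      (∀ ψ ∈ facs f P, (om P ψ (z : LL f) = 1 ↔ ψ ∈ T)) → ∑ ψ ∈ T, ep P ψ (z : LL f) = c

end Pool.Agent.Helper9.GTI
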